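import Pool.Agent.Lib.MP_3d3918_nt.Inert.InertSum

/-!
# From the formulas over the fields to the formulas for the inert points
-/

set_option autoImplicit false

open Polynomial

namespace Pool.Agent.MP_3d3918

section

variable {K : Type} [Field K] {F X : IntermediateField K (AlgebraicClosure K)}

theorem large_set (hFX : F ≤ X) [FiniteDimensional K X] (θ : ext hFX)
    (hθ : IntermediateField.adjoin F {θ} = ⊤) (S : Set (AlgebraicClosure K)) (hS : S.Finite)
    (hSX : ∀ x ∈ S, x ∈ X) :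
    ∃ T : Finset F, ∀ R : Subring F, (T : Set F) ⊆ R → ∀ x ∈ S, x ∈ BX R θ := by
  have fin := finite_ext hFX
  obtain ⟨T, hT⟩ := exists_finset_set θ hθ ((fun x : ext hFX => (x : AlgebraicClosure K)) ⁻¹' S)
    (hS.preimage Subtype.val_injective.injOn)
  refine ⟨T, fun R hR x hx => ?_⟩
  exact (mem_BR_iff hFX θ R ⟨x, hSX x hx⟩).1 (hT R hR ⟨x, hSX x hx⟩ hx)

theorem minpoly_coe (hFX : F ≤ X) (θ : ext hFX) :
    minpoly F (θ : AlgebraicClosure K) = minpoly F θ :=
  minpoly.algebraMap_eq (algebraMap (ext hFX) (AlgebraicClosure K)).injective θ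

theorem adjoin_coe (hFX : F ≤ X) (θ : ext hFX) (hθ : IntermediateField.adjoin F {θ} = ⊤) :
    (IntermediateField.adjoin F {(θ : AlgebraicClosure K)}).restrictScalars K = X := by
  have h1 : (IntermediateField.adjoin F {θ}).map (ext hFX).val =
      IntermediateField.adjoin F {(θ : AlgebraicClosure K)} := by
    rw [IntermediateField.adjoin_map, Set.image_singleton]
    rfl
  ext x
  rw [← h1, hθ, IntermediateField.mem_restrictScalars]
  constructor
  · rintro ⟨y, -, rfl⟩
    exact y.2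
  · intro hx
    exact ⟨⟨x, hx⟩, trivial, rfl⟩

theorem restr_toAE (R₁ : Subring K) {E : IntermediateField K (AlgebraicClosure K)} (hFE : F ≤ E)
    (R : Subring F) (B : Subring (AlgebraicClosure K))
    (hRB : ∀ x ∈ R, (x : AlgebraicClosure K) ∈ B)
    (h : ∀ x ∈ R₁, algebraMap K F x ∈ R) (h' : ∀ x ∈ R₁, algebraMap K E x ∈ AE B E) (p : ℕ)
    (z : AE B E →+* ZMod p) :
    restr R₁ (algebraMap K F) R h p (z.comp (toAE hFE R B hRB)) =
      restr R₁ (algebraMap K E) (AE B E) h' p z := by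
  ext x
  exact congrArg z rfl

end

section

variable {K : Type} [Field K] [CharZero K] (R₁ : Subring K) (a : (p : ℕ) → (R₁ →+* ZMod p) → ℤ)
  (b : IntermediateField K (AlgebraicClosure K) → ℕ → ℂ)
  (A : Type) [AddCommGroup A] [DistribMulAction Gal(AlgebraicClosure K/K) A] (U : Set ℂ)

/-- The series for the inert points is the combination of the series for the fields. -/
theorem iterm_eq {F X N : IntermediateField K (AlgebraicClosure K)} (hFX : F ≤ X)
    [FiniteDimensional K X] [IsGalois K X] [Normal K N]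
    [FiniteDimensional K N] (hNX : N ≤ X) (s : Gal(AlgebraicClosure K/K)) (hsF : fixIn N s = F)
    (θ : ext hFX) (hθ : IntermediateField.adjoin F {θ} = ⊤) (t : ext hFX)
    (ht : (IntermediateField.adjoin F {(t : AlgebraicClosure K)}).restrictScalars K = N)
    (R : Subring F) (hfg : FG R) (hl : Large θ R)
    (htB : (t : AlgebraicClosure K) ∈ BX R θ)
    (htu : ∀ g : Gal((ext hFX)/F), g t ≠ t →
      (((g t - t)⁻¹ : ext hFX) : AlgebraicClosure K) ∈ BX R θ)
    (hc : ∀ n, (minpoly F (t : AlgebraicClosure K)).coeff n ∈ R)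
    (h : ∀ x ∈ R₁, algebraMap K F x ∈ R)
    (h' : ∀ d : ℕ, ∀ x ∈ R₁, algebraMap K (fixIn N (s ^ d)) x ∈ AE (BX R θ) (fixIn N (s ^ d)))
    (z : ℂ) (p : Nat.Primes) :
    iterm R₁ a (algebraMap K F) (minpoly F (t : AlgebraicClosure K))
      (fun p => ∑ d ∈ (ordIn N s).divisors,
        (ArithmeticFunction.moebius d : ℂ) / d * b (fixIn N (s ^ d)) p) R h z p =
    ∑ d ∈ (ordIn N s).divisors, (ArithmeticFunction.moebius d : ℂ) / d *
      gterm R₁ a (algebraMap K (fixIn N (s ^ d))) (b (fixIn N (s ^ d)))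
        (AE (BX R θ) (fixIn N (s ^ d))) (h' d) z p := by
  have hp : Fact (p : ℕ).Prime := ⟨p.2⟩
  have hs : ∀ x ∈ F, s x = x := by
    intro x hx
    rw [← hsF, mem_fixIn] at hx
    exact hx.2
  have hFN : F ≤ N := by
    rw [← hsF]
    exact fixIn_le N s
  have hFE : ∀ d : ℕ, F ≤ fixIn N (s ^ d) := fun d => le_fixIn hFN (pow_fix hs d)
  have hRB : ∀ x ∈ R, (x : AlgebraicClosure K) ∈ BX R θ := fun x hx => coe_mem_BX _ hx
  have h1 := inert_sum hFX hNX s hsF θ hθ t ht R hfg hl htB htu hc p hRB hFE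
    (fun y => a p (restr R₁ (algebraMap K F) R h p y))
  have halg : ∀ E : IntermediateField K (AlgebraicClosure K), Algebra.IsAlgebraic K E :=
    fun E => inferInstance
  have hdim : ∀ d : ℕ, dim (fixIn N (s ^ d)) = dim F := by
    intro d
    rw [dim_eq (K := K) (L := fixIn N (s ^ d)), dim_eq (K := K) (L := F)]
  unfold iterm gterm
  rw [h1]
  simp only [restr_toAE R₁ _ R (BX R θ) hRB h (h' _) p, hdim]
  rw [Finset.sum_div, ← Finset.sum_sub_distrib, Finset.sum_mul, Finset.sum_mul]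
  refine Finset.sum_congr rfl fun d _ => ?_
  ring

variable {R₁ b}

/-- The exact formulas over the fields between `N ^ σ` and `N` give the exact formula for the inert
points. -/
theorem inertIn_of_modNagao (hR₁ : FG R₁) (N : IntermediateField K (AlgebraicClosure K))
    [FiniteDimensional K N] [IsGalois K N] (σ : Gal(AlgebraicClosure K/K))
    (h : ∀ d ∈ (ordIn N σ).divisors, ModNagao R₁ a b A U (fixIn N (σ ^ d))) :
    InertRk R₁ a b A U {0} N σ := by
  classical
  have hFX : fixIn N σ ≤ N := fixIn_le N σ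
  have fin := finite_ext hFX
  have gal := galois_ext hFX
  obtain ⟨θ, hθ⟩ := Field.exists_primitive_element (fixIn N σ) (ext hFX)
  obtain ⟨s₁, hs₁⟩ := hR₁
  have hfix : ∀ x ∈ fixIn N σ, σ x = x := fun x hx => ((mem_fixIn _ _ _).1 hx).2
  have hFE : ∀ d : ℕ, fixIn N σ ≤ fixIn N (σ ^ d) := fun d => le_fixIn hFX (pow_fix hfix d)
  have h' : ∀ d : {d // d ∈ (ordIn N σ).divisors}, ∃ s : Finset (fixIn N (σ ^ d.1)),
      ∀ R : Subring (fixIn N (σ ^ d.1)), FG R → (s : Set (fixIn N (σ ^ d.1))) ⊆ R →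
        ∃ (h : ∀ x ∈ R₁, (algebraMap K (fixIn N (σ ^ d.1))) x ∈ R)
          (r' : ℕ), Module.rank ℤ (inv A (fixIn N (σ ^ d.1))) = r' ∧
            Good U (gterm R₁ a _ (b (fixIn N (σ ^ d.1))) R h) r' := by
    intro d
    obtain ⟨R₀, ⟨s, hs⟩, hR₀⟩ := h d.1 d.2
    refine ⟨s, fun R hR hsR => hR₀ R hR ?_⟩
    rw [← hs, Subring.closure_le]
    exact hsR
  choose s hs using h'
  obtain ⟨T₁, hT₁⟩ := exists_large θ hθ
  obtain ⟨T₂, hT₂⟩ := large_set hFX θ hθ
    (⋃ d : {d // d ∈ (ordIn N σ).divisors},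
      ((fun x : fixIn N (σ ^ d.1) => (x : AlgebraicClosure K)) '' (s d : Set _)))
    (Set.finite_iUnion fun d => (Finset.finite_toSet _).image _) (by
      intro x hx
      obtain ⟨d, y, _, rfl⟩ := Set.mem_iUnion.1 hx
      exact fixIn_le _ _ y.2)
  refine ⟨θ, adjoin_coe hFX θ hθ,
    Subring.closure ((T₁ ∪ T₂ ∪ s₁.image (algebraMap K (fixIn N σ)) : Finset (fixIn N σ)) :
      Set (fixIn N σ)), fg_closure _, ?_⟩
  intro R hR hle
  have hsub : ((T₁ ∪ T₂ ∪ s₁.image (algebraMap K (fixIn N σ)) : Finset (fixIn N σ)) :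
      Set (fixIn N σ)) ⊆ R := fun x hx => hle (Subring.subset_closure hx)
  have hl : Large θ R := hT₁ R fun x hx => hsub (by
    simp only [Finset.coe_union, Set.mem_union]; tauto)
  have hgen := hT₂ R fun x hx => hsub (by
    simp only [Finset.coe_union, Set.mem_union]; tauto)
  have hR₁ : ∀ x ∈ R₁, algebraMap K (fixIn N σ) x ∈ R := by
    have h1 : R₁ ≤ R.comap (algebraMap K (fixIn N σ)) := by
      rw [← hs₁, Subring.closure_le]
      intro x hx
      change algebraMap K (fixIn N σ) x ∈ R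
      apply hsub
      rw [Finset.coe_union, Finset.coe_image]
      exact Or.inr ⟨x, hx, rfl⟩
    exact fun x hx => h1 hx
  have hmem : ∀ d : ℕ, ∀ x ∈ R₁, algebraMap K (fixIn N (σ ^ d)) x ∈
      AE (BX R θ) (fixIn N (σ ^ d)) := by
    intro d x hx
    exact (toAE (hFE d) R (BX R θ) (fun x hx => coe_mem_BX _ hx)
      ⟨algebraMap K (fixIn N σ) x, hR₁ x hx⟩).2
  have key : ∀ d ∈ (ordIn N σ).divisors, ∃ r' : ℕ,
      Module.rank ℤ (inv A (fixIn N (σ ^ d))) = r' ∧
        Good U (gterm R₁ a (algebraMap K (fixIn N (σ ^ d))) (b (fixIn N (σ ^ d)))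
          (AE (BX R θ) (fixIn N (σ ^ d))) (hmem d)) r' := by
    intro d hd
    obtain ⟨_, r', hr', hg⟩ := hs ⟨d, hd⟩ (AE (BX R θ) (fixIn N (σ ^ d)))
      (fg_AE hFX θ R hR hl _ (hFE d) (fixIn_le _ _)) (by
        intro x hx
        exact hgen _ (Set.mem_iUnion.2 ⟨⟨d, hd⟩, x, hx, rfl⟩))
    exact ⟨r', hr', hg⟩
  choose! r hr hgood using key
  refine ⟨hR₁, r, 0, hr, rfl, ?_⟩
  have hcomb := Good.combine (ordIn N σ).divisors
    (fun d => (ArithmeticFunction.moebius d : ℂ) / d) _ _ hgood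
  rw [mul_zero, sub_zero]
  have heq : (fun (z : ℂ) (p : Nat.Primes) => ∑ d ∈ (ordIn N σ).divisors,
      (ArithmeticFunction.moebius d : ℂ) / d *
      gterm R₁ a (algebraMap K (fixIn N (σ ^ d))) (b (fixIn N (σ ^ d)))
        (AE (BX R θ) (fixIn N (σ ^ d))) (hmem d) z p) =
      iterm R₁ a (algebraMap K (fixIn N σ)) (minpoly (fixIn N σ) (θ : AlgebraicClosure K))
        (fun p => ∑ d ∈ (ordIn N σ).divisors,
          (ArithmeticFunction.moebius d : ℂ) / d * b (fixIn N (σ ^ d)) p) R hR₁ := by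
    funext z p
    refine (iterm_eq R₁ a b hFX le_rfl σ rfl θ hθ θ (adjoin_coe hFX θ hθ) R hR hl
      (theta_mem_BX R _) (fun g hg => ?_) (fun n => ?_) hR₁ hmem z p).symm
    · have h1 := hl.unit g 1
      exact (mem_BR_iff hFX θ R _).1 h1
    · rw [minpoly_coe]
      exact hl.coeff n
  rw [← heq]
  exact hcomb

end

end Pool.Agent.MP_3d3918
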