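import Pool.Agent.Lib.MP_3d3918_nt.Inert.RingsX

/-!
# Counting the points of the intermediate rings
-/

set_option autoImplicit false

open Polynomial

namespace Pool.Agent.MP_3d3918

section

variable {K : Type} [Field K] [CharZero K] {F X : IntermediateField K (AlgebraicClosure K)}

/-- `E` as an algebra over `F`. -/
@[instance_reducible]
noncomputable def algFE {E : IntermediateField K (AlgebraicClosure K)} (hFE : F ≤ E) :
    Algebra F E := (IntermediateField.inclusion hFE).toRingHom.toAlgebra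

/-- The embedding of `E` in `X`. -/
noncomputable def embE {E : IntermediateField K (AlgebraicClosure K)} (hFX : F ≤ X) (hFE : F ≤ E)
    (hEX : E ≤ X) : @AlgHom F E (ext hFX) _ _ _ (algFE hFE) _ :=
  letI := algFE hFE
  { toFun := fun x => ⟨x.1, hEX x.2⟩
    map_one' := rfl
    map_mul' := fun _ _ => rfl
    map_zero' := rfl
    map_add' := fun _ _ => rfl
    commutes' := fun _ => rfl }

theorem AR_eq {E : IntermediateField K (AlgebraicClosure K)} (hFX : F ≤ X) (hFE : F ≤ E)
    (hEX : E ≤ X) (θ : ext hFX) (R : Subring F) :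
    @AR F (ext hFX) _ _ _ θ R E _ (algFE hFE) (embE hFX hFE hEX) = AE (BX R θ) E := by
  ext x
  let _ := algFE hFE
  rw [mem_AR, mem_BR_iff, mem_AE]
  rfl

theorem range_embE [FiniteDimensional K X] [IsGalois K X]
    {E : IntermediateField K (AlgebraicClosure K)} (hFX : F ≤ X) (hFE : F ≤ E) (hEX : E ≤ X)
    (x : ext hFX) : (∀ g ∈ subG hFX E, g x = x) ↔
      x ∈ Set.range (fun z : E => (⟨z.1, hEX z.2⟩ : ext hFX)) := by
  rw [fixed_iff hFX hFE]
  constructor
  · intro h
    exact ⟨⟨x, h⟩, rfl⟩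
  · rintro ⟨z, rfl⟩
    exact z.2

theorem count_AE (hFX : F ≤ X) [FiniteDimensional K X] [IsGalois K X] (θ : ext hFX)
    (hθ : IntermediateField.adjoin F {θ} = ⊤) (R : Subring F) (hR : Large θ R) (p : ℕ)
    [Fact p.Prime] (y : R →+* ZMod p) :
    ∃ σ : Gal((ext hFX)/F), ∀ (E : IntermediateField K (AlgebraicClosure K)) (hFE : F ≤ E)
      (_ : E ≤ X) (hRB : ∀ x ∈ R, (x : AlgebraicClosure K) ∈ BX R θ),
      Nat.card {z : AE (BX R θ) E →+* ZMod p // z.comp (toAE hFE R (BX R θ) hRB) = y} =
        Nat.card {x : Gal((ext hFX)/F) ⧸ subG hFX E // σ • x = x} := by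
  have fin := finite_ext hFX
  have gal := galois_ext hFX
  obtain ⟨σ, hσ⟩ := count_AR hR hθ p y
  refine ⟨σ, fun E hFE hEX hRB => ?_⟩
  have key : ∀ (A : Subring E) (i : R →+* A)
      (_ : A = @AR F (ext hFX) _ _ _ θ R E _ (algFE hFE) (embE hFX hFE hEX))
      (_ : ∀ r, (((i r : A) : E) : AlgebraicClosure K) = r.1),
      Nat.card {z : A →+* ZMod p // z.comp i = y} =
        Nat.card {x : Gal((ext hFX)/F) ⧸ subG hFX E // σ • x = x} := by
    rintro A i rfl hi
    let _ := algFE hFE
    have h1 := hσ (subG hFX E) E _ (algFE hFE) (embE hFX hFE hEX)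
      (fun x => range_embE hFX hFE hEX x)
    have h2 : i = incl θ R (embE hFX hFE hEX) := by
      ext r
      exact hi r
    rw [h2]
    exact h1
  exact key _ _ (AR_eq hFX hFE hEX θ R).symm (fun r => rfl)

theorem fg_AE (hFX : F ≤ X) [FiniteDimensional K X] [IsGalois K X] (θ : ext hFX) (R : Subring F)
    (hfg : FG R) (hR : Large θ R) (E : IntermediateField K (AlgebraicClosure K)) (hFE : F ≤ E)
    (hEX : E ≤ X) : FG (AE (BX R θ) E) := by
  have fin := finite_ext hFX
  have gal := galois_ext hFX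
  rw [← AR_eq hFX hFE hEX θ R]
  let _ := algFE hFE
  exact fg_AR hfg hR (subG hFX E) (embE hFX hFE hEX) (fun x => range_embE hFX hFE hEX x)

end

section

/-- The sum over the points above. -/
theorem finsum_fiber {R A S : Type} [CommRing R] [CommRing A] [CommRing S] (i : R →+* A)
    [Finite (R →+* S)] [Finite (A →+* S)] [Fintype (R →+* S)] (α : (R →+* S) → ℤ) :
    (∑ᶠ z : A →+* S, α (z.comp i)) =
      ∑ y : R →+* S, (Nat.card {z : A →+* S // z.comp i = y} : ℤ) * α y := by
  classical
  have := Fintype.ofFinite (A →+* S)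
  rw [finsum_eq_sum_of_fintype,
    ← Finset.sum_fiberwise_of_maps_to (t := Finset.univ) (g := fun z : A →+* S => z.comp i)
      (fun _ _ => Finset.mem_univ _)]
  refine Finset.sum_congr rfl fun y _ => ?_
  rw [Nat.card_eq_fintype_card, Fintype.card_subtype, ← nsmul_eq_mul, ← Finset.sum_const]
  refine Finset.sum_congr rfl fun z hz => ?_
  rw [Finset.mem_filter] at hz
  rw [hz.2]

end

end Pool.Agent.MP_3d3918
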