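import Pool.Agent.Lib.MP_3d3918_nt.Inert.Defs2

/-!
# The formula for the inert points, in terms of ranks
-/

set_option autoImplicit false

open Filter Topology Polynomial

namespace Pool.Agent.MP_3d3918

section

variable {K : Type} [Field K] [CharZero K]

/-- The formula for the inert points, with the ranks over the intermediate fields. -/
def InertRk (R₁ : Subring K) (a : (p : ℕ) → (R₁ →+* ZMod p) → ℤ)
    (b : IntermediateField K (AlgebraicClosure K) → ℕ → ℂ)
    (A : Type) [AddCommGroup A] [DistribMulAction Gal(AlgebraicClosure K/K) A]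
    (U : Set ℂ) (C : Set ℂ) (N : IntermediateField K (AlgebraicClosure K)) [Normal K N]
    (σ : Gal(AlgebraicClosure K/K)) : Prop :=
  ∃ θ : AlgebraicClosure K,
    (IntermediateField.adjoin (fixIn N σ) {θ}).restrictScalars K = N ∧
    ∃ R₀ : Subring (fixIn N σ), FG R₀ ∧ ∀ R : Subring (fixIn N σ), FG R → R₀ ≤ R →
      ∃ (h : ∀ x ∈ R₁, algebraMap K (fixIn N σ) x ∈ R) (r : ℕ → ℕ) (e : ℂ),
        (∀ d ∈ (ordIn N σ).divisors, Module.rank ℤ (inv A (fixIn N (σ ^ d))) = r d) ∧ e ∈ C ∧
        Good U (iterm R₁ a (algebraMap K (fixIn N σ)) (minpoly (fixIn N σ) θ)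
          (fun p => ∑ d ∈ (ordIn N σ).divisors,
            (ArithmeticFunction.moebius d : ℂ) / d * b (fixIn N (σ ^ d)) p) R h)
          (∑ d ∈ (ordIn N σ).divisors, (ArithmeticFunction.moebius d : ℂ) / d * r d -
            (ordIn N σ).totient / (ordIn N σ) * e)

end

end Pool.Agent.MP_3d3918
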