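import Pool.Agent.Lib.MP_3d3918_nt.Tower
import Pool.Agent.Lib.MP_3d3918_nt.Inert.RkDefs

/-!
# A finite partition of the Galois group into divisions of different levels
-/

set_option autoImplicit false

open Filter Topology

namespace Pool.Agent.MP_3d3918

section

variable {K : Type} [Field K]

theorem mem_fixIn (N : IntermediateField K (AlgebraicClosure K)) (σ : Gal(AlgebraicClosure K/K))
    (x : AlgebraicClosure K) : x ∈ fixIn N σ ↔ x ∈ N ∧ σ x = x := by
  unfold fixIn
  rw [IntermediateField.mem_inf]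
  refine and_congr_right fun _ => ?_
  rw [IntermediateField.mem_fixedField_iff]
  constructor
  · intro h
    exact h σ (Subgroup.mem_zpowers σ)
  · rintro h ρ hρ
    have h4 : σ ∈ MulAction.stabilizer Gal(AlgebraicClosure K/K) x := h
    exact (Subgroup.zpowers_le.2 h4) hρ

theorem fixIn_le (N : IntermediateField K (AlgebraicClosure K)) (σ : Gal(AlgebraicClosure K/K)) :
    fixIn N σ ≤ N := inf_le_left

theorem fixIn_mono {N N' : IntermediateField K (AlgebraicClosure K)} (h : N ≤ N')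
    {σ τ : Gal(AlgebraicClosure K/K)} (hst : fixIn N' σ = fixIn N' τ) :
    fixIn N σ = fixIn N τ := by
  ext x
  rw [mem_fixIn, mem_fixIn]
  refine and_congr_right fun hx => ?_
  have h1 : x ∈ fixIn N' σ ↔ x ∈ fixIn N' τ := by rw [hst]
  rw [mem_fixIn, mem_fixIn] at h1
  exact ⟨fun h2 => (h1.1 ⟨h hx, h2⟩).2, fun h2 => (h1.2 ⟨h hx, h2⟩).2⟩

theorem normal_mem (N : IntermediateField K (AlgebraicClosure K)) [Normal K N]
    (σ : Gal(AlgebraicClosure K/K)) {x : AlgebraicClosure K} (hx : x ∈ N) : σ x ∈ N := by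
  have h := AlgEquiv.restrictNormalHom_apply N σ ⟨x, hx⟩
  rw [← h]
  exact SetLike.coe_mem _

theorem mem_fixIn_conj (N : IntermediateField K (AlgebraicClosure K)) [Normal K N]
    (σ c : Gal(AlgebraicClosure K/K)) (x : AlgebraicClosure K) :
    x ∈ fixIn N (c⁻¹ * σ * c) ↔ c x ∈ fixIn N σ := by
  rw [mem_fixIn, mem_fixIn]
  have h1 : (c⁻¹ * σ * c) x = x ↔ σ (c x) = c x := by
    constructor
    · intro h
      have h2 : c ((c⁻¹ * σ * c) x) = c x := congrArg c h
      have h3 : c ((c⁻¹ * σ * c) x) = σ (c x) := by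
        change c (c⁻¹ (σ (c x))) = σ (c x)
        exact c.apply_symm_apply _
      rw [← h3, h2]
    · intro h
      change c⁻¹ (σ (c x)) = x
      rw [h]
      exact c.symm_apply_apply _
  rw [h1]
  refine and_congr_left fun _ => ⟨fun h => normal_mem N c h, fun h => ?_⟩
  have h2 := normal_mem N c⁻¹ h
  have h3 : c⁻¹ (c x) = x := c.symm_apply_apply _
  rwa [h3] at h2

theorem fixIn_conj (N : IntermediateField K (AlgebraicClosure K)) [Normal K N]
    {σ τ : Gal(AlgebraicClosure K/K)} (h : fixIn N σ = fixIn N τ)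
    (c : Gal(AlgebraicClosure K/K)) : fixIn N (c⁻¹ * σ * c) = fixIn N (c⁻¹ * τ * c) := by
  ext x
  rw [mem_fixIn_conj, mem_fixIn_conj, h]

/-- `g` is in the division of `s`, at the level of `N`, for conjugation by elements which fix
`L`. -/
def Cov (L N : IntermediateField K (AlgebraicClosure K)) (s g : Gal(AlgebraicClosure K/K)) :
    Prop :=
  ∃ x : Gal(AlgebraicClosure K/K), (∀ z ∈ L, x z = z) ∧ fixIn N (x⁻¹ * g * x) = fixIn N s

/-- Divisions are nested or disjoint. -/
theorem cov_nested (L : IntermediateField K (AlgebraicClosure K))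
    {N N' : IntermediateField K (AlgebraicClosure K)} [Normal K N] (h : N ≤ N')
    {s s' g k : Gal(AlgebraicClosure K/K)} (hg : Cov L N s g) (hg' : Cov L N' s' g)
    (hk : Cov L N' s' k) : Cov L N s k := by
  obtain ⟨x, hx, hxg⟩ := hg
  obtain ⟨x', hx', hxg'⟩ := hg'
  obtain ⟨y, hy, hyk⟩ := hk
  have h1 : fixIn N (x'⁻¹ * g * x') = fixIn N (y⁻¹ * k * y) :=
    (fixIn_mono h hxg').trans (fixIn_mono h hyk).symm
  have h2 := fixIn_conj N h1 (x'⁻¹ * x)
  have h3 : (x'⁻¹ * x)⁻¹ * (x'⁻¹ * g * x') * (x'⁻¹ * x) = x⁻¹ * g * x := by group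
  have h4 : (x'⁻¹ * x)⁻¹ * (y⁻¹ * k * y) * (x'⁻¹ * x) =
      (y * (x'⁻¹ * x))⁻¹ * k * (y * (x'⁻¹ * x)) := by group
  rw [h3, h4] at h2
  have hinv : ∀ z ∈ L, x'⁻¹ z = z := by
    intro z hz
    have h5 := hx' z hz
    calc x'⁻¹ z = x'⁻¹ (x' z) := by rw [h5]
      _ = z := x'.symm_apply_apply _
  refine ⟨y * (x'⁻¹ * x), fun z hz => ?_, ?_⟩
  · change y (x'⁻¹ (x z)) = z
    rw [hx z hz, hinv z hz, hy z hz]
  · rw [← h2, hxg]

end

section

variable {K : Type} [Field K] [CharZero K]

/-- A finite partition. -/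
theorem exists_cover (L : IntermediateField K (AlgebraicClosure K))
    (N : ℕ → IntermediateField K (AlgebraicClosure K)) (hmono : Monotone N)
    (hfin : ∀ i, FiniteDimensional K (N i)) (hnor : ∀ i, Normal K (N i))
    (lev : Gal(AlgebraicClosure K/K) → ℕ) :
    ∃ T : Finset Gal(AlgebraicClosure K/K), (∀ s ∈ T, ∀ x ∈ L, s x = x) ∧
      ∀ g : Gal(AlgebraicClosure K/K), (∀ x ∈ L, g x = x) → ∃ s ∈ T, Cov L (N (lev s)) s g ∧
        ∀ s' ∈ T, Cov L (N (lev s')) s' g → s' = s := by
  classical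
  have hself : ∀ s : Gal(AlgebraicClosure K/K), Cov L (N (lev s)) s s := fun s =>
    ⟨1, fun z _ => rfl, by simp⟩
  obtain ⟨T₀, hT₀, hcov₀⟩ : ∃ T : Finset Gal(AlgebraicClosure K/K), (∀ s ∈ T, ∀ x ∈ L, s x = x) ∧
      ∀ g : Gal(AlgebraicClosure K/K), (∀ x ∈ L, g x = x) → ∃ s ∈ T, Cov L (N (lev s)) s g := by
    have hcl : IsClosed (L.fixingSubgroup : Set Gal(AlgebraicClosure K/K)) :=
      InfiniteGalois.fixingSubgroup_isClosed L
    have hcomp : IsCompact (L.fixingSubgroup : Set Gal(AlgebraicClosure K/K)) := hcl.isCompact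
    obtain ⟨T, hT, hTc⟩ := hcomp.elim_nhds_subcover
      (fun s => {g : Gal(AlgebraicClosure K/K) | ∀ x ∈ N (lev s), g x = s x}) (by
        intro s _
        have hop : IsOpen ((N (lev s)).fixingSubgroup : Set Gal(AlgebraicClosure K/K)) := by
          have := hfin (lev s)
          exact IntermediateField.fixingSubgroup_isOpen _
        have hop2 : IsOpen {g : Gal(AlgebraicClosure K/K) | ∀ x ∈ N (lev s), g x = s x} := by
          have h1 : {g : Gal(AlgebraicClosure K/K) | ∀ x ∈ N (lev s), g x = s x} =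
              (fun g => s⁻¹ * g) ⁻¹' ((N (lev s)).fixingSubgroup :
                Set Gal(AlgebraicClosure K/K)) := by
            ext g
            change (∀ x ∈ N (lev s), g x = s x) ↔ s⁻¹ * g ∈ (N (lev s)).fixingSubgroup
            rw [IntermediateField.mem_fixingSubgroup_iff]
            refine forall₂_congr fun x _ => ?_
            constructor
            · intro h
              change s⁻¹ (g x) = x
              rw [h]
              exact s.symm_apply_apply _
            · intro h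
              have h2 : s (s⁻¹ (g x)) = s x := congrArg s h
              rw [← h2]
              exact (s.apply_symm_apply _).symm
          rw [h1]
          exact hop.preimage (continuous_const_mul _)
        exact hop2.mem_nhds (fun x _ => rfl))
    refine ⟨T, fun s hs => (IntermediateField.mem_fixingSubgroup_iff _ _).1 (hT s hs), ?_⟩
    intro g hg
    have h1 := hTc ((IntermediateField.mem_fixingSubgroup_iff _ _).2 hg)
    rw [Set.mem_iUnion₂] at h1
    obtain ⟨s, hs, hgs⟩ := h1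
    refine ⟨s, hs, 1, fun z _ => rfl, ?_⟩
    have h2 : (1 : Gal(AlgebraicClosure K/K))⁻¹ * g * 1 = g := by group
    rw [h2]
    ext x
    rw [mem_fixIn, mem_fixIn]
    refine and_congr_right fun hx => ?_
    rw [hgs x hx]
  -- a cover with the least number of elements
  have hex : ∃ n : ℕ, ∃ T : Finset Gal(AlgebraicClosure K/K), T.card = n ∧
      (∀ s ∈ T, ∀ x ∈ L, s x = x) ∧ ∀ g : Gal(AlgebraicClosure K/K), (∀ x ∈ L, g x = x) →
        ∃ s ∈ T, Cov L (N (lev s)) s g := ⟨_, T₀, rfl, hT₀, hcov₀⟩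
  obtain ⟨T, hTn, hT, hcov⟩ := Nat.find_spec hex
  refine ⟨T, hT, fun g hg => ?_⟩
  obtain ⟨s, hs, hsg⟩ := hcov g hg
  refine ⟨s, hs, hsg, fun s' hs' hs'g => ?_⟩
  by_contra hne
  -- one of two intersecting divisions may be removed
  have key : ∀ s₁ ∈ T, ∀ s₂ ∈ T, s₂ ≠ s₁ → lev s₁ ≤ lev s₂ → Cov L (N (lev s₁)) s₁ g →
      Cov L (N (lev s₂)) s₂ g → False := by
    intro s₁ hs₁ s₂ hs₂ hne hle h1 h2
    have hmin := Nat.find_min' hex (m := (T.erase s₂).card) ⟨T.erase s₂, rfl,
      fun s hs => hT s (Finset.mem_of_mem_erase hs), fun k hk => by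
        obtain ⟨s, hs, hsk⟩ := hcov k hk
        by_cases h3 : s = s₂
        · subst h3
          have := hnor (lev s₁)
          exact ⟨s₁, Finset.mem_erase.2 ⟨fun h => hne h.symm, hs₁⟩,
            cov_nested L (hmono hle) h1 h2 hsk⟩
        · exact ⟨s, Finset.mem_erase.2 ⟨h3, hs⟩, hsk⟩⟩
    rw [← hTn] at hmin
    have h4 := Finset.card_erase_lt_of_mem hs₂
    omega
  rcases le_total (lev s) (lev s') with h | h
  · exact key s hs s' hs' hne h hsg hs'g
  · exact key s' hs' s hs (fun h => hne h.symm) h hs'g hsg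

end

end Pool.Agent.MP_3d3918
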