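import Pool.Agent.Lib.MP_3d3918_nt.Inert.Part

/-!
# The weights and the relations
-/

set_option autoImplicit false

open Polynomial

namespace Pool.Agent.MP_3d3918

section

/-- Convex combinations of errors. -/
theorem Good.convex {ι : Type} {U C : Set ℂ} (hC : Convex ℝ C) (T : Finset ι) (α w : ι → ℝ)
    (hα : ∀ i ∈ T, 0 ≤ α i) (hw : ∀ i ∈ T, 0 ≤ w i) (h1 : ∑ i ∈ T, α i * w i = 1)
    (t : ι → ℂ → Nat.Primes → ℂ) (ρ e : ι → ℂ) (he : ∀ i ∈ T, e i ∈ C)
    (h : ∀ i ∈ T, Good U (t i) (ρ i - (w i : ℂ) * e i)) :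
    ∃ e' ∈ C, Good U (fun s p => ∑ i ∈ T, (α i : ℂ) * t i s p)
      (∑ i ∈ T, (α i : ℂ) * ρ i - e') := by
  refine ⟨∑ i ∈ T, (α i * w i) • e i,
    hC.sum_mem (fun i hi => mul_nonneg (hα i hi) (hw i hi)) h1 he, ?_⟩
  have h2 := Good.combine T (fun i => (α i : ℂ)) t _ h
  have h3 : ∑ i ∈ T, (α i : ℂ) * (ρ i - (w i : ℂ) * e i) =
      ∑ i ∈ T, (α i : ℂ) * ρ i - ∑ i ∈ T, (α i * w i) • e i := by
    rw [← Finset.sum_sub_distrib]
    refine Finset.sum_congr rfl fun i _ => ?_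
    rw [Complex.real_smul, Complex.ofReal_mul]
    ring
  rw [h3] at h2
  exact h2

/-- Regrouping. -/
theorem regroup {ι : Type} (T : Finset ι) (m : ι → ℕ) (α : ι → ℝ) (c : ℂ) (hc : c ≠ 0)
    (n : ((_ : ι) × ℕ) → ℤ)
    (hn : ∀ s ∈ T, ∀ d ∈ (m s).divisors, (n ⟨s, d⟩ : ℂ) =
      c * ((α s : ℂ) * ((ArithmeticFunction.moebius d : ℂ) / d))) (f : ι → ℕ → ℂ) :
    ∑ s ∈ T, (α s : ℂ) * ∑ d ∈ (m s).divisors, (ArithmeticFunction.moebius d : ℂ) / d * f s d =
      c⁻¹ * ∑ i ∈ T.sigma (fun s => (m s).divisors), (n i : ℂ) * f i.1 i.2 := by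
  rw [Finset.sum_sigma, Finset.mul_sum]
  refine Finset.sum_congr rfl fun s hs => ?_
  rw [Finset.mul_sum, Finset.mul_sum]
  refine Finset.sum_congr rfl fun d hd => ?_
  rw [hn s hs d hd]
  field_simp

end

section

variable {K : Type} [Field K] [CharZero K]

/-- The relation between the permutation characters. -/
def RelG {L X : IntermediateField K (AlgebraicClosure K)} (hLX : L ≤ X)
    (T : Finset Gal(AlgebraicClosure K/K)) (m : Gal(AlgebraicClosure K/K) → ℕ)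
    (E : Gal(AlgebraicClosure K/K) → ℕ → IntermediateField K (AlgebraicClosure K))
    (α : Gal(AlgebraicClosure K/K) → ℝ) : Prop :=
  ∀ g : Gal((ext hLX)/L), ∑ s ∈ T, (α s : ℂ) * ∑ d ∈ (m s).divisors,
    (ArithmeticFunction.moebius d : ℂ) / d *
      (Nat.card {x : Gal((ext hLX)/L) ⧸ subG hLX (E s d) // g • x = x} : ℂ) = 1

/-- The relation for additive functions. -/
def RelB (L : IntermediateField K (AlgebraicClosure K))
    (T : Finset Gal(AlgebraicClosure K/K)) (m : Gal(AlgebraicClosure K/K) → ℕ)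
    (E : Gal(AlgebraicClosure K/K) → ℕ → IntermediateField K (AlgebraicClosure K))
    (α : Gal(AlgebraicClosure K/K) → ℝ) : Prop :=
  ∀ b : IntermediateField K (AlgebraicClosure K) → ℕ → ℂ, Additive b → ∀ p : ℕ,
    ∑ s ∈ T, (α s : ℂ) * ∑ d ∈ (m s).divisors,
      (ArithmeticFunction.moebius d : ℂ) / d * b (E s d) p = b L p

/-- The relation for ranks. -/
def RelR (A : Type) [AddCommGroup A] [DistribMulAction Gal(AlgebraicClosure K/K) A]
    (L : IntermediateField K (AlgebraicClosure K))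
    (T : Finset Gal(AlgebraicClosure K/K)) (m : Gal(AlgebraicClosure K/K) → ℕ)
    (E : Gal(AlgebraicClosure K/K) → ℕ → IntermediateField K (AlgebraicClosure K))
    (α : Gal(AlgebraicClosure K/K) → ℝ) : Prop :=
  ∀ r : Gal(AlgebraicClosure K/K) → ℕ → ℕ, (∀ s ∈ T, ∀ d ∈ (m s).divisors,
    Module.rank ℤ (inv A (E s d)) = r s d) → ∃ r₁ : ℕ, Module.rank ℤ (inv A L) = r₁ ∧
      ∑ s ∈ T, (α s : ℂ) * ∑ d ∈ (m s).divisors,
        (ArithmeticFunction.moebius d : ℂ) / d * (r s d : ℂ) = r₁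

theorem exists_data (L : IntermediateField K (AlgebraicClosure K))
    (N : ℕ → IntermediateField K (AlgebraicClosure K)) (hmono : Monotone N)
    [∀ i, FiniteDimensional K (N i)] [∀ i, IsGalois K (N i)]
    (lev : Gal(AlgebraicClosure K/K) → ℕ)
    (hlev : ∀ s : Gal(AlgebraicClosure K/K), (∀ x ∈ L, s x = x) → L ≤ N (lev s)) :
    ∃ (T : Finset Gal(AlgebraicClosure K/K)) (X : IntermediateField K (AlgebraicClosure K))
      (hLX : L ≤ X) (α : Gal(AlgebraicClosure K/K) → ℝ),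
      FiniteDimensional K X ∧ IsGalois K X ∧ (∀ s ∈ T, ∀ x ∈ L, s x = x) ∧
      (∀ s ∈ T, N (lev s) ≤ X) ∧ (∀ s ∈ T, 0 ≤ α s) ∧
      ∑ s ∈ T, α s * (((ordIn (N (lev s)) s).totient : ℝ) / (ordIn (N (lev s)) s)) = 1 ∧
      RelG hLX T (fun s => ordIn (N (lev s)) s) (fun s d => fixIn (N (lev s)) (s ^ d)) α ∧
      RelB L T (fun s => ordIn (N (lev s)) s) (fun s d => fixIn (N (lev s)) (s ^ d)) α ∧
      ∀ (A : Type) [AddCommGroup A] [DistribMulAction Gal(AlgebraicClosure K/K) A],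
        RelR A L T (fun s => ordIn (N (lev s)) s) (fun s d => fixIn (N (lev s)) (s ^ d)) α := by
  classical
  obtain ⟨T, hT, hcov⟩ := exists_cover L N hmono (fun i => inferInstance) (fun i => inferInstance)
    lev
  obtain ⟨s₁, hs₁T, -⟩ := hcov 1 (fun x _ => rfl)
  obtain ⟨sm, hsmT, hsm⟩ := Finset.exists_mem_eq_sup T ⟨s₁, hs₁T⟩ lev
  obtain ⟨X, hX⟩ : ∃ X, X = N (T.sup lev) := ⟨_, rfl⟩
  have finX : FiniteDimensional K X := by
    rw [hX]
    infer_instance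
  have galX : IsGalois K X := by
    rw [hX]
    infer_instance
  have hNX : ∀ s ∈ T, N (lev s) ≤ X := fun s hs => by
    rw [hX]
    exact hmono (Finset.le_sup hs)
  have hLX : L ≤ X := (hlev s₁ (hT s₁ hs₁T)).trans (hNX s₁ hs₁T)
  have fin := finite_ext hLX
  have gal := galois_ext hLX
  -- the groups
  let M : Gal(AlgebraicClosure K/K) → Subgroup Gal((ext hLX)/L) := fun s => subG hLX (N (lev s))
  have hM : ∀ s, (M s).Normal := fun s => normal_subG hLX
  let sb : Gal(AlgebraicClosure K/K) → Gal((ext hLX)/L) := fun s =>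
    if h : ∀ x ∈ L, s x = x then resG hLX s h else 1
  have hsb : ∀ s (h : ∀ x ∈ L, s x = x), sb s = resG hLX s h := fun s h => dif_pos h
  have hLE : ∀ s ∈ T, ∀ d : ℕ, L ≤ fixIn (N (lev s)) (s ^ d) := fun s hs d =>
    le_fixIn (hlev s (hT s hs)) (pow_fix (hT s hs) d)
  have hEX : ∀ s ∈ T, ∀ d : ℕ, fixIn (N (lev s)) (s ^ d) ≤ X := fun s hs d =>
    (fixIn_le _ _).trans (hNX s hs)
  have hW : ∀ s ∈ T, ∀ d, WG (M s) (sb s) d = subG hLX (fixIn (N (lev s)) (s ^ d)) := by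
    intro s hs d
    rw [hsb s (hT s hs)]
    exact WG_eq_subG hLX (hNX s hs) s _ d
  have hord : ∀ s ∈ T, orderOf (sb s : Gal((ext hLX)/L) ⧸ M s) = ordIn (N (lev s)) s := by
    intro s hs
    rw [hsb s (hT s hs)]
    exact orderOf_resG hLX (hNX s hs) s _
  have hpart : ∀ g : Gal((ext hLX)/L), ∃ j ∈ T, (∃ x : Gal((ext hLX)/L),
      WG (M j) (x⁻¹ * g * x) 1 = WG (M j) (sb j) 1) ∧
      ∀ i ∈ T, (∃ x : Gal((ext hLX)/L), WG (M i) (x⁻¹ * g * x) 1 = WG (M i) (sb i) 1) → i = j := by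
    intro g
    obtain ⟨s, hs, h1, h2⟩ := hcov (liftG hLX g) (liftG_fix hLX g)
    have key : ∀ s ∈ T, Cov L (N (lev s)) s (liftG hLX g) ↔
        ∃ x : Gal((ext hLX)/L), WG (M s) (x⁻¹ * g * x) 1 = WG (M s) (sb s) 1 := by
      intro s hs
      rw [hsb s (hT s hs)]
      exact cov_iff hLX (hlev s (hT s hs)) (hNX s hs) s (hT s hs) g
    exact ⟨s, hs, (key s hs).1 h1, fun i hi h3 => h2 i hi ((key i hi).2 h3)⟩
  -- the indices
  let I : Finset ((_ : Gal(AlgebraicClosure K/K)) × ℕ) :=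
    T.sigma (fun s => (ordIn (N (lev s)) s).divisors)
  let W : ((_ : Gal(AlgebraicClosure K/K)) × ℕ) → Subgroup Gal((ext hLX)/L) := fun i =>
    WG (M i.1) (sb i.1) i.2
  let n : ((_ : Gal(AlgebraicClosure K/K)) × ℕ) → ℤ := fun i =>
    ((Subgroup.normalizer (WG (M i.1) (sb i.1) 1 : Set Gal((ext hLX)/L))).index : ℤ) *
      (Nat.card (W i) : ℤ) * (ArithmeticFunction.moebius i.2 : ℤ)
  have hrelI : ∀ g : Gal((ext hLX)/L), ∑ i ∈ I, n i *
      (Nat.card {x : Gal((ext hLX)/L) ⧸ W i // g • x = x} : ℤ) = Nat.card Gal((ext hLX)/L) := by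
    intro g
    rw [← relation T M hM sb g (hpart g), Finset.sum_sigma]
    refine Finset.sum_congr rfl fun s hs => ?_
    rw [hord s hs]
  have hwtI : ∑ i ∈ I, n i = Nat.card Gal((ext hLX)/L) := by
    rw [← weights T M hM sb hpart, Finset.sum_sigma]
    refine Finset.sum_congr rfl fun s hs => ?_
    rw [hord s hs]
  let T' : Finset (Subgroup Gal((ext hLX)/L)) := I.image W
  let n' : Subgroup Gal((ext hLX)/L) → ℤ := fun H => ∑ i ∈ I.filter (fun i => W i = H), n i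
  have hgrp : ∀ {S : Type} [CommRing S] (f : Subgroup Gal((ext hLX)/L) → S),
      ∑ H ∈ T', (n' H : S) * f H = ∑ i ∈ I, (n i : S) * f (W i) := fun f => group_sum I W n f
  have hrel' : ∀ g : Gal((ext hLX)/L), ∑ H ∈ T', n' H *
      (Nat.card {x : Gal((ext hLX)/L) ⧸ H // g • x = x} : ℤ) = Nat.card Gal((ext hLX)/L) := by
    intro g
    have h1 := hgrp (S := ℤ) (fun H => (Nat.card {x : Gal((ext hLX)/L) ⧸ H // g • x = x} : ℤ))
    simp only [Int.cast_id] at h1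
    rw [h1]
    exact hrelI g
  -- the weights
  have hG : (Nat.card Gal((ext hLX)/L) : ℂ) ≠ 0 := by
    exact_mod_cast Nat.card_pos.ne'
  let α : Gal(AlgebraicClosure K/K) → ℝ := fun s =>
    ((Subgroup.normalizer (WG (M s) (sb s) 1 : Set Gal((ext hLX)/L))).index : ℝ) *
      (Nat.card (WG (M s) (sb s) 1) : ℝ) / (Nat.card Gal((ext hLX)/L) : ℝ)
  have hα : ∀ s, 0 ≤ α s := fun s => by positivity
  have hn : ∀ s ∈ T, ∀ d ∈ (ordIn (N (lev s)) s).divisors, (n ⟨s, d⟩ : ℂ) =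
      (Nat.card Gal((ext hLX)/L) : ℂ) * ((α s : ℂ) * ((ArithmeticFunction.moebius d : ℂ) / d)) := by
    intro s hs d hd
    have hd' : d ∈ (orderOf (sb s : Gal((ext hLX)/L) ⧸ M s)).divisors := by
      rw [hord s hs]
      exact hd
    have h1 := card_WG_mul (M s) (sb s) d hd'
    have h2 : (d : ℂ) ≠ 0 := by exact_mod_cast (Nat.pos_of_mem_divisors hd).ne'
    have h3 : (Nat.card (WG (M s) (sb s) 1) : ℂ) = (Nat.card (WG (M s) (sb s) d) : ℂ) * d := by
      exact_mod_cast h1.symm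
    change ((((Subgroup.normalizer (WG (M s) (sb s) 1 : Set Gal((ext hLX)/L))).index : ℤ) *
      (Nat.card (WG (M s) (sb s) d) : ℤ) * (ArithmeticFunction.moebius d : ℤ) : ℤ) : ℂ) =
      (Nat.card Gal((ext hLX)/L) : ℂ) * (((((Subgroup.normalizer (WG (M s) (sb s) 1 :
        Set Gal((ext hLX)/L))).index : ℝ) * (Nat.card (WG (M s) (sb s) 1) : ℝ) /
          (Nat.card Gal((ext hLX)/L) : ℝ) : ℝ) : ℂ) * ((ArithmeticFunction.moebius d : ℂ) / d))
    push_cast
    rw [h3]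
    field_simp
  have hre := regroup T (fun s => ordIn (N (lev s)) s) α _ hG n hn
  have hfield : ∀ i ∈ I, fieldOf hLX (W i) = fixIn (N (lev i.1)) (i.1 ^ i.2) := by
    intro i hi
    have hi' := (Finset.mem_sigma.1 hi).1
    change fieldOf hLX (WG (M i.1) (sb i.1) i.2) = _
    rw [hW i.1 hi' i.2]
    exact fieldOf_subG hLX (hLE i.1 hi' i.2) (hEX i.1 hi' i.2)
  refine ⟨T, X, hLX, α, finX, galX, hT, hNX, fun s _ => hα s, ?_, ?_, ?_, ?_⟩
  · have h1 := hre (fun _ _ => 1)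
    have h2 : ∑ i ∈ I, (n i : ℂ) * 1 = (Nat.card Gal((ext hLX)/L) : ℂ) := by
      simp only [mul_one]
      exact_mod_cast hwtI
    rw [h2, inv_mul_cancel₀ hG] at h1
    have h3 : ∑ s ∈ T, (α s : ℂ) * (((ordIn (N (lev s)) s).totient : ℂ) /
        (ordIn (N (lev s)) s)) = 1 := by
      rw [← h1]
      refine Finset.sum_congr rfl fun s _ => ?_
      simp only [mul_one]
      rw [totient_eq_sum]
      exact (orderOf_pos _).ne'
    apply Complex.ofReal_injective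
    push_cast
    exact h3
  · intro g
    rw [hre]
    have h2 : ∑ i ∈ I, (n i : ℂ) * (Nat.card {x : Gal((ext hLX)/L) ⧸ subG hLX
        (fixIn (N (lev i.1)) (i.1 ^ i.2)) // g • x = x} : ℂ) =
        (Nat.card Gal((ext hLX)/L) : ℂ) := by
      have h3 : ∑ i ∈ I, (n i : ℂ) * (Nat.card {x : Gal((ext hLX)/L) ⧸ subG hLX
          (fixIn (N (lev i.1)) (i.1 ^ i.2)) // g • x = x} : ℂ) =
          ∑ i ∈ I, (n i : ℂ) * (Nat.card {x : Gal((ext hLX)/L) ⧸ W i // g • x = x} : ℂ) := by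
        refine Finset.sum_congr rfl fun i hi => ?_
        rw [← hW i.1 (Finset.mem_sigma.1 hi).1 i.2]
      rw [h3]
      exact_mod_cast hrelI g
    change (Nat.card Gal((ext hLX)/L) : ℂ)⁻¹ * ∑ i ∈ I, (n i : ℂ) * (Nat.card
      {x : Gal((ext hLX)/L) ⧸ subG hLX (fixIn (N (lev i.1)) (i.1 ^ i.2)) // g • x = x} : ℂ) = 1
    rw [h2, inv_mul_cancel₀ hG]
  · intro b hb p
    have h1 := sum_of_additive hb L X hLX T' n' hrel' p
    rw [hgrp (fun H => b (fieldOf hLX H) p)] at h1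
    rw [hre]
    have h2 : ∑ i ∈ I, (n i : ℂ) * b (fixIn (N (lev i.1)) (i.1 ^ i.2)) p =
        (Nat.card Gal((ext hLX)/L) : ℂ) * b L p := by
      rw [← h1]
      refine Finset.sum_congr rfl fun i hi => ?_
      rw [hfield i hi]
    change (Nat.card Gal((ext hLX)/L) : ℂ)⁻¹ *
      ∑ i ∈ I, (n i : ℂ) * b (fixIn (N (lev i.1)) (i.1 ^ i.2)) p = b L p
    rw [h2, inv_mul_cancel_left₀ hG]
  · intro A _ _ r hr
    have hr' : ∀ H ∈ T', Module.rank ℤ (inv A (fieldOf hLX H)) =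
        ((Cardinal.toNat (Module.rank ℤ (inv A (fieldOf hLX H))) : ℕ) : Cardinal) := by
      intro H hH
      obtain ⟨i, hi, rfl⟩ := Finset.mem_image.1 hH
      rw [hfield i hi]
      have hi' := Finset.mem_sigma.1 hi
      rw [hr i.1 hi'.1 i.2 hi'.2, Cardinal.toNat_natCast]
    have hbot : fieldOf hLX (⊥ : Subgroup Gal((ext hLX)/L)) =
        fixIn (N (lev sm)) (sm ^ ordIn (N (lev sm)) sm) := by
      have h3 : N (lev sm) = X := by rw [hX, ← hsm]
      rw [fieldOf_bot, ← h3]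
      ext x
      rw [mem_fixIn]
      refine ⟨fun hx => ⟨hx, ?_⟩, fun hx => hx.1⟩
      rw [← AlgEquiv.restrictNormalHom_apply (N (lev sm)) (sm ^ ordIn (N (lev sm)) sm) ⟨x, hx⟩,
        map_pow]
      unfold ordIn
      rw [pow_orderOf_eq_one]
      rfl
    have hmdiv : ordIn (N (lev sm)) sm ∈ (ordIn (N (lev sm)) sm).divisors :=
      Nat.mem_divisors_self _ (orderOf_pos _).ne'
    obtain ⟨r₁, hr₁, h1⟩ := inv_relation hLX A T' n' hrel' _ hr'
      (r sm (ordIn (N (lev sm)) sm)) (by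
        rw [hbot]
        exact hr sm hsmT _ hmdiv)
    refine ⟨r₁, hr₁, ?_⟩
    have h2 := hgrp (S := ℤ)
      (fun H => ((Cardinal.toNat (Module.rank ℤ (inv A (fieldOf hLX H))) : ℕ) : ℤ))
    simp only [Int.cast_id] at h2
    rw [h2] at h1
    rw [hre]
    have h3 : ∑ i ∈ I, (n i : ℂ) * (r i.1 i.2 : ℂ) = (Nat.card Gal((ext hLX)/L) : ℂ) * r₁ := by
      have h4 : ∑ i ∈ I, n i * (r i.1 i.2 : ℤ) = (Nat.card Gal((ext hLX)/L) : ℤ) * r₁ := by
        rw [← h1]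
        refine Finset.sum_congr rfl fun i hi => ?_
        have hi' := Finset.mem_sigma.1 hi
        rw [hfield i hi, hr i.1 hi'.1 i.2 hi'.2, Cardinal.toNat_natCast]
      exact_mod_cast h4
    change (Nat.card Gal((ext hLX)/L) : ℂ)⁻¹ * ∑ i ∈ I, (n i : ℂ) * (r i.1 i.2 : ℂ) = r₁
    rw [h3, inv_mul_cancel_left₀ hG]

end

end Pool.Agent.MP_3d3918
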