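import Pool.Agent.Lib.MP_3d3918_nt.Defs1

/-!
# MP_3d3918_nt: the formula for the inert points

`N` is a finite Galois extension of `K` inside the algebraic closure and `σ` is an automorphism of
the algebraic closure. The field `F` of the elements of `N` fixed by `σ` has the cyclic extension
`N`, whose group is generated by the restriction of `σ`. A point of `F` with values in a prime field
is inert if it stays a point of degree one only over `F`: the minimal polynomial over `F` of a
generator of `N` remains irreducible.
-/

set_option autoImplicit false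

open Filter Topology Polynomial TensorProduct

namespace Pool.Agent.MP_3d3918

section

variable {K : Type} [Field K]

/-- The field of the elements of `N` which are fixed by `σ`. -/
noncomputable def fixIn (N : IntermediateField K (AlgebraicClosure K)) (σ : Gal(AlgebraicClosure K/K)) :
    IntermediateField K (AlgebraicClosure K) :=
  N ⊓ IntermediateField.fixedField (Subgroup.zpowers σ)

/-- The order of the restriction of `σ` to `N`, that is the degree of `N` over `fixIn N σ`. -/
noncomputable def ordIn (N : IntermediateField K (AlgebraicClosure K)) [Normal K N]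
    (σ : Gal(AlgebraicClosure K/K)) : ℕ :=
  orderOf (AlgEquiv.restrictNormalHom N σ)

/-- The automorphism `σ` on the invariants over `N`. -/
noncomputable def actIn (A : Type) [AddCommGroup A] [DistribMulAction Gal(AlgebraicClosure K/K) A]
    (N : IntermediateField K (AlgebraicClosure K)) [Normal K N] (σ : Gal(AlgebraicClosure K/K)) :
    inv A N →ₗ[ℤ] inv A N :=
  AddMonoidHom.toIntLinearMap
    { toFun := fun a => ⟨σ • a.1, fun ν hν => by
        have h1 : σ⁻¹ * ν * σ ∈ N.fixingSubgroup := by
          rw [IntermediateField.mem_fixingSubgroup_iff] at hν ⊢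
          intro x hx
          have h2 : σ x ∈ N := (IntermediateField.normal_iff_forall_map_le'.1
            (inferInstance : Normal K N)) σ ⟨x, hx, rfl⟩
          change σ⁻¹ (ν (σ x)) = x
          rw [hν _ h2]
          exact σ.symm_apply_apply x
        have h3 := a.2 _ h1
        rw [smul_smul, show ν * σ = σ * (σ⁻¹ * ν * σ) by group, mul_smul, h3]⟩
      map_zero' := Subtype.ext (smul_zero σ)
      map_add' := fun a b => Subtype.ext (smul_add σ a.1 b.1) }

/-- The trace of `σ` on the invariants over `N`, tensored with the rational numbers. -/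
noncomputable def trIn (A : Type) [AddCommGroup A] [DistribMulAction Gal(AlgebraicClosure K/K) A]
    (N : IntermediateField K (AlgebraicClosure K)) [Normal K N] (σ : Gal(AlgebraicClosure K/K)) :
    ℚ :=
  LinearMap.trace ℚ (ℚ ⊗[ℤ] inv A N) ((actIn A N σ).baseChange ℚ)

/-- The reduction modulo `y` of the polynomial `q` is irreducible. -/
def IsInert {L : Type} [Field L] (R : Subring L) (q : Polynomial L) (p : ℕ) (y : R →+* ZMod p) :
    Prop :=
  ∃ P : Polynomial R, P.map R.subtype = q ∧ Irreducible (P.map y)

variable (R₁ : Subring K) (a : (p : ℕ) → (R₁ →+* ZMod p) → ℤ)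

/-- The term at `p` of the series of the sums of `a` over the inert points of `Spec R`, divided by
the `dim`-th power of `p` and corrected by `b`. -/
noncomputable def iterm {L : Type} [Field L] [CharZero L] (φ : K →+* L) (q : Polynomial L)
    (b : ℕ → ℂ) (R : Subring L) (h : ∀ x ∈ R₁, φ x ∈ R) (s : ℂ) (p : Nat.Primes) : ℂ :=
  (((∑ᶠ y : {y : R →+* ZMod p // IsInert R q p y}, a p (restr R₁ φ R h p y.1) : ℤ) : ℂ) /
    ((p : ℕ) : ℂ) ^ (dim L) - b p) * (Real.log (p : ℕ) : ℂ) * ((p : ℕ) : ℂ) ^ (-s)

/-- The correction for the inert points of `N / F`, `F = fixIn N σ`: the sum of `μ(d) / d * b(F_d)`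
over the divisors `d` of the degree, where `F_d = fixIn N (σ ^ d)` is the extension of `F` of degree
`d` in `N`. -/
noncomputable def bIn (b : IntermediateField K (AlgebraicClosure K) → ℕ → ℂ)
    (N : IntermediateField K (AlgebraicClosure K)) [Normal K N] (σ : Gal(AlgebraicClosure K/K))
    (p : ℕ) : ℂ :=
  ∑ d ∈ (ordIn N σ).divisors, (ArithmeticFunction.moebius d : ℂ) / d * b (fixIn N (σ ^ d)) p

end

section

variable {K : Type} [Field K] [CharZero K]

/-- The formula over the intermediate field `L` with an error in `C`: for all large `R` the series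
has a meromorphic continuation to `U`, and its residue at `1` plus the rank is in `C`. -/
def FormulaIn (R₁ : Subring K) (a : (p : ℕ) → (R₁ →+* ZMod p) → ℤ)
    (b : IntermediateField K (AlgebraicClosure K) → ℕ → ℂ)
    (A : Type) [AddCommGroup A] [DistribMulAction Gal(AlgebraicClosure K/K) A]
    (U : Set ℂ) (C : Set ℂ) (L : IntermediateField K (AlgebraicClosure K)) : Prop :=
  ∃ R₀ : Subring L, FG R₀ ∧ ∀ R : Subring L, FG R → R₀ ≤ R →
    ∃ (h : ∀ x ∈ R₁, algebraMap K L x ∈ R) (r : ℕ) (e : ℂ),
      Module.rank ℤ (inv A L) = r ∧ e ∈ C ∧ Good U (gterm R₁ a (algebraMap K L) (b L) R h) (r - e)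

/-- The formula for the inert points of the cyclic extension `N / F`, `F = fixIn N σ`, with an error
in `C`: the rank of the invariants over `N` is finite and, for all large subrings `R` of `F`, the
series of the sums of `a` over the inert points of `Spec R` has a meromorphic continuation to `U`,
and its residue at `1` is `-φ(m) / m * (tr(σ) - e)` with `e` in `C`. Here `m` is the degree of
`N / F`, and `φ(m) / m` is the proportion of the inert points. -/
def InertIn (R₁ : Subring K) (a : (p : ℕ) → (R₁ →+* ZMod p) → ℤ)
    (b : IntermediateField K (AlgebraicClosure K) → ℕ → ℂ)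
    (A : Type) [AddCommGroup A] [DistribMulAction Gal(AlgebraicClosure K/K) A]
    (U : Set ℂ) (C : Set ℂ) (N : IntermediateField K (AlgebraicClosure K)) [Normal K N]
    (σ : Gal(AlgebraicClosure K/K)) : Prop :=
  Module.rank ℤ (inv A N) < Cardinal.aleph0 ∧
  ∃ θ : AlgebraicClosure K,
    (IntermediateField.adjoin (fixIn N σ) {θ}).restrictScalars K = N ∧
    ∃ R₀ : Subring (fixIn N σ), FG R₀ ∧ ∀ R : Subring (fixIn N σ), FG R → R₀ ≤ R →
      ∃ (h : ∀ x ∈ R₁, algebraMap K (fixIn N σ) x ∈ R) (e : ℂ), e ∈ C ∧
        Good U (iterm R₁ a (algebraMap K (fixIn N σ)) (minpoly (fixIn N σ) θ) (bIn b N σ) R h)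
          ((ordIn N σ).totient / (ordIn N σ) * (trIn A N σ - e))

end

end Pool.Agent.MP_3d3918
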