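import Pool.Agent.Lib.MP_0d9be2_nt.H39.Artin

/-!
# The divisions of a finite group and the permutation characters
-/

set_option autoImplicit false

open Subgroup ArithmeticFunction

namespace Pool.Agent.MP_3d3918

section cyclic

variable {Q : Type} [Group Q] [Finite Q]

theorem sum_moebius_divisors (n : ℕ) :
    ∑ d ∈ n.divisors, (moebius d : ℤ) = if n = 1 then 1 else 0 := by
  have h1 : (moebius * (zeta : ArithmeticFunction ℤ)) n = (1 : ArithmeticFunction ℤ) n := by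
    rw [moebius_mul_coe_zeta]
  rw [ArithmeticFunction.mul_apply, ArithmeticFunction.one_apply,
    Nat.sum_divisorsAntidiagonal (fun i j => (moebius i : ℤ) * (zeta : ArithmeticFunction ℤ) j)]
    at h1
  rw [← h1]
  refine Finset.sum_congr rfl fun d hd => ?_
  have h2 : n / d ≠ 0 := by
    have := Nat.div_pos (Nat.divisor_le hd) (Nat.pos_of_mem_divisors hd)
    omega
  simp [h2]

omit [Finite Q] in
theorem mem_zpowers_pow_iff (s : Q) (k d : ℕ) (hd : d ∣ orderOf s) :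
    s ^ k ∈ zpowers (s ^ d) ↔ d ∣ k := by
  constructor
  · intro h
    obtain ⟨j, hj⟩ := mem_zpowers_iff.1 h
    rw [← zpow_natCast s d, ← zpow_mul, ← zpow_natCast s k, zpow_eq_zpow_iff_modEq] at hj
    have h1 : (d : ℤ) ∣ (orderOf s : ℤ) := Int.natCast_dvd_natCast.2 hd
    have h2 := (hj.of_dvd h1).dvd
    have h3 : (d : ℤ) ∣ (d : ℤ) * j := dvd_mul_right _ _
    have h4 : (d : ℤ) ∣ (k : ℤ) := by
      have := dvd_add h2 h3
      simpa using this
    exact Int.natCast_dvd_natCast.1 h4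
  · rintro ⟨j, rfl⟩
    rw [pow_mul]
    exact Subgroup.pow_mem _ (mem_zpowers _) j

theorem zpowers_pow_eq_iff (s : Q) (k : ℕ) :
    zpowers (s ^ k) = zpowers s ↔ Nat.gcd (orderOf s) k = 1 := by
  have hpos : 0 < orderOf s := orderOf_pos s
  have h1 : orderOf (s ^ k) = orderOf s / Nat.gcd (orderOf s) k := orderOf_pow s
  have hle : zpowers (s ^ k) ≤ zpowers s := by
    rw [zpowers_le]
    exact Subgroup.pow_mem _ (mem_zpowers _) k
  constructor
  · intro h
    have h2 : orderOf (s ^ k) = orderOf s := by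
      rw [← Nat.card_zpowers, h, Nat.card_zpowers]
    rw [h1] at h2
    have h3 : Nat.gcd (orderOf s) k ∣ orderOf s := Nat.gcd_dvd_left _ _
    have h4 := Nat.div_mul_cancel h3
    rw [h2] at h4
    have h5 : orderOf s * Nat.gcd (orderOf s) k = orderOf s * 1 := by rw [h4, mul_one]
    exact Nat.eq_of_mul_eq_mul_left hpos h5
  · intro h
    refine Subgroup.eq_of_le_of_card_ge hle ?_
    rw [Nat.card_zpowers, Nat.card_zpowers, h1, h, Nat.div_one]

theorem moebius_zpowers (s h : Q) [Decidable (zpowers h = zpowers s)]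
    [∀ d, Decidable (h ∈ zpowers (s ^ d))] :
    ∑ d ∈ (orderOf s).divisors, (moebius d : ℤ) * (if h ∈ zpowers (s ^ d) then 1 else 0) =
      if zpowers h = zpowers s then 1 else 0 := by
  classical
  have hpos : 0 < orderOf s := orderOf_pos s
  by_cases hh : h ∈ zpowers s
  · obtain ⟨k, rfl⟩ : ∃ k : ℕ, s ^ k = h := by
      obtain ⟨k, -, hk⟩ := (mem_zpowers_iff_mem_range_orderOf.1 hh |> fun h => by
        simpa using h : ∃ k, k < orderOf s ∧ s ^ k = h)
      exact ⟨k, hk⟩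
    have h1 : ∀ d ∈ (orderOf s).divisors,
        (moebius d : ℤ) * (if s ^ k ∈ zpowers (s ^ d) then 1 else 0) =
          if d ∣ k then (moebius d : ℤ) else 0 := by
      intro d hd
      have h2 := mem_zpowers_pow_iff s k d (Nat.dvd_of_mem_divisors hd)
      by_cases h3 : d ∣ k
      · rw [if_pos (h2.2 h3), if_pos h3, mul_one]
      · rw [if_neg (fun h => h3 (h2.1 h)), if_neg h3, mul_zero]
    rw [Finset.sum_congr rfl h1, ← Finset.sum_filter]
    have h2 : (orderOf s).divisors.filter (fun d => d ∣ k) = (Nat.gcd (orderOf s) k).divisors := by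
      ext d
      rw [Finset.mem_filter, Nat.mem_divisors, Nat.mem_divisors, Nat.dvd_gcd_iff]
      constructor
      · rintro ⟨⟨h1, h2⟩, h3⟩
        exact ⟨⟨h1, h3⟩, (Nat.gcd_pos_of_pos_left _ hpos).ne'⟩
      · rintro ⟨⟨h1, h3⟩, -⟩
        exact ⟨⟨h1, hpos.ne'⟩, h3⟩
    rw [h2, sum_moebius_divisors]
    by_cases h3 : Nat.gcd (orderOf s) k = 1
    · rw [if_pos h3, if_pos ((zpowers_pow_eq_iff s k).2 h3)]
    · rw [if_neg h3, if_neg (fun h => h3 ((zpowers_pow_eq_iff s k).1 h))]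
  · rw [if_neg (fun h1 : zpowers h = zpowers s => hh (h1 ▸ mem_zpowers h))]
    refine Finset.sum_eq_zero fun d _ => ?_
    rw [if_neg (fun h1 => hh ?_), mul_zero]
    exact (zpowers_le.2 (Subgroup.pow_mem _ (mem_zpowers s) d)) h1

omit [Finite Q] in
theorem card_zpowers_pow (s : Q) (d : ℕ) (hd : d ∈ (orderOf s).divisors) :
    Nat.card (zpowers (s ^ d)) * d = orderOf s := by
  have h1 := Nat.dvd_of_mem_divisors hd
  rw [Nat.card_zpowers, orderOf_pow_of_dvd (Nat.pos_of_mem_divisors hd).ne' h1,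
    Nat.div_mul_cancel h1]

end cyclic

section quotient

variable {G : Type} [Group G] [Finite G]

/-- The inverse image of the group generated by the `d`-th power of `s`. -/
def WG (M : Subgroup G) [M.Normal] (s : G) (d : ℕ) : Subgroup G :=
  (zpowers ((s : G ⧸ M) ^ d)).comap (QuotientGroup.mk' M)

omit [Finite G] in
theorem mem_WG (M : Subgroup G) [M.Normal] (s : G) (d : ℕ) (g : G) :
    g ∈ WG M s d ↔ (g : G ⧸ M) ∈ zpowers ((s : G ⧸ M) ^ d) := Iff.rfl

theorem card_WG (M : Subgroup G) [M.Normal] (s : G) (d : ℕ) :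
    Nat.card (WG M s d) = Nat.card M * Nat.card (zpowers ((s : G ⧸ M) ^ d)) := by
  have h1 : (WG M s d).index = (zpowers ((s : G ⧸ M) ^ d)).index :=
    Subgroup.index_comap_of_surjective _ (QuotientGroup.mk'_surjective M)
  have h2 := (WG M s d).card_mul_index
  have h3 := (zpowers ((s : G ⧸ M) ^ d)).card_mul_index
  have h4 := Subgroup.card_eq_card_quotient_mul_card_subgroup M
  have h5 : 0 < (WG M s d).index := Nat.pos_of_ne_zero Subgroup.index_ne_zero_of_finite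
  rw [h1] at h2 h5
  have h6 : Nat.card (WG M s d) * (zpowers ((s : G ⧸ M) ^ d)).index =
      Nat.card M * Nat.card (zpowers ((s : G ⧸ M) ^ d)) *
        (zpowers ((s : G ⧸ M) ^ d)).index := by
    rw [h2, mul_assoc, h3, h4, mul_comm]
  exact Nat.eq_of_mul_eq_mul_right h5 h6

theorem card_WG_mul (M : Subgroup G) [M.Normal] (s : G) (d : ℕ)
    (hd : d ∈ (orderOf (s : G ⧸ M)).divisors) :
    Nat.card (WG M s d) * d = Nat.card (WG M s 1) := by
  rw [card_WG, card_WG, mul_assoc, card_zpowers_pow _ _ hd, pow_one, Nat.card_zpowers]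

/-- The sum over the divisors at a group element. -/
theorem moebius_WG (M : Subgroup G) [M.Normal] (s g : G) [∀ d, Decidable (g ∈ WG M s d)]
    [Decidable (WG M g 1 = WG M s 1)] :
    ∑ d ∈ (orderOf (s : G ⧸ M)).divisors, (moebius d : ℤ) * (if g ∈ WG M s d then 1 else 0) =
      if WG M g 1 = WG M s 1 then 1 else 0 := by
  classical
  have h1 := moebius_zpowers (s : G ⧸ M) (g : G ⧸ M)
  have h2 : WG M g 1 = WG M s 1 ↔ zpowers (g : G ⧸ M) = zpowers (s : G ⧸ M) := by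
    unfold WG
    rw [pow_one, pow_one]
    exact (Subgroup.comap_injective (QuotientGroup.mk'_surjective M)).eq_iff
  have h4 : (∑ d ∈ (orderOf (s : G ⧸ M)).divisors, (moebius d : ℤ) *
      (if g ∈ WG M s d then 1 else 0)) = ∑ d ∈ (orderOf (s : G ⧸ M)).divisors, (moebius d : ℤ) *
        (if (g : G ⧸ M) ∈ zpowers ((s : G ⧸ M) ^ d) then 1 else 0) := by
    refine Finset.sum_congr rfl fun d _ => ?_
    by_cases h5 : g ∈ WG M s d
    · rw [if_pos h5, if_pos ((mem_WG M s d g).1 h5)]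
    · rw [if_neg h5, if_neg (fun h => h5 ((mem_WG M s d g).2 h))]
  rw [h4, h1]
  by_cases h3 : WG M g 1 = WG M s 1
  · rw [if_pos h3, if_pos (h2.1 h3)]
  · rw [if_neg h3, if_neg (fun h => h3 (h2.2 h))]

omit [Finite G] in
theorem conj_WG (M : Subgroup G) [M.Normal] (g x y : G) :
    y ∈ WG M (x⁻¹ * g * x) 1 ↔ x * y * x⁻¹ ∈ WG M g 1 := by
  rw [mem_WG, mem_WG, pow_one, pow_one]
  constructor
  · intro h
    obtain ⟨k, hk⟩ := mem_zpowers_iff.1 h
    refine mem_zpowers_iff.2 ⟨k, ?_⟩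
    rw [QuotientGroup.mk_mul, QuotientGroup.mk_mul, ← hk, QuotientGroup.mk_mul,
      QuotientGroup.mk_mul]
    have h1 : ((x⁻¹ : G) : G ⧸ M) = (x : G ⧸ M)⁻¹ := rfl
    rw [h1]
    have h2 : ((x : G ⧸ M)⁻¹ * (g : G ⧸ M) * (x : G ⧸ M)) ^ k =
        (x : G ⧸ M)⁻¹ * (g : G ⧸ M) ^ k * (x : G ⧸ M) := by
      have h3 := conj_zpow (a := (x : G ⧸ M)⁻¹) (b := (g : G ⧸ M)) (i := k)
      rw [inv_inv] at h3
      exact h3
    rw [h2]
    group
  · intro h
    obtain ⟨k, hk⟩ := mem_zpowers_iff.1 h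
    refine mem_zpowers_iff.2 ⟨k, ?_⟩
    rw [QuotientGroup.mk_mul, QuotientGroup.mk_mul] at hk ⊢
    have h1 : ((x⁻¹ : G) : G ⧸ M) = (x : G ⧸ M)⁻¹ := rfl
    rw [h1] at hk ⊢
    have h2 : ((x : G ⧸ M)⁻¹ * (g : G ⧸ M) * (x : G ⧸ M)) ^ k =
        (x : G ⧸ M)⁻¹ * (g : G ⧸ M) ^ k * (x : G ⧸ M) := by
      have h3 := conj_zpow (a := (x : G ⧸ M)⁻¹) (b := (g : G ⧸ M)) (i := k)
      rw [inv_inv] at h3
      exact h3
    rw [h2, hk]
    group

omit [Finite G] in
theorem gen_iff (M : Subgroup G) [M.Normal] (s g x₀ x : G)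
    (h₀ : WG M (x₀⁻¹ * g * x₀) 1 = WG M s 1) :
    WG M (x⁻¹ * g * x) 1 = WG M s 1 ↔ x₀⁻¹ * x ∈ normalizer (WG M s 1 : Set G) := by
  have h1 : ∀ y, y ∈ WG M s 1 ↔ x₀ * y * x₀⁻¹ ∈ WG M g 1 := by
    intro y
    rw [← h₀]
    exact conj_WG M g x₀ y
  have h2 : ∀ y, x₀ * (x₀⁻¹ * x * y * (x₀⁻¹ * x)⁻¹) * x₀⁻¹ = x * y * x⁻¹ := by
    intro y
    group
  rw [mem_normalizer_iff]
  constructor
  · intro h y
    rw [h1 (x₀⁻¹ * x * y * (x₀⁻¹ * x)⁻¹), h2, ← conj_WG, h]
  · intro h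
    ext y
    rw [conj_WG, ← h2, ← h1]
    exact (h y).symm

omit [Finite G] in
/-- The number of the conjugations which carry `g` to a generator. -/
theorem card_conj (M : Subgroup G) [M.Normal] (s g x₀ : G)
    (h₀ : WG M (x₀⁻¹ * g * x₀) 1 = WG M s 1) :
    Nat.card {x : G // WG M (x⁻¹ * g * x) 1 = WG M s 1} =
      Nat.card (normalizer (WG M s 1 : Set G)) := by
  refine Nat.card_congr ⟨fun x => ⟨x₀⁻¹ * x.1, (gen_iff M s g x₀ x.1 h₀).1 x.2⟩,
    fun y => ⟨x₀ * y.1, (gen_iff M s g x₀ _ h₀).2 (by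
      rw [inv_mul_cancel_left]
      exact y.2)⟩, fun x => ?_, fun y => ?_⟩
  · apply Subtype.ext
    simp
  · apply Subtype.ext
    simp

/-- The sum of the permutation characters. -/
theorem sum_perm (M : Subgroup G) [M.Normal] (s g : G) :
    ∑ d ∈ (orderOf (s : G ⧸ M)).divisors, (moebius d : ℤ) * (Nat.card (WG M s d) : ℤ) *
      (Nat.card {x : G ⧸ WG M s d // g • x = x} : ℤ) =
      Nat.card {x : G // WG M (x⁻¹ * g * x) 1 = WG M s 1} := by
  classical
  have := Fintype.ofFinite G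
  have h1 : ∀ d, (moebius d : ℤ) * (Nat.card (WG M s d) : ℤ) *
      (Nat.card {x : G ⧸ WG M s d // g • x = x} : ℤ) =
      ∑ x : G, (moebius d : ℤ) * (if x⁻¹ * g * x ∈ WG M s d then 1 else 0) := by
    intro d
    rw [mul_assoc, ← Nat.cast_mul, MP_0d9be2.H39.card_mul_fix, Nat.card_eq_fintype_card,
      Fintype.card_subtype, ← Finset.mul_sum, Finset.sum_boole]
  rw [Finset.sum_congr rfl (fun d _ => h1 d), Finset.sum_comm, Nat.card_eq_fintype_card,
    Fintype.card_subtype]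
  simp only [moebius_WG]
  rw [Finset.sum_boole]

/-- The relation between the permutation characters which comes from a partition of the group into
divisions. -/
theorem relation {ι : Type} (T : Finset ι) (M : ι → Subgroup G) (hM : ∀ j, (M j).Normal)
    (s : ι → G) (g : G)
    (h1 : ∃ j ∈ T, (∃ x : G, WG (M j) (x⁻¹ * g * x) 1 = WG (M j) (s j) 1) ∧
      ∀ i ∈ T, (∃ x : G, WG (M i) (x⁻¹ * g * x) 1 = WG (M i) (s i) 1) → i = j) :
    ∑ j ∈ T, ∑ d ∈ (orderOf (s j : G ⧸ M j)).divisors,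
      ((normalizer (WG (M j) (s j) 1 : Set G)).index : ℤ) * (Nat.card (WG (M j) (s j) d) : ℤ) *
        (moebius d : ℤ) * (Nat.card {x : G ⧸ WG (M j) (s j) d // g • x = x} : ℤ) = Nat.card G := by
  classical
  have h2 : ∀ j ∈ T, ∑ d ∈ (orderOf (s j : G ⧸ M j)).divisors,
      ((normalizer (WG (M j) (s j) 1 : Set G)).index : ℤ) * (Nat.card (WG (M j) (s j) d) : ℤ) *
        (moebius d : ℤ) * (Nat.card {x : G ⧸ WG (M j) (s j) d // g • x = x} : ℤ) =
      ((normalizer (WG (M j) (s j) 1 : Set G)).index : ℤ) *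
        Nat.card {x : G // WG (M j) (x⁻¹ * g * x) 1 = WG (M j) (s j) 1} := by
    intro j _
    rw [← sum_perm, Finset.mul_sum]
    refine Finset.sum_congr rfl fun d _ => ?_
    ring
  rw [Finset.sum_congr rfl h2]
  obtain ⟨j, hj, ⟨x₀, hx₀⟩, huniq⟩ := h1
  rw [Finset.sum_eq_single_of_mem j hj]
  · rw [card_conj (M j) (s j) g x₀ hx₀, ← Nat.cast_mul, mul_comm, Subgroup.card_mul_index]
  · intro i hi hne
    have h3 : IsEmpty {x : G // WG (M i) (x⁻¹ * g * x) 1 = WG (M i) (s i) 1} :=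
      ⟨fun x => hne (huniq i hi ⟨x.1, x.2⟩)⟩
    rw [Nat.card_of_isEmpty, Nat.cast_zero, mul_zero]

/-- The mean value of a permutation character. -/
theorem mean_perm (W : Subgroup G) [Fintype G] :
    ∑ g : G, (Nat.card {x : G ⧸ W // g • x = x} : ℤ) = Nat.card G := by
  classical
  have h1 : (Nat.card W : ℤ) * ∑ g : G, (Nat.card {x : G ⧸ W // g • x = x} : ℤ) =
      Nat.card W * Nat.card G := by
    rw [Finset.mul_sum]
    have h2 : ∀ g : G, (Nat.card W : ℤ) * (Nat.card {x : G ⧸ W // g • x = x} : ℤ) =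
        ∑ x : G, if x⁻¹ * g * x ∈ W then 1 else 0 := by
      intro g
      rw [← Nat.cast_mul, MP_0d9be2.H39.card_mul_fix, Nat.card_eq_fintype_card,
        Fintype.card_subtype, Finset.sum_boole]
    rw [Finset.sum_congr rfl (fun g _ => h2 g), Finset.sum_comm]
    have h3 : ∀ x : G, (∑ g : G, if x⁻¹ * g * x ∈ W then (1 : ℤ) else 0) = Nat.card W := by
      intro x
      rw [Finset.sum_boole, ← Fintype.card_subtype, ← Nat.card_eq_fintype_card]
      refine congrArg _ (Nat.card_congr ⟨fun g => ⟨x⁻¹ * g.1 * x, g.2⟩,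
        fun w => ⟨x * w.1 * x⁻¹, by
          have h4 : x⁻¹ * (x * w.1 * x⁻¹) * x = w.1 := by group
          rw [h4]
          exact w.2⟩, fun g => ?_, fun w => ?_⟩)
      · apply Subtype.ext
        change x * (x⁻¹ * g.1 * x) * x⁻¹ = g.1
        group
      · apply Subtype.ext
        change x⁻¹ * (x * w.1 * x⁻¹) * x = w.1
        group
    rw [Finset.sum_congr rfl (fun x _ => h3 x), Finset.sum_const, nsmul_eq_mul,
      Finset.card_univ, ← Nat.card_eq_fintype_card]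
    ring
  have h5 : (Nat.card W : ℤ) ≠ 0 := by
    exact_mod_cast Nat.card_pos.ne'
  exact mul_left_cancel₀ h5 h1

theorem totient_eq_sum (m : ℕ) (hm : m ≠ 0) :
    ∑ d ∈ m.divisors, (moebius d : ℂ) / d = (m.totient : ℂ) / m := by
  have h1 := (ArithmeticFunction.sum_eq_iff_sum_mul_moebius_eq (R := ℂ)
    (f := fun n => (n.totient : ℂ)) (g := fun n => (n : ℂ))).1 (fun n _ => by
      rw [← Nat.cast_sum, Nat.sum_totient]) m (Nat.pos_of_ne_zero hm)
  rw [← h1, Nat.sum_divisorsAntidiagonal (fun i j => ((moebius i : ℤ) : ℂ) * (j : ℂ)),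
    Finset.sum_div]
  refine Finset.sum_congr rfl fun d hd => ?_
  have h2 := Nat.dvd_of_mem_divisors hd
  have h3 : (d : ℂ) ≠ 0 := by
    exact_mod_cast (Nat.pos_of_mem_divisors hd).ne'
  have h4 : (m : ℂ) ≠ 0 := by exact_mod_cast hm
  rw [Nat.cast_div h2 h3]
  field_simp

/-- The weights add up to one. -/
theorem weights {ι : Type} (T : Finset ι) (M : ι → Subgroup G) (hM : ∀ j, (M j).Normal)
    (s : ι → G)
    (h1 : ∀ g : G, ∃ j ∈ T, (∃ x : G, WG (M j) (x⁻¹ * g * x) 1 = WG (M j) (s j) 1) ∧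
      ∀ i ∈ T, (∃ x : G, WG (M i) (x⁻¹ * g * x) 1 = WG (M i) (s i) 1) → i = j) :
    ∑ j ∈ T, ∑ d ∈ (orderOf (s j : G ⧸ M j)).divisors,
      ((normalizer (WG (M j) (s j) 1 : Set G)).index : ℤ) * (Nat.card (WG (M j) (s j) d) : ℤ) *
        (moebius d : ℤ) = Nat.card G := by
  classical
  have := Fintype.ofFinite G
  have h2 : ∑ g : G, ∑ j ∈ T, ∑ d ∈ (orderOf (s j : G ⧸ M j)).divisors,
      ((normalizer (WG (M j) (s j) 1 : Set G)).index : ℤ) * (Nat.card (WG (M j) (s j) d) : ℤ) *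
        (moebius d : ℤ) * (Nat.card {x : G ⧸ WG (M j) (s j) d // g • x = x} : ℤ) =
      ∑ _g : G, (Nat.card G : ℤ) :=
    Finset.sum_congr rfl fun g _ => relation T M hM s g (h1 g)
  rw [Finset.sum_comm] at h2
  have h3 : ∀ j ∈ T, ∑ g : G, ∑ d ∈ (orderOf (s j : G ⧸ M j)).divisors,
      ((normalizer (WG (M j) (s j) 1 : Set G)).index : ℤ) * (Nat.card (WG (M j) (s j) d) : ℤ) *
        (moebius d : ℤ) * (Nat.card {x : G ⧸ WG (M j) (s j) d // g • x = x} : ℤ) =
      (∑ d ∈ (orderOf (s j : G ⧸ M j)).divisors,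
      ((normalizer (WG (M j) (s j) 1 : Set G)).index : ℤ) * (Nat.card (WG (M j) (s j) d) : ℤ) *
        (moebius d : ℤ)) * Nat.card G := by
    intro j _
    rw [Finset.sum_comm, Finset.sum_mul]
    refine Finset.sum_congr rfl fun d _ => ?_
    rw [← Finset.mul_sum, mean_perm]
  rw [Finset.sum_congr rfl h3, ← Finset.sum_mul, Finset.sum_const, nsmul_eq_mul,
    Finset.card_univ, ← Nat.card_eq_fintype_card] at h2
  have h5 : (Nat.card G : ℤ) ≠ 0 := by
    exact_mod_cast Nat.card_pos.ne'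
  exact mul_right_cancel₀ h5 h2

end quotient

end Pool.Agent.MP_3d3918
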