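import Pool.Agent.Lib.MP_3d3918_nt.GenCriterion
import Pool.Agent.Lib.MP_3d3918_nt.Inert.Group
import Pool.Agent.Lib.MP_3d3918_nt.Inert.Cover

/-!
# Intermediate fields and subgroups
-/

set_option autoImplicit false

open Filter Topology

namespace Pool.Agent.MP_3d3918

section

variable {K : Type} [Field K] {F X : IntermediateField K (AlgebraicClosure K)}
  (hFX : F ≤ X)

/-- The subgroup of the automorphisms which fix the elements of `E`. -/
def subG (E : IntermediateField K (AlgebraicClosure K)) : Subgroup Gal((ext hFX)/F) where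
  carrier := {g | ∀ x : ext hFX, (x : AlgebraicClosure K) ∈ E → g x = x}
  one_mem' := fun _ _ => rfl
  mul_mem' := by
    intro g h hg hh x hx
    change g (h x) = x
    rw [hh x hx, hg x hx]
  inv_mem' := by
    intro g hg x hx
    change g.symm x = x
    rw [AlgEquiv.symm_apply_eq]
    exact (hg x hx).symm

theorem mem_subG (E : IntermediateField K (AlgebraicClosure K)) (g : Gal((ext hFX)/F)) :
    g ∈ subG hFX E ↔ ∀ x : ext hFX, (x : AlgebraicClosure K) ∈ E → g x = x := Iff.rfl

theorem subG_anti {E E' : IntermediateField K (AlgebraicClosure K)} (h : E ≤ E') :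
    subG hFX E' ≤ subG hFX E := fun _ hg x hx => hg x (h hx)

/-- `E` as an intermediate field of `X / F`. -/
noncomputable def midE {E : IntermediateField K (AlgebraicClosure K)} (hFE : F ≤ E) :
    IntermediateField F (ext hFX) :=
  (IntermediateField.extendScalars hFE).comap (ext hFX).val

theorem mem_midE {E : IntermediateField K (AlgebraicClosure K)} (hFE : F ≤ E) (x : ext hFX) :
    x ∈ midE hFX hFE ↔ (x : AlgebraicClosure K) ∈ E := Iff.rfl

theorem subG_eq {E : IntermediateField K (AlgebraicClosure K)} (hFE : F ≤ E) :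
    subG hFX E = (midE hFX hFE).fixingSubgroup := by
  ext g
  rw [mem_subG, IntermediateField.mem_fixingSubgroup_iff]
  rfl

theorem mem_fieldOf (H : Subgroup Gal((ext hFX)/F)) (x : ext hFX) :
    (x : AlgebraicClosure K) ∈ fieldOf hFX H ↔ ∀ g ∈ H, g x = x := by
  constructor
  · rintro ⟨y, hy, hxy⟩ g hg
    have h1 : y = x := Subtype.ext hxy
    rw [← h1]
    exact (IntermediateField.mem_fixedField_iff _ _).1 hy g hg
  · intro h
    exact ⟨x, (IntermediateField.mem_fixedField_iff _ _).2 h, rfl⟩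

/-- The elements fixed by the subgroup of `E`. -/
theorem fixed_iff [FiniteDimensional K X] [Normal K X] [CharZero K]
    {E : IntermediateField K (AlgebraicClosure K)} (hFE : F ≤ E) (x : ext hFX) :
    (∀ g ∈ subG hFX E, g x = x) ↔ (x : AlgebraicClosure K) ∈ E := by
  have fin := finite_ext hFX
  have gal := galois_ext hFX
  rw [subG_eq hFX hFE, ← IntermediateField.mem_fixedField_iff,
    IsGalois.fixedField_fixingSubgroup]
  rfl

theorem fieldOf_subG [FiniteDimensional K X] [Normal K X] [CharZero K]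
    {E : IntermediateField K (AlgebraicClosure K)} (hFE : F ≤ E) (hEX : E ≤ X) :
    fieldOf hFX (subG hFX E) = E := by
  ext x
  constructor
  · intro hx
    have hxX : x ∈ X := fieldOf_le hFX _ hx
    exact (fixed_iff hFX hFE ⟨x, hxX⟩).1 ((mem_fieldOf hFX _ ⟨x, hxX⟩).1 hx)
  · intro hx
    exact (mem_fieldOf hFX _ ⟨x, hEX hx⟩).2 fun g hg => hg _ hx

theorem subG_inj [FiniteDimensional K X] [Normal K X] [CharZero K]
    {E E' : IntermediateField K (AlgebraicClosure K)} (hFE : F ≤ E) (hEX : E ≤ X) (hFE' : F ≤ E')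
    (hEX' : E' ≤ X) (h : subG hFX E = subG hFX E') : E = E' := by
  rw [← fieldOf_subG hFX hFE hEX, h, fieldOf_subG hFX hFE' hEX']

/-- The restriction to `X` of an automorphism which fixes `F`. -/
noncomputable def resG [Normal K X] (s : Gal(AlgebraicClosure K/K)) (hs : ∀ x ∈ F, s x = x) :
    Gal((ext hFX)/F) :=
  have := normal_ext hFX
  AlgEquiv.restrictNormalHom (ext hFX)
    (IntermediateField.fixingSubgroupEquiv F ⟨s, (IntermediateField.mem_fixingSubgroup_iff _ _).2 hs⟩)

theorem resG_apply [Normal K X] (s : Gal(AlgebraicClosure K/K)) (hs : ∀ x ∈ F, s x = x)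
    (x : ext hFX) : (resG hFX s hs x : AlgebraicClosure K) = s x := by
  have := normal_ext hFX
  exact AlgEquiv.restrictNormal_commutes
    (IntermediateField.fixingSubgroupEquiv F ⟨s, (IntermediateField.mem_fixingSubgroup_iff _ _).2 hs⟩)
    (ext hFX) x

theorem liftG_fix [Normal K X] (g : Gal((ext hFX)/F)) : ∀ x ∈ F, liftG hFX g x = x := by
  intro x hx
  have h1 := liftG_apply hFX g (algebraMap F (ext hFX) ⟨x, hx⟩)
  rw [AlgEquiv.commutes] at h1
  exact h1

/-- Two elements of the group are equal if they agree on the elements. -/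
theorem gal_ext {g h : Gal((ext hFX)/F)}
    (hgh : ∀ x : ext hFX, (g x : AlgebraicClosure K) = h x) : g = h :=
  AlgEquiv.ext fun x => Subtype.ext (hgh x)

theorem normal_subG [Normal K X] {N : IntermediateField K (AlgebraicClosure K)} [Normal K N] :
    (subG hFX N).Normal := by
  refine ⟨fun g hg c => ?_⟩
  intro x hx
  have h1 : ((c⁻¹ : Gal((ext hFX)/F)) x : AlgebraicClosure K) ∈ N := by
    rw [← liftG_apply hFX c⁻¹ x]
    exact normal_mem N _ hx
  change c (g (c⁻¹ x)) = x
  rw [hg _ h1]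
  exact c.apply_symm_apply x

/-- Powers. -/
theorem resG_zpow [Normal K X] (s : Gal(AlgebraicClosure K/K)) (hs : ∀ x ∈ F, s x = x) (k : ℤ)
    (x : ext hFX) : ((resG hFX s hs ^ k : Gal((ext hFX)/F)) x : AlgebraicClosure K) =
      (s ^ k) x := by
  have h1 : ∀ x ∈ F, (s ^ k) x = x := by
    intro x hx
    have h4 : s ∈ MulAction.stabilizer Gal(AlgebraicClosure K/K) x := hs x hx
    exact Subgroup.zpow_mem _ h4 k
  have hn := normal_ext hFX
  have h2 : resG hFX s hs ^ k = resG hFX (s ^ k) h1 := by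
    unfold resG
    rw [← map_zpow, ← map_zpow]
    rfl
  rw [h2, resG_apply]

theorem pow_fix {s : Gal(AlgebraicClosure K/K)} (hs : ∀ x ∈ F, s x = x) (d : ℕ) :
    ∀ x ∈ F, (s ^ d) x = x := by
  intro x hx
  have h4 : s ∈ MulAction.stabilizer Gal(AlgebraicClosure K/K) x := hs x hx
  exact Subgroup.pow_mem _ h4 d

theorem le_fixIn {N : IntermediateField K (AlgebraicClosure K)} (hFN : F ≤ N)
    {s : Gal(AlgebraicClosure K/K)} (hs : ∀ x ∈ F, s x = x) : F ≤ fixIn N s := fun x hx =>
  (mem_fixIn N s x).2 ⟨hFN hx, hs x hx⟩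

theorem mk_subG_iff {N : IntermediateField K (AlgebraicClosure K)} [(subG hFX N).Normal]
    (g h : Gal((ext hFX)/F)) :
    (g : Gal((ext hFX)/F) ⧸ subG hFX N) = h ↔
      ∀ x : ext hFX, (x : AlgebraicClosure K) ∈ N → g x = h x := by
  rw [QuotientGroup.eq, mem_subG]
  refine forall₂_congr fun x _ => ?_
  change g.symm (h x) = x ↔ _
  rw [AlgEquiv.symm_apply_eq]
  exact eq_comm

section normal

variable [FiniteDimensional K X] [Normal K X] {N : IntermediateField K (AlgebraicClosure K)}
  [Normal K N] [FiniteDimensional K N] (hNX : N ≤ X) (s : Gal(AlgebraicClosure K/K))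
  (hs : ∀ x ∈ F, s x = x)

include hNX in
theorem WG_eq_subG [(subG hFX N).Normal] (d : ℕ) :
    WG (subG hFX N) (resG hFX s hs) d = subG hFX (fixIn N (s ^ d)) := by
  ext g
  rw [mem_WG, Subgroup.mem_zpowers_iff]
  have hpow : ∀ k : ℤ, ((resG hFX s hs : Gal((ext hFX)/F) ⧸ subG hFX N) ^ d) ^ k =
      ((resG hFX s hs ^ ((d : ℤ) * k) : Gal((ext hFX)/F)) : Gal((ext hFX)/F) ⧸ subG hFX N) := by
    intro k
    rw [QuotientGroup.mk_zpow, zpow_mul, zpow_natCast]
  constructor
  · rintro ⟨k, hk⟩ x hx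
    rw [mem_fixIn] at hx
    rw [hpow, mk_subG_iff hFX] at hk
    rw [← hk x hx.1]
    apply Subtype.ext
    rw [resG_zpow]
    have h4 : s ^ d ∈ MulAction.stabilizer Gal(AlgebraicClosure K/K) (x : AlgebraicClosure K) :=
      hx.2
    have h5 := Subgroup.zpow_mem _ h4 k
    rw [← zpow_natCast, ← zpow_mul] at h5
    exact h5
  · intro hg
    have h0 : (AlgEquiv.restrictNormalHom N : Gal(AlgebraicClosure K/K) →* Gal(N/K))
        (liftG hFX g) ∈ Subgroup.zpowers
        ((AlgEquiv.restrictNormalHom N : Gal(AlgebraicClosure K/K) →* Gal(N/K)) (s ^ d)) := by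
      rw [← IntermediateField.fixingSubgroup_fixedField (Subgroup.zpowers
          ((AlgEquiv.restrictNormalHom N : Gal(AlgebraicClosure K/K) →* Gal(N/K)) (s ^ d))),
        IntermediateField.mem_fixingSubgroup_iff]
      intro x hx
      rw [IntermediateField.mem_fixedField_iff] at hx
      have h1 := hx _ (Subgroup.mem_zpowers _)
      have h2 : (s ^ d) (x : AlgebraicClosure K) = x := by
        rw [← AlgEquiv.restrictNormalHom_apply N (s ^ d) x, h1]
      apply Subtype.ext
      rw [AlgEquiv.restrictNormalHom_apply, liftG_apply hFX g ⟨x, hNX x.2⟩,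
        hg ⟨x, hNX x.2⟩ ((mem_fixIn _ _ _).2 ⟨x.2, h2⟩)]
    obtain ⟨k, hk⟩ := Subgroup.mem_zpowers_iff.1 h0
    refine ⟨k, ?_⟩
    rw [hpow, mk_subG_iff hFX]
    intro x hx
    apply Subtype.ext
    rw [resG_zpow, ← liftG_apply hFX g x]
    have h1 := AlgEquiv.restrictNormalHom_apply N (liftG hFX g) ⟨x, hx⟩
    rw [← hk, ← map_zpow, AlgEquiv.restrictNormalHom_apply] at h1
    rw [← h1, ← zpow_natCast, ← zpow_mul]

include hNX in
theorem orderOf_resG [(subG hFX N).Normal] :
    orderOf (resG hFX s hs : Gal((ext hFX)/F) ⧸ subG hFX N) = ordIn N s := by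
  unfold ordIn
  rw [orderOf_eq_orderOf_iff]
  intro n
  have h1 : (resG hFX s hs : Gal((ext hFX)/F) ⧸ subG hFX N) ^ n = 1 ↔
      ∀ x : ext hFX, (x : AlgebraicClosure K) ∈ N → (s ^ n) (x : AlgebraicClosure K) = x := by
    rw [← QuotientGroup.mk_pow, ← QuotientGroup.mk_one, mk_subG_iff hFX]
    refine forall₂_congr fun x _ => ?_
    rw [← zpow_natCast, ← zpow_natCast s n, ← resG_zpow hFX s hs n x, AlgEquiv.one_apply]
    exact ⟨fun h => congrArg _ h, fun h => Subtype.ext h⟩
  rw [h1, ← map_pow]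
  constructor
  · intro h
    ext x
    rw [AlgEquiv.restrictNormalHom_apply, AlgEquiv.one_apply]
    exact h ⟨x, hNX x.2⟩ x.2
  · intro h x hx
    rw [← AlgEquiv.restrictNormalHom_apply N (s ^ n) ⟨x, hx⟩, h, AlgEquiv.one_apply]

end normal

end

end Pool.Agent.MP_3d3918
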