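import Mathlib

/-!
# The trace of a rational matrix of finite order
-/

set_option autoImplicit false

open Matrix

namespace Pool.Agent.MP_3d3918

section

variable {n : Type} [Fintype n] [DecidableEq n]

omit [DecidableEq n] in
/-- A common denominator. -/
theorem exists_denominator (M : Matrix n n ℚ) : ∃ (D : ℕ) (Z : Matrix n n ℤ), D ≠ 0 ∧
    Z.map (Int.cast : ℤ → ℚ) = (D : ℚ) • M := by
  have h1 : ∀ i j, ∃ z : ℤ, (z : ℚ) = ((∏ i, ∏ j, (M i j).den : ℕ) : ℚ) * M i j := by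
    intro i j
    have h2 : (M i j).den ∣ ∏ i, ∏ j, (M i j).den :=
      (Finset.dvd_prod_of_mem (fun j => (M i j).den) (Finset.mem_univ j)).trans
        (Finset.dvd_prod_of_mem (fun i => ∏ j, (M i j).den) (Finset.mem_univ i))
    obtain ⟨c, hc⟩ := h2
    refine ⟨c * (M i j).num, ?_⟩
    rw [hc]
    push_cast
    have h3 : (M i j) * ((M i j).den : ℚ) = (M i j).num := Rat.mul_den_eq_num (M i j)
    rw [← h3]
    ring
  choose Z hZ using h1
  refine ⟨∏ i, ∏ j, (M i j).den, Matrix.of Z, ?_, ?_⟩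
  · exact Finset.prod_ne_zero_iff.2 fun i _ => Finset.prod_ne_zero_iff.2 fun j _ =>
      (M i j).den_nz
  · ext i j
    rw [Matrix.map_apply, Matrix.of_apply, hZ, Matrix.smul_apply, smul_eq_mul]

theorem trace_pow_prime (Z : Matrix n n ℤ) (p : ℕ) [Fact p.Prime] :
    (((Z ^ p).trace : ℤ) : ZMod p) = ((Z.trace : ℤ) : ZMod p) := by
  have h1 : ∀ Y : Matrix n n ℤ, ((Y.trace : ℤ) : ZMod p) =
      (Y.map (Int.castRingHom (ZMod p))).trace := by
    intro Y
    have := AddMonoidHom.map_trace (Int.castRingHom (ZMod p)).toAddMonoidHom Y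
    exact this
  rw [h1, h1, Matrix.map_pow, ZMod.trace_pow_card, ZMod.pow_card]

theorem trace_pow_aux (M : Matrix n n ℚ) (m k : ℕ) (hm : 0 < m) (hM : M ^ m = 1)
    (hk : Nat.Coprime k m) : (M ^ k).trace = M.trace := by
  obtain ⟨D, Z, hD, hZ⟩ := exists_denominator M
  have hD' : (D : ℚ) ≠ 0 := by exact_mod_cast hD
  have htr : ∀ Y : Matrix n n ℤ, ((Y.trace : ℤ) : ℚ) = (Y.map (Int.castRingHom ℚ)).trace := by
    intro Y
    exact AddMonoidHom.map_trace (Int.castRingHom ℚ).toAddMonoidHom Y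
  have hZ' : Z.map (Int.castRingHom ℚ) = (D : ℚ) • M := hZ
  have hpow : ∀ j : ℕ, (((Z ^ j).trace : ℤ) : ℚ) = (D : ℚ) ^ j * (M ^ j).trace := by
    intro j
    rw [htr, Matrix.map_pow, hZ', smul_pow, Matrix.trace_smul, smul_eq_mul]
  have key : ∀ B : ℕ, ∃ p : ℕ, B < p ∧
      (p : ℤ) ∣ (D : ℤ) ^ k * Z.trace - (D : ℤ) * (Z ^ k).trace := by
    intro B
    obtain ⟨p, hp, hpp, hmod⟩ := Nat.forall_exists_prime_gt_and_modEq B hm.ne' hk
    have : Fact p.Prime := ⟨hpp⟩
    refine ⟨p, hp, ?_⟩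
    have h1 : M ^ p = M ^ k := by
      rw [pow_eq_pow_mod p hM, pow_eq_pow_mod k hM]
      exact congrArg _ hmod
    have h2 : (D : ℤ) ^ k * (Z ^ p).trace = (D : ℤ) ^ p * (Z ^ k).trace := by
      have h3 : (((D : ℤ) ^ k * (Z ^ p).trace : ℤ) : ℚ) = (((D : ℤ) ^ p * (Z ^ k).trace : ℤ) : ℚ) := by
        push_cast
        rw [hpow, hpow, h1]
        ring
      exact_mod_cast h3
    have h3 := congrArg (fun z : ℤ => (z : ZMod p)) h2
    push_cast at h3
    rw [trace_pow_prime, ZMod.pow_card] at h3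
    have h4 : (((D : ℤ) ^ k * Z.trace - (D : ℤ) * (Z ^ k).trace : ℤ) : ZMod p) = 0 := by
      push_cast
      rw [h3, sub_self]
    exact (ZMod.intCast_zmod_eq_zero_iff_dvd _ p).1 h4
  have hzero : (D : ℤ) ^ k * Z.trace - (D : ℤ) * (Z ^ k).trace = 0 := by
    obtain ⟨p, hp, hdvd⟩ := key (Int.natAbs ((D : ℤ) ^ k * Z.trace - (D : ℤ) * (Z ^ k).trace))
    refine Int.eq_zero_of_abs_lt_dvd hdvd ?_
    rw [Int.abs_eq_natAbs]
    exact_mod_cast hp
  have h5 : (((D : ℤ) ^ k * Z.trace - (D : ℤ) * (Z ^ k).trace : ℤ) : ℚ) = 0 := by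
    rw [hzero]
    rfl
  push_cast at h5
  have h6 := hpow 1
  rw [pow_one, pow_one, pow_one] at h6
  rw [hpow k, h6] at h5
  have h7 : (D : ℚ) ^ k * D * (M.trace - (M ^ k).trace) = 0 := by
    rw [← h5]
    ring
  have h8 := (mul_eq_zero.1 h7).resolve_left (mul_ne_zero (pow_ne_zero _ hD') hD')
  exact (sub_eq_zero.1 h8).symm

/-- The trace of an endomorphism of finite order of a rational vector space is the trace of its
powers with coprime exponent. -/
theorem trace_pow_coprime {V : Type} [AddCommGroup V] [Module ℚ V] [Module.Finite ℚ V]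
    (f : V →ₗ[ℚ] V) (m k : ℕ) (hm : 0 < m) (hf : f ^ m = 1) (hk : Nat.Coprime k m) :
    LinearMap.trace ℚ V (f ^ k) = LinearMap.trace ℚ V f := by
  classical
  let b := Module.Free.chooseBasis ℚ V
  rw [LinearMap.trace_eq_matrix_trace ℚ b, LinearMap.trace_eq_matrix_trace ℚ b,
    ← LinearMap.toMatrix_pow]
  refine trace_pow_aux _ m k hm ?_ hk
  rw [LinearMap.toMatrix_pow, hf]
  exact LinearMap.toMatrix_one b

end

end Pool.Agent.MP_3d3918
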