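import Pool.Agent.Lib.MP_3d3918_nt.Inert.Data
import Pool.Agent.Lib.MP_3d3918_nt.Inert.RatTrace

/-!
# The alternating sum of the ranks is a trace
-/

set_option autoImplicit false

open TensorProduct Module Subgroup ArithmeticFunction

namespace Pool.Agent.MP_3d3918

section group

variable {G : Type} [Group G] [Finite G]

/-- The sum over the divisors of the mean values over the subgroups. -/
theorem moebius_mean [Fintype G] (s : G) (f : G → ℚ) [DecidableEq (Subgroup G)]
    [∀ d, DecidablePred (fun g : G => g ∈ zpowers (s ^ d))] :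
    ∑ d ∈ (orderOf s).divisors, (moebius d : ℚ) / d * ((Nat.card (zpowers (s ^ d)) : ℚ)⁻¹ *
      ∑ g : G, if g ∈ zpowers (s ^ d) then f g else 0) =
      (orderOf s : ℚ)⁻¹ * ∑ g : G, if zpowers g = zpowers s then f g else 0 := by
  classical
  have h1 : ∀ d ∈ (orderOf s).divisors, (moebius d : ℚ) / d *
      ((Nat.card (zpowers (s ^ d)) : ℚ)⁻¹ * ∑ g : G, if g ∈ zpowers (s ^ d) then f g else 0) =
      ∑ g : G, (orderOf s : ℚ)⁻¹ * (f g *
        (((moebius d : ℤ) * (if g ∈ zpowers (s ^ d) then 1 else 0) : ℤ) : ℚ)) := by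
    intro d hd
    have h2 : (orderOf s : ℚ) = Nat.card (zpowers (s ^ d)) * d := by
      exact_mod_cast (card_zpowers_pow s d hd).symm
    have h3 : (d : ℚ) ≠ 0 := by exact_mod_cast (Nat.pos_of_mem_divisors hd).ne'
    have h4 : (Nat.card (zpowers (s ^ d)) : ℚ) ≠ 0 := by exact_mod_cast Nat.card_pos.ne'
    rw [h2, ← Finset.mul_sum]
    have h5 : ∑ g : G, f g * (((moebius d : ℤ) * (if g ∈ zpowers (s ^ d) then 1 else 0) : ℤ) : ℚ) =
        (moebius d : ℚ) * ∑ g : G, if g ∈ zpowers (s ^ d) then f g else 0 := by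
      rw [Finset.mul_sum]
      refine Finset.sum_congr rfl fun g _ => ?_
      by_cases h6 : g ∈ zpowers (s ^ d)
      · rw [if_pos h6, if_pos h6]
        push_cast
        ring
      · rw [if_neg h6, if_neg h6]
        push_cast
        ring
    rw [h5]
    field_simp
  rw [Finset.sum_congr rfl h1, Finset.sum_comm, Finset.mul_sum]
  refine Finset.sum_congr rfl fun g _ => ?_
  rw [← Finset.mul_sum, ← Finset.mul_sum, ← Int.cast_sum, moebius_zpowers s g]
  by_cases h6 : zpowers g = zpowers s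
  · rw [if_pos h6, if_pos h6, Int.cast_one, mul_one]
  · rw [if_neg h6, if_neg h6, Int.cast_zero, mul_zero]

variable {A : Type} [AddCommGroup A] [DistribMulAction G A]

omit [Finite G] in
theorem bact_one : bact (A := A) (1 : G) = 1 := by
  apply ext_V
  intro a
  rw [bact_toV, one_smul]
  rfl

omit [Finite G] in
theorem bact_pow (g : G) (k : ℕ) : bact (A := A) (g ^ k) = bact g ^ k := by
  induction k with
  | zero => rw [pow_zero, pow_zero, bact_one]
  | succ k ih => rw [pow_succ, pow_succ, bact_mul, ih]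

theorem chi_eq_of_zpowers (hfin : Module.Finite ℚ (ℚ ⊗[ℤ] A)) (s g : G)
    (h : zpowers g = zpowers s) : chi A g = chi A s := by
  classical
  have hg : g ∈ zpowers s := h ▸ mem_zpowers g
  obtain ⟨k, rfl⟩ : ∃ k : ℕ, s ^ k = g := by
    obtain ⟨k, -, hk⟩ := (mem_zpowers_iff_mem_range_orderOf.1 hg |> fun h => by
      simpa using h : ∃ k, k < orderOf s ∧ s ^ k = g)
    exact ⟨k, hk⟩
  have h1 := (zpowers_pow_eq_iff s k).1 h
  unfold chi
  rw [bact_pow]
  refine trace_pow_coprime (bact s) (orderOf s) k (orderOf_pos s) ?_ ?_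
  · rw [← bact_pow, pow_orderOf_eq_one, bact_one]
  · exact Nat.coprime_comm.1 h1

theorem sum_finrank (hfin : Module.Finite ℚ (ℚ ⊗[ℤ] A)) (s : G) :
    ∑ d ∈ (orderOf s).divisors, (moebius d : ℚ) / d *
      (finrank ℤ (fixedSub A (zpowers (s ^ d))) : ℚ) =
      ((orderOf s).totient : ℚ) / (orderOf s) * chi A s := by
  classical
  have := Fintype.ofFinite G
  have h1 := moebius_mean s (fun g => chi A g)
  have h2 := moebius_mean s (fun _ => 1)
  have h3 : ∀ d ∈ (orderOf s).divisors, (moebius d : ℚ) / d *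
      ((Nat.card (zpowers (s ^ d)) : ℚ)⁻¹ *
      ∑ g : G, if g ∈ zpowers (s ^ d) then chi A g else 0) = (moebius d : ℚ) / d *
      (finrank ℤ (fixedSub A (zpowers (s ^ d))) : ℚ) := by
    intro d _
    have h4 := finrank_fixed (A := A) (zpowers (s ^ d)) hfin
    have h5 : (Nat.card (zpowers (s ^ d)) : ℚ) ≠ 0 := by exact_mod_cast Nat.card_pos.ne'
    have h6 : (∑ g : G, if g ∈ zpowers (s ^ d) then chi A g else 0) =
        ∑ᶠ h : zpowers (s ^ d), chi A h.1 := by
      rw [finsum_eq_sum_of_fintype, ← Finset.sum_filter]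
      exact Finset.sum_subtype _ (by simp) _
    rw [h6, ← h4, inv_mul_cancel_left₀ h5]
  rw [Finset.sum_congr rfl h3] at h1
  rw [h1]
  have h7 : ∀ d ∈ (orderOf s).divisors, (moebius d : ℚ) / d *
      ((Nat.card (zpowers (s ^ d)) : ℚ)⁻¹ *
      ∑ g : G, if g ∈ zpowers (s ^ d) then (1 : ℚ) else 0) = (moebius d : ℚ) / d := by
    intro d _
    have h5 : (Nat.card (zpowers (s ^ d)) : ℚ) ≠ 0 := by exact_mod_cast Nat.card_pos.ne'
    have h6 : (∑ g : G, if g ∈ zpowers (s ^ d) then (1 : ℚ) else 0) =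
        (Nat.card (zpowers (s ^ d)) : ℚ) := by
      rw [Finset.sum_boole, ← Fintype.card_subtype, ← Nat.card_eq_fintype_card]
    rw [h6, inv_mul_cancel₀ h5, mul_one]
  rw [Finset.sum_congr rfl h7] at h2
  have h8 : ∑ d ∈ (orderOf s).divisors, (moebius d : ℚ) / d =
      ((orderOf s).totient : ℚ) / (orderOf s) := by
    have h9 := totient_eq_sum (orderOf s) (orderOf_pos s).ne'
    apply Rat.cast_injective (α := ℂ)
    rw [Rat.cast_sum, Rat.cast_div, Rat.cast_natCast, Rat.cast_natCast, ← h9]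
    refine Finset.sum_congr rfl fun d _ => ?_
    rw [Rat.cast_div, Rat.cast_intCast, Rat.cast_natCast]
  rw [h8] at h2
  have h9 : (∑ g : G, if zpowers g = zpowers s then chi A g else 0) =
      (∑ g : G, if zpowers g = zpowers s then (1 : ℚ) else 0) * chi A s := by
    rw [Finset.sum_mul]
    refine Finset.sum_congr rfl fun g _ => ?_
    by_cases h10 : zpowers g = zpowers s
    · rw [if_pos h10, if_pos h10, one_mul, chi_eq_of_zpowers hfin s g h10]
    · rw [if_neg h10, if_neg h10, zero_mul]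
  rw [h9, ← mul_assoc, ← h2]

end group

section field

variable {K : Type} [Field K] {N : IntermediateField K (AlgebraicClosure K)}
  [FiniteDimensional K N] [Normal K N]

theorem orderOf_res (σ : Gal(AlgebraicClosure K/K)) (hs : ∀ x ∈ fixIn N σ, σ x = x) :
    orderOf (resG (fixIn_le N σ) σ hs) = ordIn N σ := by
  unfold ordIn
  rw [orderOf_eq_orderOf_iff]
  intro n
  have h1 : resG (fixIn_le N σ) σ hs ^ n = 1 ↔
      ∀ x : ext (fixIn_le N σ), (σ ^ n) (x : AlgebraicClosure K) = x := by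
    constructor
    · intro h x
      have h2 := resG_zpow (fixIn_le N σ) σ hs n x
      rw [zpow_natCast, zpow_natCast, h] at h2
      exact h2.symm
    · intro h
      apply gal_ext
      intro x
      have h2 := resG_zpow (fixIn_le N σ) σ hs n x
      rw [zpow_natCast, zpow_natCast] at h2
      rw [h2, h x]
      rfl
  rw [h1, ← map_pow]
  constructor
  · intro h
    ext x
    rw [AlgEquiv.restrictNormalHom_apply, AlgEquiv.one_apply]
    exact h ⟨x, x.2⟩
  · intro h x
    rw [← AlgEquiv.restrictNormalHom_apply N (σ ^ n) ⟨x, x.2⟩, h, AlgEquiv.one_apply]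

theorem fieldOf_zpowers (σ : Gal(AlgebraicClosure K/K)) (hs : ∀ x ∈ fixIn N σ, σ x = x) (d : ℕ) :
    fieldOf (fixIn_le N σ) (zpowers (resG (fixIn_le N σ) σ hs ^ d)) = fixIn N (σ ^ d) := by
  ext x
  rw [mem_fixIn]
  have hpow : ∀ y : ext (fixIn_le N σ), ((resG (fixIn_le N σ) σ hs ^ d) y : AlgebraicClosure K) =
      (σ ^ d) y := by
    intro y
    have h2 := resG_zpow (fixIn_le N σ) σ hs d y
    rw [zpow_natCast, zpow_natCast] at h2
    exact h2
  constructor
  · intro hx
    have hxN : x ∈ N := fieldOf_le (fixIn_le N σ) _ hx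
    refine ⟨hxN, ?_⟩
    have h1 := (mem_fieldOf (fixIn_le N σ) _ ⟨x, hxN⟩).1 hx _ (mem_zpowers _)
    have h2 := hpow ⟨x, hxN⟩
    rw [h1] at h2
    exact h2.symm
  · rintro ⟨hxN, hx⟩
    refine (mem_fieldOf (fixIn_le N σ) _ ⟨x, hxN⟩).2 fun g hg => ?_
    have h1 : resG (fixIn_le N σ) σ hs ^ d ∈ MulAction.stabilizer
        Gal((ext (fixIn_le N σ))/(fixIn N σ)) (⟨x, hxN⟩ : ext (fixIn_le N σ)) := by
      rw [MulAction.mem_stabilizer_iff]
      apply Subtype.ext
      exact (hpow ⟨x, hxN⟩).trans hx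
    exact (zpowers_le.2 h1) hg

variable (A : Type) [AddCommGroup A] [DistribMulAction Gal(AlgebraicClosure K/K) A]

omit [FiniteDimensional K N] in
theorem chi_eq_trIn (σ : Gal(AlgebraicClosure K/K)) (hs : ∀ x ∈ fixIn N σ, σ x = x) :
    letI := invAct (fixIn_le N σ) A
    chi (inv A N) (resG (fixIn_le N σ) σ hs) = trIn A N σ := by
  let _ := invAct (fixIn_le N σ) A
  have h1 : (DistribSMul.toAddMonoidHom (inv A N) (resG (fixIn_le N σ) σ hs)).toIntLinearMap =
      actIn A N σ := by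
    ext a
    change liftG (fixIn_le N σ) (resG (fixIn_le N σ) σ hs) • a.1 = σ • a.1
    refine smul_eq_of_agree a.2 _ _ fun x hx => ?_
    rw [liftG_apply (fixIn_le N σ) _ ⟨x, hx⟩, resG_apply]
  unfold chi bact trIn
  rw [h1]

theorem trace_identity [CharZero K] (hfin : Module.rank ℤ (inv A N) < Cardinal.aleph0)
    (σ : Gal(AlgebraicClosure K/K)) :
    ∑ d ∈ (ordIn N σ).divisors, (moebius d : ℚ) / d *
      (finrank ℤ (inv A (fixIn N (σ ^ d))) : ℚ) =
      ((ordIn N σ).totient : ℚ) / (ordIn N σ) * trIn A N σ := by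
  have hs : ∀ x ∈ fixIn N σ, σ x = x := fun x hx => ((mem_fixIn _ _ _).1 hx).2
  have fin := finite_ext (fixIn_le N σ)
  have gal := galois_ext (fixIn_le N σ)
  let _ := invAct (fixIn_le N σ) A
  rw [← chi_eq_trIn A σ hs, ← orderOf_res σ hs, ← sum_finrank (finite_V hfin)]
  refine Finset.sum_congr rfl fun d _ => ?_
  obtain ⟨e⟩ := exists_inv_equiv (fixIn_le N σ) A
    (zpowers (resG (fixIn_le N σ) σ hs ^ d))
  rw [fieldOf_zpowers] at e
  rw [e.finrank_eq]

end field

end Pool.Agent.MP_3d3918
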