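import Pool.Agent.Lib.MP_3d3918_nt.Inert.Main
import Pool.Agent.Lib.MP_3d3918_nt.Inert.Trace

/-!
# The final form of the local-global principle
-/

set_option autoImplicit false

open TensorProduct Module

namespace Pool.Agent.MP_3d3918

section

variable {K : Type} [Field K] {N : IntermediateField K (AlgebraicClosure K)}
  (A : Type) [AddCommGroup A] [DistribMulAction Gal(AlgebraicClosure K/K) A]

theorem inv_mono {F E : IntermediateField K (AlgebraicClosure K)} (h : F ≤ E) :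
    inv A F ≤ inv A E := fun _ ha ν hν => ha ν (IntermediateField.fixingSubgroup_le h hν)

theorem fixIn_ord [Normal K N] (σ : Gal(AlgebraicClosure K/K)) :
    fixIn N (σ ^ ordIn N σ) = N := by
  ext x
  rw [mem_fixIn]
  refine ⟨fun hx => hx.1, fun hx => ⟨hx, ?_⟩⟩
  rw [← AlgEquiv.restrictNormalHom_apply N (σ ^ ordIn N σ) ⟨x, hx⟩, map_pow]
  unfold ordIn
  rw [pow_orderOf_eq_one]
  rfl

theorem ordIn_pos [Normal K N] [FiniteDimensional K N] (σ : Gal(AlgebraicClosure K/K)) :
    0 < ordIn N σ := orderOf_pos _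

variable [CharZero K] {R₁ : Subring K} (a : (p : ℕ) → (R₁ →+* ZMod p) → ℤ)
  {b : IntermediateField K (AlgebraicClosure K) → ℕ → ℂ} (U C : Set ℂ)

theorem inertIn_iff [FiniteDimensional K N] [IsGalois K N] (σ : Gal(AlgebraicClosure K/K)) :
    InertIn R₁ a b A U C N σ ↔ InertRk R₁ a b A U C N σ := by
  have hrk : ∀ hfin : Module.rank ℤ (inv A N) < Cardinal.aleph0, ∀ d : ℕ,
      Module.rank ℤ (inv A (fixIn N (σ ^ d))) =
        (finrank ℤ (inv A (fixIn N (σ ^ d))) : Cardinal) := by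
    intro hfin d
    unfold Module.finrank
    rw [Cardinal.cast_toNat_of_lt_aleph0]
    exact lt_of_le_of_lt (Submodule.rank_mono (inv_mono A (fixIn_le N _))) hfin
  have htr : ∀ hfin : Module.rank ℤ (inv A N) < Cardinal.aleph0, ∀ e : ℂ,
      ∑ d ∈ (ordIn N σ).divisors, (ArithmeticFunction.moebius d : ℂ) / d *
        (finrank ℤ (inv A (fixIn N (σ ^ d))) : ℂ) - (ordIn N σ).totient / (ordIn N σ) * e =
      (ordIn N σ).totient / (ordIn N σ) * (trIn A N σ - e) := by
    intro hfin e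
    have h1 := congrArg (fun q : ℚ => (q : ℂ)) (trace_identity A hfin σ)
    push_cast at h1
    rw [h1]
    ring
  constructor
  · rintro ⟨hfin, θ, hθ, R₀, hR₀, h⟩
    refine ⟨θ, hθ, R₀, hR₀, fun R hR hle => ?_⟩
    obtain ⟨h1, e, he, hg⟩ := h R hR hle
    refine ⟨h1, fun d => finrank ℤ (inv A (fixIn N (σ ^ d))), e, fun d _ => hrk hfin d, he, ?_⟩
    rw [htr hfin e]
    exact hg
  · rintro ⟨θ, hθ, R₀, hR₀, h⟩
    have hfin : Module.rank ℤ (inv A N) < Cardinal.aleph0 := by
      obtain ⟨-, r, e, hr, -⟩ := h R₀ hR₀ le_rfl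
      have h1 := hr (ordIn N σ) (Nat.mem_divisors_self _ (ordIn_pos σ).ne')
      rw [fixIn_ord] at h1
      rw [h1]
      exact Cardinal.natCast_lt_aleph0
    refine ⟨hfin, θ, hθ, R₀, hR₀, fun R hR hle => ?_⟩
    obtain ⟨h1, r, e, hr, he, hg⟩ := h R hR hle
    refine ⟨h1, e, he, ?_⟩
    have h2 : ∑ d ∈ (ordIn N σ).divisors, (ArithmeticFunction.moebius d : ℂ) / d * (r d : ℂ) =
        ∑ d ∈ (ordIn N σ).divisors, (ArithmeticFunction.moebius d : ℂ) / d *
        (finrank ℤ (inv A (fixIn N (σ ^ d))) : ℂ) := by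
      refine Finset.sum_congr rfl fun d hd => ?_
      have h3 := hr d hd
      rw [hrk hfin d] at h3
      rw [Nat.cast_injective h3]
    rw [h2, htr hfin e] at hg
    exact hg

variable {A} {a} {U} {C}

theorem formulaIn_zero_iff (L : IntermediateField K (AlgebraicClosure K)) :
    FormulaIn R₁ a b A U {0} L ↔ ModNagao R₁ a b A U L := by
  constructor
  · rintro ⟨R₀, hR₀, h⟩
    refine ⟨R₀, hR₀, fun R hR hle => ?_⟩
    obtain ⟨h1, r, e, hr, he, hg⟩ := h R hR hle
    rw [Set.mem_singleton_iff.1 he, sub_zero] at hg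
    exact ⟨h1, r, hr, hg⟩
  · rintro ⟨R₀, hR₀, h⟩
    refine ⟨R₀, hR₀, fun R hR hle => ?_⟩
    obtain ⟨h1, r, hr, hg⟩ := h R hR hle
    refine ⟨h1, r, 0, hr, rfl, ?_⟩
    rw [sub_zero]
    exact hg

/-- The local-global principle. -/
theorem local_global (hR₁ : FG R₁) (hb : Additive b) (hC : Convex ℝ C)
    (N : ℕ → IntermediateField K (AlgebraicClosure K)) (hmono : Monotone N)
    [∀ i, FiniteDimensional K (N i)] [∀ i, IsGalois K (N i)]
    (L : IntermediateField K (AlgebraicClosure K))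
    (h : ∀ s : Gal(AlgebraicClosure K/K), (∀ x ∈ L, s x = x) →
      ∃ i, L ≤ N i ∧ InertIn R₁ a b A U C (N i) s) : FormulaIn R₁ a b A U C L := by
  refine formulaIn_of_inert a A U hR₁ hb hC N hmono L fun s hs => ?_
  obtain ⟨i, hi, h1⟩ := h s hs
  exact ⟨i, hi, (inertIn_iff A a U C s).1 h1⟩

/-- The converse. -/
theorem inertIn_of_formula (hR₁ : FG R₁) (N : IntermediateField K (AlgebraicClosure K))
    [FiniteDimensional K N] [IsGalois K N] (s : Gal(AlgebraicClosure K/K))
    (h : ∀ d ∈ (ordIn N s).divisors, ModNagao R₁ a b A U (fixIn N (s ^ d))) :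
    InertIn R₁ a b A U {0} N s :=
  (inertIn_iff A a U {0} s).2 (inertIn_of_modNagao a A U hR₁ N s h)

theorem all_iff_inert (hR₁ : FG R₁) (hb : Additive b)
    (N : ℕ → IntermediateField K (AlgebraicClosure K)) (hmono : Monotone N)
    [∀ i, FiniteDimensional K (N i)] [∀ i, IsGalois K (N i)] (hex : ∀ x, ∃ i, x ∈ N i) :
    (∀ L : IntermediateField K (AlgebraicClosure K), FiniteDimensional K L →
      ModNagao R₁ a b A U L) ↔
    ∀ (s : Gal(AlgebraicClosure K/K)) (j : ℕ), ∃ i, j ≤ i ∧ InertIn R₁ a b A U {0} (N i) s := by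
  constructor
  · intro h s j
    refine ⟨j, le_rfl, inertIn_of_formula hR₁ (N j) s fun d _ => h _ ?_⟩
    exact FiniteDimensional.of_injective
      (IntermediateField.inclusion (fixIn_le (N j) (s ^ d))).toLinearMap
      (IntermediateField.inclusion (fixIn_le (N j) (s ^ d))).injective
  · intro h L hL
    obtain ⟨k, hk⟩ := le_of_le_iSup N hmono L (fun x _ => hex x)
    rw [← formulaIn_zero_iff]
    refine local_global hR₁ hb (convex_singleton 0) N hmono L fun s _ => ?_
    obtain ⟨i, hi, h1⟩ := h s k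
    exact ⟨i, hk.trans (hmono hi), h1⟩

end

end Pool.Agent.MP_3d3918
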