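import Pool.Agent.Lib.MP_3d3918_nt.Inert.CountE

/-!
# The sum over the inert points
-/

set_option autoImplicit false

open Polynomial

namespace Pool.Agent.MP_3d3918

section

variable {K : Type} [Field K] [CharZero K] {F X N : IntermediateField K (AlgebraicClosure K)}

theorem degree_eq (hFX : F ≤ X) [FiniteDimensional K X] [IsGalois K X]
    (hFN : F ≤ N) (hNX : N ≤ X) (t : AlgebraicClosure K)
    (ht : (IntermediateField.adjoin F {t}).restrictScalars K = N) :
    (minpoly F t).natDegree = (subG hFX N).index := by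
  have fin := finite_ext hFX
  have gal := galois_ext hFX
  have hint : IsIntegral F t := by
    have h1 : IsIntegral K t := Algebra.IsIntegral.isIntegral t
    exact h1.tower_top
  rw [subG_eq hFX hFN, ← IntermediateField.finrank_eq_fixingSubgroup_index,
    ← IntermediateField.adjoin.finrank hint]
  have h1 : (midE hFX hFN).map (ext hFX).val = IntermediateField.adjoin F {t} := by
    ext x
    have h2 : x ∈ IntermediateField.adjoin F {t} ↔ x ∈ N := by
      rw [← ht, IntermediateField.mem_restrictScalars]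
    rw [h2]
    constructor
    · rintro ⟨y, hy, rfl⟩
      exact hy
    · intro hx
      exact ⟨⟨x, hNX hx⟩, hx, rfl⟩
  rw [← h1]
  exact (IntermediateField.equivMap (midE hFX hFN) (ext hFX).val).toLinearEquiv.finrank_eq.symm

theorem inert_sum (hFX : F ≤ X) [FiniteDimensional K X] [IsGalois K X] [Normal K N]
    [FiniteDimensional K N] (hNX : N ≤ X) (s : Gal(AlgebraicClosure K/K)) (hsF : fixIn N s = F)
    (θ : ext hFX) (hθ : IntermediateField.adjoin F {θ} = ⊤) (t : ext hFX)
    (ht : (IntermediateField.adjoin F {(t : AlgebraicClosure K)}).restrictScalars K = N)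
    (R : Subring F) (hfg : FG R) (hl : Large θ R)
    (htB : (t : AlgebraicClosure K) ∈ BX R θ)
    (htu : ∀ g : Gal((ext hFX)/F), g t ≠ t →
      (((g t - t)⁻¹ : ext hFX) : AlgebraicClosure K) ∈ BX R θ)
    (hc : ∀ n, (minpoly F (t : AlgebraicClosure K)).coeff n ∈ R) (p : ℕ) [Fact p.Prime]
    (hRB : ∀ x ∈ R, (x : AlgebraicClosure K) ∈ BX R θ)
    (hFE : ∀ d : ℕ, F ≤ fixIn N (s ^ d)) (α : (R →+* ZMod p) → ℤ) :
    (((∑ᶠ y : {y : R →+* ZMod p // IsInert R (minpoly F (t : AlgebraicClosure K)) p y},
      α y.1 : ℤ)) : ℂ) =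
    ∑ d ∈ (ordIn N s).divisors, (ArithmeticFunction.moebius d : ℂ) / d *
      ((∑ᶠ z : AE (BX R θ) (fixIn N (s ^ d)) →+* ZMod p,
        α (z.comp (toAE (hFE d) R (BX R θ) hRB)) : ℤ) : ℂ) := by
  classical
  have fin := finite_ext hFX
  have gal := galois_ext hFX
  have hs : ∀ x ∈ F, s x = x := by
    intro x hx
    rw [← hsF, mem_fixIn] at hx
    exact hx.2
  have hFN : F ≤ N := by
    rw [← hsF]
    exact fixIn_le N s
  have hnor : (subG hFX N).Normal := normal_subG hFX
  -- the polynomial
  have hc' : ((minpoly F (t : AlgebraicClosure K)).coeffs : Set F) ⊆ R := by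
    intro x hx
    obtain ⟨n, _, rfl⟩ := Polynomial.mem_coeffs_iff.1 hx
    exact hc n
  let P : R[X] := (minpoly F (t : AlgebraicClosure K)).toSubring R hc'
  have hint : IsIntegral F (t : AlgebraicClosure K) := by
    have h1 : IsIntegral K (t : AlgebraicClosure K) := Algebra.IsIntegral.isIntegral _
    exact h1.tower_top
  have hPmap : P.map R.subtype = minpoly F (t : AlgebraicClosure K) := Polynomial.map_toSubring _ _ _
  have hinj : Function.Injective R.subtype := Subtype.val_injective
  have hP : P.Monic := by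
    rw [Polynomial.monic_toSubring]
    exact minpoly.monic hint
  have hinert : ∀ y : R →+* ZMod p, IsInert R (minpoly F (t : AlgebraicClosure K)) p y ↔
      Irreducible (P.map y) := by
    intro y
    constructor
    · rintro ⟨P', hP', h⟩
      have h1 : P' = P := Polynomial.map_injective _ hinj (hP'.trans hPmap.symm)
      rwa [← h1]
    · intro h
      exact ⟨P, hPmap, h⟩
  -- the action
  let act := bAct hl
  have hsmul : ∀ (g : Gal((ext hFX)/F)) (b : BR θ R), ((g • b : BR θ R) : ext hFX) = g b :=
    fun g b => rfl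
  have htBR : t ∈ BR θ R := (mem_BR_iff hFX θ R t).2 htB
  have hgen : ∀ g : Gal((ext hFX)/F), (g : Gal((ext hFX)/F) ⧸ subG hFX N) ∈
      Subgroup.zpowers (resG hFX s hs : Gal((ext hFX)/F) ⧸ subG hFX N) := by
    intro g
    have h1 := WG_eq_subG hFX hNX s hs 1
    have h2 : g ∈ WG (subG hFX N) (resG hFX s hs) 1 := by
      rw [h1, pow_one, hsF]
      intro x hx
      exact g.commutes ⟨x, hx⟩
    rw [mem_WG, pow_one] at h2
    exact h2
  have hord : orderOf (resG hFX s hs : Gal((ext hFX)/F) ⧸ subG hFX N) = (subG hFX N).index := by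
    have h1 : Subgroup.zpowers (resG hFX s hs : Gal((ext hFX)/F) ⧸ subG hFX N) = ⊤ := by
      rw [eq_top_iff]
      intro q _
      obtain ⟨g, rfl⟩ := QuotientGroup.mk_surjective q
      exact hgen g
    rw [← Nat.card_zpowers, h1, Nat.card_congr Subgroup.topEquiv.toEquiv]
    rfl
  have hdeg : P.natDegree = orderOf (resG hFX s hs : Gal((ext hFX)/F) ⧸ subG hFX N) := by
    rw [hord, ← degree_eq hFX hFN hNX (t : AlgebraicClosure K) ht, ← hPmap,
      Polynomial.natDegree_map_eq_of_injective hinj]
  have hroot : P.eval₂ (iBR θ R) ⟨t, htBR⟩ = 0 := by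
    have h1 : (algebraMap (ext hFX) (AlgebraicClosure K)).comp (BR θ R).subtype
        (P.eval₂ (iBR θ R) ⟨t, htBR⟩) = 0 := by
      rw [Polynomial.hom_eval₂]
      have h2 := minpoly.aeval F (t : AlgebraicClosure K)
      rw [← hPmap, aeval_def, eval₂_map] at h2
      exact h2
    apply Subtype.ext
    apply Subtype.ext
    exact h1
  -- the rings
  let j : (d : ℕ) → AE (BX R θ) (fixIn N (s ^ d)) →+* BR θ R := fun d =>
    { toFun := fun x => ⟨⟨x.1.1, hNX (fixIn_le _ _ x.1.2)⟩, (mem_BR_iff hFX θ R _).2 x.2⟩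
      map_one' := rfl
      map_mul' := fun _ _ => rfl
      map_zero' := rfl
      map_add' := fun _ _ => rfl }
  have hjc : ∀ d x, (((j d x : BR θ R) : ext hFX) : AlgebraicClosure K) = x.1.1 := fun d x => rfl
  have hind := fun y : R →+* ZMod p => inert_indicator (G := Gal((ext hFX)/F)) (iBR θ R)
    iBR_injective (fun b => iBR_invariant hl b) ⟨θ, theta_mem θ R⟩ iBR_closure
    (fun g h hne => iBR_unit hl hθ g h hne) (subG hFX N) (resG hFX s hs) hgen ⟨t, htBR⟩ (by
      intro g hg
      apply Subtype.ext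
      apply hg
      rw [← ht]
      exact IntermediateField.mem_adjoin_simple_self F _) (by
      intro g hg
      have h1 : g t ≠ t := by
        intro h1
        apply hg
        intro x hx
        have h2 : (x : AlgebraicClosure K) ∈ IntermediateField.adjoin F {(t : AlgebraicClosure K)} := by
          have h3 : (x : AlgebraicClosure K) ∈
              (IntermediateField.adjoin F {(t : AlgebraicClosure K)}).restrictScalars K := by
            rw [ht]
            exact hx
          exact h3
        have h3 : IntermediateField.adjoin F {(t : AlgebraicClosure K)} ≤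
            (IntermediateField.fixedField (Subgroup.zpowers g)).map (ext hFX).val := by
          rw [IntermediateField.adjoin_le_iff]
          intro w hw
          rw [Set.mem_singleton_iff.1 hw]
          refine ⟨t, ?_, rfl⟩
          change t ∈ IntermediateField.fixedField _
          rw [IntermediateField.mem_fixedField_iff]
          intro ρ hρ
          have h4 : g ∈ MulAction.stabilizer Gal((ext hFX)/F) t := h1
          exact (Subgroup.zpowers_le.2 h4) hρ
        obtain ⟨z, hz, hzx⟩ := h3 h2
        have h5 : z = x := Subtype.ext hzx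
        rw [← h5]
        exact (IntermediateField.mem_fixedField_iff _ _).1 hz g (Subgroup.mem_zpowers g)
      have h2 : g t - t ≠ 0 := sub_ne_zero.2 h1
      refine IsUnit.of_mul_eq_one ⟨(g t - t)⁻¹, (mem_BR_iff hFX θ R _).2 (htu g h1)⟩ ?_
      apply Subtype.ext
      exact mul_inv_cancel₀ h2) P hP hdeg hroot
    (fun d => AE (BX R θ) (fixIn N (s ^ d))) j (by
      intro d x x' h
      have h1 := hjc d x
      rw [h, hjc] at h1
      exact Subtype.ext (Subtype.ext h1.symm)) (by
      intro d _ b
      rw [WG_eq_subG hFX hNX s hs d]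
      have h1 := fixed_iff hFX (hFE d) b.1
      constructor
      · intro h
        have h2 := h1.1 (fun g hg => congrArg Subtype.val (h g hg))
        exact ⟨⟨⟨(b.1 : AlgebraicClosure K), h2⟩, (mem_BR_iff hFX θ R b.1).1 b.2⟩, rfl⟩
      · rintro ⟨x, rfl⟩ g hg
        apply Subtype.ext
        exact h1.2 x.1.2 g hg)
    (fun d => toAE (hFE d) R (BX R θ) hRB) (fun d => rfl) p y
  rw [orderOf_resG hFX hNX s hs] at hind
  have fin1 := finite_hom hfg p
  have := Fintype.ofFinite (R →+* ZMod p)
  have fin2 : ∀ d, Finite (AE (BX R θ) (fixIn N (s ^ d)) →+* ZMod p) := fun d =>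
    finite_hom (fg_AE hFX θ R hfg hl _ (hFE d) ((fixIn_le _ _).trans hNX)) p
  have h1 : ∀ d, ((∑ᶠ z : AE (BX R θ) (fixIn N (s ^ d)) →+* ZMod p,
      α (z.comp (toAE (hFE d) R (BX R θ) hRB)) : ℤ) : ℂ) =
      ∑ y : R →+* ZMod p, (Nat.card {z : AE (BX R θ) (fixIn N (s ^ d)) →+* ZMod p //
        z.comp (toAE (hFE d) R (BX R θ) hRB) = y} : ℂ) * α y := by
    intro d
    have := fin2 d
    rw [finsum_fiber (toAE (hFE d) R (BX R θ) hRB) α]
    push_cast
    rfl
  simp only [h1]
  have h2 : ∀ d ∈ (ordIn N s).divisors, (ArithmeticFunction.moebius d : ℂ) / d *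
      ∑ y : R →+* ZMod p, (Nat.card {z : AE (BX R θ) (fixIn N (s ^ d)) →+* ZMod p //
        z.comp (toAE (hFE d) R (BX R θ) hRB) = y} : ℂ) * α y =
      ∑ y : R →+* ZMod p, (ArithmeticFunction.moebius d : ℂ) / d *
        (Nat.card {z : AE (BX R θ) (fixIn N (s ^ d)) →+* ZMod p //
        z.comp (toAE (hFE d) R (BX R θ) hRB) = y} : ℂ) * α y := by
    intro d _
    rw [Finset.mul_sum]
    exact Finset.sum_congr rfl fun y _ => (mul_assoc _ _ _).symm
  rw [Finset.sum_congr rfl h2, Finset.sum_comm]
  have h3 : ∀ y : R →+* ZMod p, ∑ d ∈ (ordIn N s).divisors,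
      (ArithmeticFunction.moebius d : ℂ) / d *
        (Nat.card {z : AE (BX R θ) (fixIn N (s ^ d)) →+* ZMod p //
        z.comp (toAE (hFE d) R (BX R θ) hRB) = y} : ℂ) * α y =
      if IsInert R (minpoly F (t : AlgebraicClosure K)) p y then (α y : ℂ) else 0 := by
    intro y
    rw [← Finset.sum_mul, hind y]
    by_cases h : Irreducible (P.map y)
    · rw [if_pos h, if_pos ((hinert y).2 h), one_mul]
    · rw [if_neg h, if_neg (fun h' => h ((hinert y).1 h')), zero_mul]
  rw [Finset.sum_congr rfl (fun y _ => h3 y), finsum_eq_sum_of_fintype, Int.cast_sum,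
    ← Finset.sum_filter]
  exact (Finset.sum_subtype (Finset.univ.filter
    (fun y => IsInert R (minpoly F (t : AlgebraicClosure K)) p y)) (by simp)
    (fun y => (α y : ℂ))).symm

end

end Pool.Agent.MP_3d3918
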