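import Pool.Agent.Lib.MP_3d3918_nt.Inert.Data

/-!
# The local-global principle
-/

set_option autoImplicit false

open Polynomial

namespace Pool.Agent.MP_3d3918

section

/-- Linear combinations of the terms. -/
theorem lin_terms {ι : Type} (T : Finset ι) (m : ι → ℕ) (α : ι → ℂ) (f g : ι → ℕ → ℂ) (P c c' : ℂ) :
    ∑ s ∈ T, α s * ∑ d ∈ (m s).divisors, (ArithmeticFunction.moebius d : ℂ) / d *
      ((f s d / P - g s d) * c * c') =
    ((∑ s ∈ T, α s * ∑ d ∈ (m s).divisors, (ArithmeticFunction.moebius d : ℂ) / d * f s d) / P -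
      ∑ s ∈ T, α s * ∑ d ∈ (m s).divisors, (ArithmeticFunction.moebius d : ℂ) / d * g s d) *
        c * c' := by
  rw [Finset.sum_div, ← Finset.sum_sub_distrib, Finset.sum_mul, Finset.sum_mul]
  refine Finset.sum_congr rfl fun s _ => ?_
  have h1 : ∑ d ∈ (m s).divisors, (ArithmeticFunction.moebius d : ℂ) / d *
      ((f s d / P - g s d) * c * c') =
      ((∑ d ∈ (m s).divisors, (ArithmeticFunction.moebius d : ℂ) / d * f s d) / P -
        ∑ d ∈ (m s).divisors, (ArithmeticFunction.moebius d : ℂ) / d * g s d) * c * c' := by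
    rw [Finset.sum_div, ← Finset.sum_sub_distrib, Finset.sum_mul, Finset.sum_mul]
    refine Finset.sum_congr rfl fun d _ => ?_
    ring
  rw [h1]
  ring

end

section

variable {K : Type} [Field K] [CharZero K] (R₁ : Subring K) (a : (p : ℕ) → (R₁ →+* ZMod p) → ℤ)
  (b : IntermediateField K (AlgebraicClosure K) → ℕ → ℂ)
  (A : Type) [AddCommGroup A] [DistribMulAction Gal(AlgebraicClosure K/K) A] (U : Set ℂ)

/-- The sum over the points of the ring of `E`, in terms of the points of `R`. -/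
theorem sum_AE {L X : IntermediateField K (AlgebraicClosure K)} (hLX : L ≤ X)
    [FiniteDimensional K X] [IsGalois K X] (θ : ext hLX)
    (R : Subring L) (hfg : FG R) (hl : Large θ R)
    (hR₁ : ∀ x ∈ R₁, algebraMap K L x ∈ R) (p : ℕ) [Fact p.Prime] [Fintype (R →+* ZMod p)]
    (σ : (R →+* ZMod p) → Gal((ext hLX)/L))
    (hσ : ∀ y, ∀ (E : IntermediateField K (AlgebraicClosure K)) (hFE : L ≤ E)
      (_ : E ≤ X) (hRB : ∀ x ∈ R, (x : AlgebraicClosure K) ∈ BX R θ),
      Nat.card {z : AE (BX R θ) E →+* ZMod p // z.comp (toAE hFE R (BX R θ) hRB) = y} =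
        Nat.card {x : Gal((ext hLX)/L) ⧸ subG hLX E // σ y • x = x})
    (E : IntermediateField K (AlgebraicClosure K)) (hLE : L ≤ E) (hEX : E ≤ X)
    (h' : ∀ x ∈ R₁, algebraMap K E x ∈ AE (BX R θ) E) :
    (∑ᶠ z : AE (BX R θ) E →+* ZMod p, a p (restr R₁ (algebraMap K E) (AE (BX R θ) E) h' p z)) =
      ∑ y : R →+* ZMod p, (Nat.card {x : Gal((ext hLX)/L) ⧸ subG hLX E // σ y • x = x} : ℤ) *
        a p (restr R₁ (algebraMap K L) R hR₁ p y) := by
  have hRB : ∀ x ∈ R, (x : AlgebraicClosure K) ∈ BX R θ := fun x hx => coe_mem_BX _ hx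
  have fin1 := finite_hom hfg p
  have fin2 : Finite (AE (BX R θ) E →+* ZMod p) :=
    finite_hom (fg_AE hLX θ R hfg hl _ hLE hEX) p
  have h1 := finsum_fiber (toAE hLE R (BX R θ) hRB)
    (fun y => a p (restr R₁ (algebraMap K L) R hR₁ p y))
  simp only [restr_toAE R₁ hLE R (BX R θ) hRB hR₁ h' p] at h1
  rw [h1]
  refine Finset.sum_congr rfl fun y _ => ?_
  rw [hσ y E hLE hEX hRB]

variable {R₁ b}

theorem formulaIn_of_inert (hR₁ : FG R₁) (hb : Additive b) {C : Set ℂ} (hC : Convex ℝ C)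
    (N : ℕ → IntermediateField K (AlgebraicClosure K)) (hmono : Monotone N)
    [∀ i, FiniteDimensional K (N i)] [∀ i, IsGalois K (N i)]
    (L : IntermediateField K (AlgebraicClosure K))
    (h : ∀ s : Gal(AlgebraicClosure K/K), (∀ x ∈ L, s x = x) →
      ∃ i, L ≤ N i ∧ InertRk R₁ a b A U C (N i) s) : FormulaIn R₁ a b A U C L := by
  classical
  choose! lev hlev hin using h
  obtain ⟨T, X, hLX, α, finX, galX, hT, hNX, hα, hsum, hRG, hRB, hRR⟩ :=
    exists_data L N hmono lev hlev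
  have fin := finite_ext hLX
  have gal := galois_ext hLX
  have hLE : ∀ s ∈ T, ∀ d : ℕ, L ≤ fixIn (N (lev s)) (s ^ d) := fun s hs d =>
    le_fixIn (hlev s (hT s hs)) (pow_fix (hT s hs) d)
  have hEX : ∀ s ∈ T, ∀ d : ℕ, fixIn (N (lev s)) (s ^ d) ≤ X := fun s hs d =>
    (fixIn_le _ _).trans (hNX s hs)
  obtain ⟨θ, hθ⟩ := Field.exists_primitive_element L (ext hLX)
  obtain ⟨T₁, hT₁⟩ := exists_large θ hθ
  have stage := fun (s : Gal(AlgebraicClosure K/K)) (hs : s ∈ T) =>
    inert_stage R₁ a b A U hLX (hlev s (hT s hs)) (hNX s hs) θ hθ s (hT s hs) C (hin s (hT s hs))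
  choose! S hSfin hSX hS using stage
  obtain ⟨T₂, hT₂⟩ := large_set hLX θ hθ (⋃ s ∈ T, S s)
    (Set.Finite.biUnion (Finset.finite_toSet T) fun s hs => hSfin s hs) (by
      intro x hx
      obtain ⟨s, hs, hxs⟩ := Set.mem_iUnion₂.1 hx
      exact hSX s hs x hxs)
  obtain ⟨s₁, hs₁⟩ := hR₁
  refine ⟨Subring.closure ((T₁ ∪ T₂ ∪ s₁.image (algebraMap K L) : Finset L) : Set L),
    fg_closure _, ?_⟩
  intro R hR hle
  have hsub : ((T₁ ∪ T₂ ∪ s₁.image (algebraMap K L) : Finset L) : Set L) ⊆ R := fun x hx =>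
    hle (Subring.subset_closure hx)
  have hl : Large θ R := hT₁ R fun x hx => hsub (by
    simp only [Finset.coe_union, Set.mem_union]; tauto)
  have hgen := hT₂ R fun x hx => hsub (by
    simp only [Finset.coe_union, Set.mem_union]; tauto)
  have hR₁' : ∀ x ∈ R₁, algebraMap K L x ∈ R := by
    have h1 : R₁ ≤ R.comap (algebraMap K L) := by
      rw [← hs₁, Subring.closure_le]
      intro x hx
      change algebraMap K L x ∈ R
      apply hsub
      rw [Finset.coe_union, Finset.coe_image]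
      exact Or.inr ⟨x, hx, rfl⟩
    exact fun x hx => h1 hx
  have hmem : ∀ (E : IntermediateField K (AlgebraicClosure K)), ∀ x ∈ R₁,
      algebraMap K E x ∈ AE (BX R θ) E := by
    intro E x hx
    have h1 : (((algebraMap K L x : L) : AlgebraicClosure K)) ∈ BX R θ :=
      coe_mem_BX _ (hR₁' x hx)
    exact h1
  have key := fun (s : Gal(AlgebraicClosure K/K)) (hs : s ∈ T) => hS s hs R hR hl
    (fun x hx => hgen x (Set.mem_iUnion₂.2 ⟨s, hs, hx⟩)) (fun d => hmem _)
  choose! r e hr he hg using key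
  obtain ⟨r₁, hr₁, hrsum⟩ := hRR A r hr
  obtain ⟨e', he', hgood⟩ := Good.convex hC T α
    (fun s => ((ordIn (N (lev s)) s).totient : ℝ) / (ordIn (N (lev s)) s)) hα
    (fun s _ => by positivity) hsum _
    (fun s => ∑ d ∈ (ordIn (N (lev s)) s).divisors,
      (ArithmeticFunction.moebius d : ℂ) / d * (r s d : ℂ)) e he (by
      intro s hs
      have h1 := hg s hs
      push_cast
      exact h1)
  refine ⟨hR₁', r₁, e', hr₁, he', ?_⟩
  rw [hrsum] at hgood
  have heq : (fun (z : ℂ) (p : Nat.Primes) => ∑ s ∈ T, (α s : ℂ) *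
      ∑ d ∈ (ordIn (N (lev s)) s).divisors, (ArithmeticFunction.moebius d : ℂ) / d *
        gterm R₁ a (algebraMap K (fixIn (N (lev s)) (s ^ d))) (b (fixIn (N (lev s)) (s ^ d)))
          (AE (BX R θ) (fixIn (N (lev s)) (s ^ d))) (hmem _) z p) =
      gterm R₁ a (algebraMap K L) (b L) R hR₁' := by
    funext z p
    have hp : Fact (p : ℕ).Prime := ⟨p.2⟩
    have fin1 := finite_hom hR (p : ℕ)
    have := Fintype.ofFinite (R →+* ZMod p)
    choose σ hσ using fun y : R →+* ZMod p => count_AE hLX θ hθ R hl (p : ℕ) y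
    have hdim : ∀ E : IntermediateField K (AlgebraicClosure K), dim E = dim L := by
      intro E
      rw [dim_eq (K := K) (L := E), dim_eq (K := K) (L := L)]
    unfold gterm
    simp only [hdim]
    rw [lin_terms T (fun s => ordIn (N (lev s)) s) (fun s => (α s : ℂ)) (fun s d =>
      ((∑ᶠ z : AE (BX R θ) (fixIn (N (lev s)) (s ^ d)) →+* ZMod p, a p (restr R₁
        (algebraMap K (fixIn (N (lev s)) (s ^ d))) (AE (BX R θ) (fixIn (N (lev s)) (s ^ d)))
          (hmem _) p z) : ℤ) : ℂ)) (fun s d => b (fixIn (N (lev s)) (s ^ d)) p)]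
    have h2 := hRB b hb p
    simp only at h2
    rw [h2]
    have h3 : ∑ s ∈ T, (α s : ℂ) * ∑ d ∈ (ordIn (N (lev s)) s).divisors,
        (ArithmeticFunction.moebius d : ℂ) / d *
        ((∑ᶠ z : AE (BX R θ) (fixIn (N (lev s)) (s ^ d)) →+* ZMod p, a p (restr R₁
        (algebraMap K (fixIn (N (lev s)) (s ^ d))) (AE (BX R θ) (fixIn (N (lev s)) (s ^ d)))
          (hmem _) p z) : ℤ) : ℂ) =
        ((∑ᶠ y : R →+* ZMod p, a p (restr R₁ (algebraMap K L) R hR₁' p y) : ℤ) : ℂ) := by
      have h4 : ∀ s ∈ T, (α s : ℂ) * ∑ d ∈ (ordIn (N (lev s)) s).divisors,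
          (ArithmeticFunction.moebius d : ℂ) / d *
          ((∑ᶠ z : AE (BX R θ) (fixIn (N (lev s)) (s ^ d)) →+* ZMod p, a p (restr R₁
          (algebraMap K (fixIn (N (lev s)) (s ^ d))) (AE (BX R θ) (fixIn (N (lev s)) (s ^ d)))
            (hmem _) p z) : ℤ) : ℂ) = ∑ y : R →+* ZMod p, ((α s : ℂ) *
              ∑ d ∈ (ordIn (N (lev s)) s).divisors, (ArithmeticFunction.moebius d : ℂ) / d *
              (Nat.card {x : Gal((ext hLX)/L) ⧸ subG hLX (fixIn (N (lev s)) (s ^ d)) //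
                σ y • x = x} : ℂ)) * (a p (restr R₁ (algebraMap K L) R hR₁' p y) : ℂ) := by
        intro s hs
        have h5 : ∀ d ∈ (ordIn (N (lev s)) s).divisors, (ArithmeticFunction.moebius d : ℂ) / d *
            ((∑ᶠ z : AE (BX R θ) (fixIn (N (lev s)) (s ^ d)) →+* ZMod p, a p (restr R₁
            (algebraMap K (fixIn (N (lev s)) (s ^ d))) (AE (BX R θ) (fixIn (N (lev s)) (s ^ d)))
            (hmem _) p z) : ℤ) : ℂ) = ∑ y : R →+* ZMod p,
              (ArithmeticFunction.moebius d : ℂ) / d *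
              (Nat.card {x : Gal((ext hLX)/L) ⧸ subG hLX (fixIn (N (lev s)) (s ^ d)) //
                σ y • x = x} : ℂ) * (a p (restr R₁ (algebraMap K L) R hR₁' p y) : ℂ) := by
          intro d _
          rw [sum_AE R₁ a hLX θ R hR hl hR₁' p σ hσ _ (hLE s hs d) (hEX s hs d) (hmem _)]
          push_cast
          rw [Finset.mul_sum]
          exact Finset.sum_congr rfl fun y _ => (mul_assoc _ _ _).symm
        rw [Finset.sum_congr rfl h5, Finset.sum_comm, Finset.mul_sum]
        refine Finset.sum_congr rfl fun y _ => ?_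
        rw [← Finset.sum_mul, mul_assoc]
      rw [Finset.sum_congr rfl h4, Finset.sum_comm, finsum_eq_sum_of_fintype, Int.cast_sum]
      refine Finset.sum_congr rfl fun y _ => ?_
      rw [← Finset.sum_mul]
      have h5 := hRG (σ y)
      simp only at h5
      rw [h5, one_mul]
    rw [h3]
  rw [heq] at hgood
  exact hgood

end

end Pool.Agent.MP_3d3918
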