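import Pool.Agent.Lib.MP_3d3918_nt.Inert.Conv

/-!
# The partition, on the level of the finite group
-/

set_option autoImplicit false

open Polynomial

namespace Pool.Agent.MP_3d3918

section

variable {K : Type} [Field K] {L X : IntermediateField K (AlgebraicClosure K)}
  (hLX : L ≤ X)

theorem resG_liftG [Normal K X] (g : Gal((ext hLX)/L)) :
    resG hLX (liftG hLX g) (liftG_fix hLX g) = g := by
  apply gal_ext
  intro x
  rw [resG_apply, liftG_apply]

theorem inv_fix {x : Gal(AlgebraicClosure K/K)} (hx : ∀ z ∈ L, x z = z) : ∀ z ∈ L, x⁻¹ z = z := by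
  intro z hz
  have h5 := hx z hz
  calc x⁻¹ z = x⁻¹ (x z) := by rw [h5]
    _ = z := x.symm_apply_apply _

theorem conj_fix {x g : Gal(AlgebraicClosure K/K)} (hx : ∀ z ∈ L, x z = z)
    (hg : ∀ z ∈ L, g z = z) : ∀ z ∈ L, (x⁻¹ * g * x) z = z := by
  intro z hz
  change x⁻¹ (g (x z)) = z
  rw [hx z hz, hg z hz, inv_fix hx z hz]

theorem resG_conj [Normal K X] {x g : Gal(AlgebraicClosure K/K)} (hx : ∀ z ∈ L, x z = z)
    (hg : ∀ z ∈ L, g z = z) :
    resG hLX (x⁻¹ * g * x) (conj_fix hx hg) =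
      (resG hLX x hx)⁻¹ * resG hLX g hg * resG hLX x hx := by
  have h1 : resG hLX x hx * resG hLX (x⁻¹ * g * x) (conj_fix hx hg) =
      resG hLX g hg * resG hLX x hx := by
    apply gal_ext
    intro z
    rw [AlgEquiv.mul_apply, AlgEquiv.mul_apply, resG_apply, resG_apply, resG_apply, resG_apply]
    change x (x⁻¹ (g (x z))) = g (x z)
    exact x.apply_symm_apply _
  have h2 : (resG hLX x hx)⁻¹ * resG hLX g hg * resG hLX x hx =
      (resG hLX x hx)⁻¹ * (resG hLX g hg * resG hLX x hx) := mul_assoc _ _ _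
  rw [h2, ← h1, inv_mul_cancel_left]

variable [CharZero K]

theorem cov_iff [FiniteDimensional K X] [Normal K X] {N : IntermediateField K (AlgebraicClosure K)}
    [Normal K N] [FiniteDimensional K N] (hLN : L ≤ N) (hNX : N ≤ X)
    (s : Gal(AlgebraicClosure K/K)) (hs : ∀ x ∈ L, s x = x) (g : Gal((ext hLX)/L))
    [(subG hLX N).Normal] :
    Cov L N s (liftG hLX g) ↔ ∃ x : Gal((ext hLX)/L),
      WG (subG hLX N) (x⁻¹ * g * x) 1 = WG (subG hLX N) (resG hLX s hs) 1 := by
  constructor
  · rintro ⟨x, hx, hxg⟩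
    refine ⟨resG hLX x hx, ?_⟩
    have h1 := resG_conj hLX hx (liftG_fix hLX g)
    rw [resG_liftG] at h1
    rw [← h1, WG_eq_subG hLX hNX, WG_eq_subG hLX hNX, pow_one, pow_one, hxg]
  · rintro ⟨x, hx⟩
    refine ⟨liftG hLX x, liftG_fix hLX x, ?_⟩
    have h1 := resG_conj hLX (liftG_fix hLX x) (liftG_fix hLX g)
    rw [resG_liftG, resG_liftG] at h1
    rw [← h1, WG_eq_subG hLX hNX, WG_eq_subG hLX hNX, pow_one, pow_one] at hx
    exact subG_inj hLX (le_fixIn hLN (conj_fix (liftG_fix hLX x) (liftG_fix hLX g)))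
      ((fixIn_le _ _).trans hNX) (le_fixIn hLN hs) ((fixIn_le _ _).trans hNX) hx

end

section

/-- Grouping the terms of a sum over subgroups. -/
theorem group_sum {G ι R : Type} [Group G] [CommRing R] [DecidableEq (Subgroup G)] (I : Finset ι)
    (W : ι → Subgroup G) (n : ι → ℤ) (f : Subgroup G → R) :
    ∑ H ∈ I.image W, ((∑ i ∈ I.filter (fun i => W i = H), n i : ℤ) : R) * f H =
      ∑ i ∈ I, (n i : R) * f (W i) := by
  rw [← Finset.sum_fiberwise_of_maps_to (t := I.image W) (g := W)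
    (fun i hi => Finset.mem_image_of_mem W hi)]
  refine Finset.sum_congr rfl fun H _ => ?_
  rw [Int.cast_sum, Finset.sum_mul]
  refine Finset.sum_congr rfl fun i hi => ?_
  rw [Finset.mem_filter] at hi
  rw [hi.2]

end

section

variable {K : Type} [Field K] [CharZero K] (R₁ : Subring K) (a : (p : ℕ) → (R₁ →+* ZMod p) → ℤ)
  (b : IntermediateField K (AlgebraicClosure K) → ℕ → ℂ)
  (A : Type) [AddCommGroup A] [DistribMulAction Gal(AlgebraicClosure K/K) A] (U : Set ℂ)

theorem iterm_eq' {F X N : IntermediateField K (AlgebraicClosure K)} (hFX : F ≤ X)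
    [FiniteDimensional K X] [IsGalois K X] [Normal K N]
    [FiniteDimensional K N] (hNX : N ≤ X) (s : Gal(AlgebraicClosure K/K)) (hsF : fixIn N s = F)
    (θ : ext hFX) (hθ : IntermediateField.adjoin F {θ} = ⊤) (t : ext hFX)
    (ht : (IntermediateField.adjoin F {(t : AlgebraicClosure K)}).restrictScalars K = N)
    (R : Subring F) (hfg : FG R) (hl : Large θ R) (B : Subring (AlgebraicClosure K))
    (hB : BX R θ = B) (htB : (t : AlgebraicClosure K) ∈ B)
    (htu : ∀ g : Gal((ext hFX)/F), g t ≠ t →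
      (((g t - t)⁻¹ : ext hFX) : AlgebraicClosure K) ∈ B)
    (hc : ∀ n, (minpoly F (t : AlgebraicClosure K)).coeff n ∈ R)
    (h : ∀ x ∈ R₁, algebraMap K F x ∈ R)
    (h' : ∀ d : ℕ, ∀ x ∈ R₁, algebraMap K (fixIn N (s ^ d)) x ∈ AE B (fixIn N (s ^ d)))
    (z : ℂ) (p : Nat.Primes) :
    iterm R₁ a (algebraMap K F) (minpoly F (t : AlgebraicClosure K))
      (fun p => ∑ d ∈ (ordIn N s).divisors,
        (ArithmeticFunction.moebius d : ℂ) / d * b (fixIn N (s ^ d)) p) R h z p =
    ∑ d ∈ (ordIn N s).divisors, (ArithmeticFunction.moebius d : ℂ) / d *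
      gterm R₁ a (algebraMap K (fixIn N (s ^ d))) (b (fixIn N (s ^ d)))
        (AE B (fixIn N (s ^ d))) (h' d) z p := by
  subst hB
  exact iterm_eq R₁ a b hFX hNX s hsF θ hθ t ht R hfg hl htB htu hc h h' z p

/-- One automorphism and one level, for the rings of a larger extension. -/
theorem inert_stage {L X N : IntermediateField K (AlgebraicClosure K)} (hLX : L ≤ X)
    [FiniteDimensional K X] [IsGalois K X] [Normal K N] [FiniteDimensional K N] (hLN : L ≤ N)
    (hNX : N ≤ X) (θ : ext hLX) (hθ : IntermediateField.adjoin L {θ} = ⊤)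
    (s : Gal(AlgebraicClosure K/K)) (hs : ∀ x ∈ L, s x = x) (C : Set ℂ)
    (h : InertRk R₁ a b A U C N s) :
    ∃ S : Set (AlgebraicClosure K), S.Finite ∧ (∀ x ∈ S, x ∈ X) ∧ ∀ R : Subring L, FG R →
      Large θ R → (∀ x ∈ S, x ∈ BX R θ) →
      ∀ h' : ∀ d : ℕ, ∀ x ∈ R₁, algebraMap K (fixIn N (s ^ d)) x ∈
        AE (BX R θ) (fixIn N (s ^ d)),
      ∃ (r : ℕ → ℕ) (e : ℂ), (∀ d ∈ (ordIn N s).divisors,
        Module.rank ℤ (inv A (fixIn N (s ^ d))) = r d) ∧ e ∈ C ∧
        Good U (fun z p => ∑ d ∈ (ordIn N s).divisors, (ArithmeticFunction.moebius d : ℂ) / d *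
          gterm R₁ a (algebraMap K (fixIn N (s ^ d))) (b (fixIn N (s ^ d)))
            (AE (BX R θ) (fixIn N (s ^ d))) (h' d) z p)
          (∑ d ∈ (ordIn N s).divisors, (ArithmeticFunction.moebius d : ℂ) / d * r d -
            (ordIn N s).totient / (ordIn N s) * e) := by
  classical
  obtain ⟨t, ht, R₀, ⟨s₀, hs₀⟩, hform⟩ := h
  have hLF : L ≤ fixIn N s := le_fixIn hLN hs
  have hFX : fixIn N s ≤ X := (fixIn_le N s).trans hNX
  have fin := finite_ext hFX
  have gal := galois_ext hFX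
  let θF : ext hFX := ⟨θ.1, θ.2⟩
  have hθF : IntermediateField.adjoin (fixIn N s) {θF} = ⊤ := by
    rw [eq_top_iff]
    intro x _
    have h1 : (x : AlgebraicClosure K) ∈ IntermediateField.adjoin L {(θ : AlgebraicClosure K)} := by
      have h2 : (x : AlgebraicClosure K) ∈
          (IntermediateField.adjoin L {(θ : AlgebraicClosure K)}).restrictScalars K := by
        rw [adjoin_coe hLX θ hθ]
        exact x.2
      exact h2
    have h2 : IntermediateField.adjoin L {(θ : AlgebraicClosure K)} ≤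
        IntermediateField.extendScalars (show L ≤ ((IntermediateField.adjoin (fixIn N s)
          {θF}).map (ext hFX).val).restrictScalars K by
            intro z hz
            exact ⟨algebraMap (fixIn N s) (ext hFX) ⟨z, hLF hz⟩,
              IntermediateField.algebraMap_mem _ _, rfl⟩) := by
      rw [IntermediateField.adjoin_le_iff]
      intro w hw
      rw [Set.mem_singleton_iff.1 hw]
      exact ⟨θF, IntermediateField.mem_adjoin_simple_self _ _, rfl⟩
    obtain ⟨y, hy, hyx⟩ := h2 h1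
    have h3 : y = x := Subtype.ext hyx
    rw [← h3]
    exact hy
  have htN : t ∈ N := by
    have h1 : t ∈ (IntermediateField.adjoin (fixIn N s) {t}).restrictScalars K := by
      rw [IntermediateField.mem_restrictScalars]
      exact IntermediateField.mem_adjoin_simple_self _ t
    rw [ht] at h1
    exact h1
  let tX : ext hFX := ⟨t, hNX htN⟩
  obtain ⟨T₁, hT₁⟩ := exists_large θF hθF
  let c : fixIn N s → AlgebraicClosure K := fun x => (x : AlgebraicClosure K)
  refine ⟨c '' (T₁ : Set (fixIn N s)) ∪ c '' (s₀ : Set (fixIn N s)) ∪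
    c '' ((minpoly (fixIn N s) t).coeffs : Set (fixIn N s)) ∪ {t} ∪
    Set.range (fun g : Gal((ext hFX)/(fixIn N s)) =>
      (((g tX - tX)⁻¹ : ext hFX) : AlgebraicClosure K)), ?_, ?_, ?_⟩
  · exact (((((Finset.finite_toSet _).image _).union ((Finset.finite_toSet _).image _)).union
      ((Finset.finite_toSet _).image _)).union (Set.finite_singleton _)).union (Set.finite_range _)
  · rintro x ((((⟨y, _, rfl⟩ | ⟨y, _, rfl⟩) | ⟨y, _, rfl⟩) | hx) | ⟨g, rfl⟩)
    · exact hFX y.2
    · exact hFX y.2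
    · exact hFX y.2
    · rw [Set.mem_singleton_iff.1 hx]
      exact hNX htN
    · exact ((g tX - tX)⁻¹ : ext hFX).2
  · intro R hfg hl hS h'
    let R' : Subring (fixIn N s) := AE (BX R θ) (fixIn N s)
    have hfg' : FG R' := fg_AE hLX θ R hfg hl _ hLF hFX
    have hle : R₀ ≤ R' := by
      rw [← hs₀, Subring.closure_le]
      intro x hx
      exact hS _ (Or.inl (Or.inl (Or.inl (Or.inr ⟨x, hx, rfl⟩))))
    obtain ⟨h1, r, e, hr, he, hg⟩ := hform R' hfg' hle
    refine ⟨r, e, hr, he, ?_⟩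
    have hB : BX R' (θF : AlgebraicClosure K) = BX R θ := BX_AE hLF R θ
    have heq : (fun (z : ℂ) (p : Nat.Primes) => ∑ d ∈ (ordIn N s).divisors,
        (ArithmeticFunction.moebius d : ℂ) / d *
          gterm R₁ a (algebraMap K (fixIn N (s ^ d))) (b (fixIn N (s ^ d)))
            (AE (BX R θ) (fixIn N (s ^ d))) (h' d) z p) =
        iterm R₁ a (algebraMap K (fixIn N s)) (minpoly (fixIn N s) t)
          (fun p => ∑ d ∈ (ordIn N s).divisors,
            (ArithmeticFunction.moebius d : ℂ) / d * b (fixIn N (s ^ d)) p) R' h1 := by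
      funext z p
      refine (iterm_eq' R₁ a b hFX hNX s rfl θF hθF tX ht R' hfg' (hT₁ R' ?_) (BX R θ) hB ?_ ?_ ?_
        h1 h' z p).symm
      · intro x hx
        exact hS _ (Or.inl (Or.inl (Or.inl (Or.inl ⟨x, hx, rfl⟩))))
      · exact hS _ (Or.inl (Or.inr rfl))
      · intro g _
        exact hS _ (Or.inr ⟨g, rfl⟩)
      · intro n
        by_cases hn : (minpoly (fixIn N s) t).coeff n = 0
        · change (minpoly (fixIn N s) t).coeff n ∈ R'
          rw [hn]
          exact zero_mem R'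
        · exact hS _ (Or.inl (Or.inl (Or.inr ⟨_, Polynomial.coeff_mem_coeffs hn, rfl⟩)))
    rw [heq]
    exact hg

end

end Pool.Agent.MP_3d3918
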