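import Pool.Agent.Lib.MP_3d3918_nt.Count
import Pool.Agent.Lib.MP_3d3918_nt.Inert.Group

/-!
# Frobenius elements and irreducible polynomials
-/

set_option autoImplicit false

open Polynomial

namespace Pool.Agent.MP_3d3918

section

variable {R B G : Type} [CommRing R] [CommRing B] [Group G] [Finite G] [MulSemiringAction G B]

/-- The number of the points above `y`, for all subgroups at the same time, and the Frobenius. -/
theorem count_frob (i : R →+* B) (hi : Function.Injective i)
    (hiG : ∀ b, (∀ g : G, g • b = b) ↔ b ∈ i.range) (θ : B)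
    (hθ : Subring.closure (Set.range i ∪ {θ}) = ⊤)
    (hu : ∀ g h : G, g ≠ h → IsUnit (g • θ - h • θ)) (p : ℕ) [Fact p.Prime] (y : R →+* ZMod p) :
    ∃ (σ : G) (φ : B →+* AlgebraicClosure (ZMod p)),
      (∀ r, φ (i r) = algebraMap (ZMod p) (AlgebraicClosure (ZMod p)) (y r)) ∧
      (∀ b, φ b ^ p = φ (σ • b)) ∧ ∀ (H : Subgroup G) (A : Type) (_ : CommRing A) (j : A →+* B)
      (_ : Function.Injective j) (_ : ∀ b, (∀ g ∈ H, g • b = b) ↔ b ∈ j.range)
      (i' : R →+* A) (_ : j.comp i' = i),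
      Nat.card {z : A →+* ZMod p // z.comp i' = y} = Nat.card {x : G ⧸ H // σ • x = x} := by
  classical
  let Ω := AlgebraicClosure (ZMod p)
  let ι : ZMod p →+* Ω := algebraMap (ZMod p) Ω
  have hchar : CharP Ω p := charP_of_injective_algebraMap ι.injective p
  have hext : ∀ (φ ψ : B →+* Ω), (∀ r, φ (i r) = ψ (i r)) → φ θ = ψ θ → φ = ψ := by
    intro φ ψ h1 h2
    apply RingHom.eq_of_eqOn_set_dense hθ
    rintro b (⟨r, rfl⟩ | hb)
    · exact h1 r
    · rw [Set.mem_singleton_iff.1 hb]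
      exact h2
  have hfixi : ∀ (g : G) (r : R), g • i r = i r := fun g r => (hiG _).2 ⟨r, rfl⟩ g
  -- the point
  obtain ⟨φ₀, hφ₀⟩ : ∃ φ₀ : B →+* Ω, ∀ r, φ₀ (i r) = ι (y r) := by
    let _ : Algebra R B := i.toAlgebra
    have hinv : Algebra.IsInvariant R B G := ⟨fun b hb => (hiG b).1 hb⟩
    have hsm : SMulCommClass G R B := ⟨fun g r b => by
      rw [Algebra.smul_def, Algebra.smul_def, smul_mul']
      congr 1
      exact hfixi g r⟩
    have hint : Algebra.IsIntegral R B := Algebra.IsInvariant.isIntegral R B G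
    obtain ⟨φ, hφ⟩ := exists_extension hi (ι.comp y)
    exact ⟨φ, fun r => congrArg (fun f => f r) hφ⟩
  -- the homomorphisms
  let F : G → (B →+* Ω) := fun g => φ₀.comp (MulSemiringAction.toRingHom G B g)
  have hF : ∀ g b, F g b = φ₀ (g • b) := fun g b => rfl
  have hFi : ∀ g r, F g (i r) = ι (y r) := by
    intro g r
    rw [hF, hfixi, hφ₀]
  have hFinj : ∀ g h, F g θ = F h θ → g = h := by
    intro g h hgh
    by_contra hne
    have h1 := (hu g h hne).map φ₀
    rw [map_sub, ← hF, ← hF, hgh, sub_self] at h1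
    exact not_isUnit_zero h1
  -- Frobenius
  obtain ⟨σ, hσ⟩ : ∃ σ : G, ∀ b, (φ₀ b) ^ p = φ₀ (σ • b) := by
    let φ₁ : B →+* Ω := (frobenius Ω p).comp φ₀
    obtain ⟨σ, -, hσ⟩ := exists_smul_of_agree (⊤ : Subgroup G) φ₀ φ₁ (by
      intro b hb
      obtain ⟨r, rfl⟩ := (hiG b).1 (fun g => hb g (Subgroup.mem_top g))
      change (φ₀ (i r)) ^ p = φ₀ (i r)
      rw [hφ₀, comp_pow]) θ
    refine ⟨σ, fun b => ?_⟩
    have h1 : φ₁ = F σ := by
      apply hext
      · intro r
        rw [hFi]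
        change (φ₀ (i r)) ^ p = _
        rw [hφ₀, comp_pow]
      · exact hσ
    exact congrArg (fun f => f b) h1
  refine ⟨σ, φ₀, hφ₀, hσ, ?_⟩
  intro H A _ j hj hjH i' hi'
  have hfixj : ∀ h ∈ H, ∀ a, h • j a = j a := fun h hh a => (hjH _).2 ⟨a, rfl⟩ h hh
  -- cosets
  have hcos : ∀ g g' : G, (∀ a, F g (j a) = F g' (j a)) ↔ (g : G ⧸ H) = (g' : G ⧸ H) := by
    intro g g'
    rw [QuotientGroup.eq]
    constructor
    · intro h
      obtain ⟨k, hk, hk'⟩ := exists_smul_of_agree H (F g) (F g') (by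
        intro b hb
        obtain ⟨a, rfl⟩ := (hjH b).1 hb
        exact (h a).symm) θ
      rw [hF g, smul_smul, ← hF] at hk'
      have := hFinj _ _ hk'
      rw [this, inv_mul_cancel_left]
      exact hk
    · intro h a
      have h1 : g' = g * (g⁻¹ * g') := by group
      rw [hF, hF, h1, mul_smul, hfixj _ h]
  -- every homomorphism comes from the group
  have hall : ∀ z : A →+* Ω, (∀ r, z (i' r) = ι (y r)) → ∃ g, ∀ a, z a = F g (j a) := by
    intro z hz
    let _ : Algebra A B := j.toAlgebra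
    have hinv : Algebra.IsInvariant A B H := ⟨fun b hb => (hjH b).1 (fun g hg => hb ⟨g, hg⟩)⟩
    have hsm : SMulCommClass H A B := ⟨fun g r b => by
      rw [Algebra.smul_def, Algebra.smul_def, smul_mul']
      congr 1
      exact hfixj g.1 g.2 r⟩
    have hint : Algebra.IsIntegral A B := Algebra.IsInvariant.isIntegral A B H
    obtain ⟨φ, hφ⟩ := exists_extension hj z
    obtain ⟨g, -, hg⟩ := exists_smul_of_agree (⊤ : Subgroup G) φ₀ φ (by
      intro b hb
      obtain ⟨r, rfl⟩ := (hiG b).1 (fun g => hb g (Subgroup.mem_top g))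
      rw [hφ₀, ← hz, ← hφ, ← hi']
      rfl) θ
    have h1 : φ = F g := by
      apply hext
      · intro r
        rw [hFi, ← hz, ← hφ, ← hi']
        rfl
      · exact hg
    refine ⟨g, fun a => ?_⟩
    rw [← h1, ← hφ]
    rfl
  choose c hc using fun z : {z : A →+* ZMod p // z.comp i' = y} =>
    hall (ι.comp z.1) (fun r => congrArg (fun f => ι (f r)) z.2)
  have hcfix : ∀ z, σ • ((c z : G) : G ⧸ H) = (c z : G ⧸ H) := by
    intro z
    change ((σ * c z : G) : G ⧸ H) = _
    rw [← hcos]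
    intro a
    rw [hF, mul_smul, ← hσ, ← hF, ← hc z, RingHom.comp_apply, comp_pow]
  refine Nat.card_congr (Equiv.ofBijective (fun z => ⟨(c z : G ⧸ H), hcfix z⟩) ⟨?_, ?_⟩)
  · intro z z' h
    have h1 := (hcos _ _).2 (congrArg Subtype.val h)
    apply Subtype.ext
    ext a
    apply ι.injective
    have h2 := hc z a
    have h3 := hc z' a
    rw [h1 a, ← h3] at h2
    exact h2
  · rintro ⟨x, hx⟩
    obtain ⟨g, rfl⟩ := QuotientGroup.mk_surjective x
    have h1 : ∀ a, (F g (j a)) ^ p = F g (j a) := by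
      have h2 := (hcos (σ * g) g).2 hx
      intro a
      rw [hF, hσ, ← mul_smul, ← hF, h2 a, hF]
    obtain ⟨z, hz⟩ := exists_factor p ι ((F g).comp j) h1
    have hz' : ∀ a, ι (z a) = F g (j a) := fun a => congrArg (fun f => f a) hz
    refine ⟨⟨z, ?_⟩, ?_⟩
    · ext r
      apply ι.injective
      have h3 : j (i' r) = i r := congrArg (fun f => f r) hi'
      rw [RingHom.comp_apply, hz', h3, hFi]
    · apply Subtype.ext
      change (c ⟨z, _⟩ : G ⧸ H) = (g : G ⧸ H)
      rw [← hcos]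
      intro a
      rw [← hc, ← hz']
      rfl


section irreducible

variable (M : Subgroup G) [M.Normal] (t : B) (htM : ∀ g ∈ M, g • t = t)
  (htu : ∀ g : G, g ∉ M → IsUnit (g • t - t)) (p : ℕ) [Fact p.Prime] (σ : G)
  (φ : B →+* AlgebraicClosure (ZMod p)) (hσ : ∀ b, φ b ^ p = φ (σ • b))

include hσ in
omit [Finite G] in
theorem frob_pow (b : B) (k : ℕ) : φ b ^ p ^ k = φ (σ ^ k • b) := by
  induction k with
  | zero => simp
  | succ k ih => rw [pow_succ, pow_mul, ih, hσ, ← mul_smul, ← pow_succ']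

include htM htu hσ in
omit [Finite G] in
theorem frob_fix_iff (k : ℕ) : φ t ^ p ^ k = φ t ↔ (σ : G ⧸ M) ^ k = 1 := by
  rw [frob_pow p σ φ hσ, ← QuotientGroup.mk_pow, QuotientGroup.eq_one_iff]
  constructor
  · intro h
    by_contra h1
    have h2 := (htu _ h1).map φ
    rw [map_sub, h, sub_self] at h2
    exact not_isUnit_zero h2
  · intro h
    rw [htM _ h]

include htM htu hσ in
omit [Finite G] in
theorem natDegree_minpoly_frob : (minpoly (ZMod p) (φ t)).natDegree = orderOf (σ : G ⧸ M) := by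
  have hint : IsIntegral (ZMod p) (φ t) := Algebra.IsIntegral.isIntegral _
  have h1 := IntermediateField.adjoin.finrank hint
  have hfd : FiniteDimensional (ZMod p) (IntermediateField.adjoin (ZMod p) {φ t}) :=
    IntermediateField.adjoin.finiteDimensional hint
  have hfin : Finite (IntermediateField.adjoin (ZMod p) {φ t}) :=
    Module.finite_of_finite (ZMod p)
  rw [← h1, ← FiniteField.orderOf_frobeniusAlgHom, orderOf_eq_orderOf_iff]
  intro k
  rw [← frob_fix_iff M t htM htu p σ φ hσ k]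
  have h2 : ∀ x : IntermediateField.adjoin (ZMod p) {φ t},
      (FiniteField.frobeniusAlgHom (ZMod p) (IntermediateField.adjoin (ZMod p) {φ t}) ^ k) x =
        x ^ p ^ k := by
    intro x
    rw [AlgHom.coe_pow, FiniteField.coe_frobeniusAlgHom, pow_iterate, ZMod.card]
  constructor
  · intro h
    have h3 := h2 (IntermediateField.AdjoinSimple.gen (ZMod p) (φ t))
    rw [h, AlgHom.one_apply] at h3
    have h4 := congrArg Subtype.val h3
    exact h4.symm
  · intro h
    apply IntermediateField.adjoin_algHom_ext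
    intro x hx
    rw [h2, AlgHom.one_apply]
    apply Subtype.ext
    have h3 : (x : AlgebraicClosure (ZMod p)) = φ t := hx
    change (x : AlgebraicClosure (ZMod p)) ^ p ^ k = x
    rw [h3, h]

include htM htu hσ in
/-- The reduction of the minimal polynomial is irreducible if and only if the Frobenius is a
generator. -/
theorem irreducible_iff (i : R →+* B) (y : R →+* ZMod p)
    (hφ : ∀ r, φ (i r) = algebraMap (ZMod p) (AlgebraicClosure (ZMod p)) (y r)) (P : R[X])
    (hP : P.Monic) (s : G) (hs : ∀ g : G, (g : G ⧸ M) ∈ Subgroup.zpowers (s : G ⧸ M))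
    (hdeg : P.natDegree = orderOf (s : G ⧸ M)) (hroot : P.eval₂ i t = 0) :
    Irreducible (P.map y) ↔ Subgroup.zpowers (σ : G ⧸ M) = Subgroup.zpowers (s : G ⧸ M) := by
  have h0 := natDegree_minpoly_frob M t htM htu p σ φ hσ
  have h1 : aeval (φ t) (P.map y) = 0 := by
    rw [aeval_def, eval₂_map]
    have h2 : (algebraMap (ZMod p) (AlgebraicClosure (ZMod p))).comp y = φ.comp i := by
      ext r
      exact (hφ r).symm
    rw [h2, ← Polynomial.hom_eval₂, hroot, map_zero]
  have h2 : (P.map y).Monic := hP.map y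
  have h3 : (P.map y).natDegree = orderOf (s : G ⧸ M) := by
    rw [hP.natDegree_map, hdeg]
  have hint : IsIntegral (ZMod p) (φ t) := Algebra.IsIntegral.isIntegral _
  constructor
  · intro h
    have h4 := minpoly.eq_of_irreducible_of_monic h h1 h2
    rw [← h4, h3] at h0
    refine Subgroup.eq_of_le_of_card_ge ?_ ?_
    · rw [Subgroup.zpowers_le]
      exact hs σ
    · rw [Nat.card_zpowers, Nat.card_zpowers, h0]
  · intro h
    have h4 : orderOf (σ : G ⧸ M) = orderOf (s : G ⧸ M) := by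
      rw [← Nat.card_zpowers, h, Nat.card_zpowers]
    have h5 := Polynomial.eq_of_monic_of_dvd_of_natDegree_le (minpoly.monic hint) h2
      (minpoly.dvd (ZMod p) (φ t) h1) (by rw [h3, h0, h4])
    rw [h5]
    exact minpoly.irreducible hint

end irreducible

/-- The indicator function of the inert points. -/
theorem inert_indicator (i : R →+* B) (hi : Function.Injective i)
    (hiG : ∀ b, (∀ g : G, g • b = b) ↔ b ∈ i.range) (θ : B)
    (hθ : Subring.closure (Set.range i ∪ {θ}) = ⊤)
    (hu : ∀ g h : G, g ≠ h → IsUnit (g • θ - h • θ)) (M : Subgroup G) [M.Normal] (s : G)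
    (hs : ∀ g : G, (g : G ⧸ M) ∈ Subgroup.zpowers (s : G ⧸ M)) (t : B)
    (htM : ∀ g ∈ M, g • t = t) (htu : ∀ g : G, g ∉ M → IsUnit (g • t - t)) (P : R[X])
    (hP : P.Monic) (hdeg : P.natDegree = orderOf (s : G ⧸ M)) (hroot : P.eval₂ i t = 0)
    (A : ℕ → Type) [∀ d, CommRing (A d)] (j : (d : ℕ) → A d →+* B)
    (hj : ∀ d, Function.Injective (j d))
    (hjA : ∀ d ∈ (orderOf (s : G ⧸ M)).divisors,
      ∀ b, (∀ g ∈ WG M s d, g • b = b) ↔ b ∈ (j d).range)
    (i' : (d : ℕ) → R →+* A d) (hi' : ∀ d, (j d).comp (i' d) = i)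
    (p : ℕ) [Fact p.Prime] (y : R →+* ZMod p) [Decidable (Irreducible (P.map y))] :
    ∑ d ∈ (orderOf (s : G ⧸ M)).divisors, (ArithmeticFunction.moebius d : ℂ) / d *
      (Nat.card {z : A d →+* ZMod p // z.comp (i' d) = y} : ℂ) =
      if Irreducible (P.map y) then 1 else 0 := by
  classical
  obtain ⟨σ, φ, hφ, hσ, hc⟩ := count_frob i hi hiG θ hθ hu p y
  have hirr := irreducible_iff M t htM htu p σ φ hσ i y hφ P hP s hs hdeg hroot
  have htop : WG M s 1 = ⊤ := by
    rw [eq_top_iff]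
    intro g _
    rw [mem_WG, pow_one]
    exact hs g
  have h1 : ∀ d ∈ (orderOf (s : G ⧸ M)).divisors, (ArithmeticFunction.moebius d : ℂ) / d *
      (Nat.card {z : A d →+* ZMod p // z.comp (i' d) = y} : ℂ) =
      (Nat.card G : ℂ)⁻¹ * (((ArithmeticFunction.moebius d : ℤ) * (Nat.card (WG M s d) : ℤ) *
        (Nat.card {x : G ⧸ WG M s d // σ • x = x} : ℤ) : ℤ) : ℂ) := by
    intro d hd
    rw [hc (WG M s d) (A d) inferInstance (j d) (hj d) (hjA d hd) (i' d) (hi' d)]
    have h2 := card_WG_mul M s d hd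
    rw [htop, Nat.card_congr Subgroup.topEquiv.toEquiv] at h2
    have h3 : (d : ℂ) ≠ 0 := by
      exact_mod_cast (Nat.pos_of_mem_divisors hd).ne'
    have h4 : (Nat.card G : ℂ) ≠ 0 := by
      exact_mod_cast Nat.card_pos.ne'
    have h5 : (Nat.card (WG M s d) : ℂ) * d = Nat.card G := by
      exact_mod_cast h2
    push_cast
    rw [← h5]
    have h6 : (Nat.card (WG M s d) : ℂ) ≠ 0 := by
      exact_mod_cast Nat.card_pos.ne'
    field_simp
  rw [Finset.sum_congr rfl h1, ← Finset.mul_sum, ← Int.cast_sum, sum_perm]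
  have h4 : (Nat.card G : ℂ) ≠ 0 := by
    exact_mod_cast Nat.card_pos.ne'
  have h5 : ∀ x : G, WG M (x⁻¹ * σ * x) 1 = WG M s 1 ↔ Irreducible (P.map y) := by
    intro x
    rw [hirr]
    have h6 : Subgroup.zpowers (σ : G ⧸ M) = Subgroup.zpowers (s : G ⧸ M) ↔
        WG M σ 1 = WG M s 1 := by
      unfold WG
      rw [pow_one, pow_one]
      exact (Subgroup.comap_injective (QuotientGroup.mk'_surjective M)).eq_iff.symm
    rw [h6]
    constructor
    · intro h7
      rw [htop] at h7 ⊢
      rw [eq_top_iff]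
      intro g _
      have h8 := conj_WG M σ x (x⁻¹ * g * x)
      rw [h7] at h8
      have h9 : x * (x⁻¹ * g * x) * x⁻¹ = g := by group
      rw [h9] at h8
      exact h8.1 (Subgroup.mem_top _)
    · intro h7
      rw [htop] at h7 ⊢
      rw [eq_top_iff]
      intro g _
      rw [conj_WG, h7]
      exact Subgroup.mem_top _
  by_cases h : Irreducible (P.map y)
  · rw [if_pos h]
    have h6 : Nat.card {x : G // WG M (x⁻¹ * σ * x) 1 = WG M s 1} = Nat.card G :=
      Nat.card_congr (Equiv.subtypeUnivEquiv (fun x => (h5 x).2 h))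
    rw [h6]
    push_cast
    exact inv_mul_cancel₀ h4
  · rw [if_neg h]
    have h6 : IsEmpty {x : G // WG M (x⁻¹ * σ * x) 1 = WG M s 1} :=
      ⟨fun x => h ((h5 x.1).1 x.2)⟩
    have h7 : Nat.card {x : G // WG M (x⁻¹ * σ * x) 1 = WG M s 1} = 0 := Nat.card_of_isEmpty
    rw [h7]
    simp

end

end Pool.Agent.MP_3d3918
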