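import Pool.Agent.Lib.MP_3d3918_nt.Inert.Fields
import Pool.Agent.Lib.MP_3d3918_nt.Inert.Ring

/-!
# The rings inside the algebraic closure
-/

set_option autoImplicit false

open Polynomial

namespace Pool.Agent.MP_3d3918

section basic

variable {K K' : Type} [Field K] [Field K'] [Algebra K K'] [FiniteDimensional K K']
  [IsGalois K K'] {θ : K'} {R : Subring K}

omit [FiniteDimensional K K'] [IsGalois K K'] in
/-- The inclusion of `R` in `BR`. -/
def iBR (θ : K') (R : Subring K) : R →+* BR θ R :=
  ((algebraMap K K').comp R.subtype).codRestrict (BR θ R) (fun r => alg_mem θ r.2)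

omit [FiniteDimensional K K'] [IsGalois K K'] in
theorem iBR_injective : Function.Injective (iBR θ R) := by
  intro a b h
  exact Subtype.ext ((algebraMap K K').injective (congrArg Subtype.val h))

theorem iBR_invariant (hR : Large θ R) (b : BR θ R) :
    (∀ g : Gal(K'/K), (bAct hR).smul g b = b) ↔ b ∈ (iBR θ R).range := by
  constructor
  · intro h
    have h1 : (b : K') ∈ Set.range (algebraMap K K') := by
      rw [IsGalois.mem_range_algebraMap_iff_fixed]
      intro g
      exact congrArg Subtype.val (h g)
    obtain ⟨c, hc⟩ := h1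
    have h2 : algebraMap K K' c ∈ BR θ R := by
      rw [hc]
      exact b.2
    exact ⟨⟨c, mem_of_alg_mem θ hR.coeff h2⟩, Subtype.ext hc⟩
  · rintro ⟨r, rfl⟩ g
    apply Subtype.ext
    exact AlgEquiv.commutes g _

omit [FiniteDimensional K K'] [IsGalois K K'] in
theorem iBR_closure : Subring.closure (Set.range (iBR θ R) ∪
    {(⟨θ, theta_mem θ R⟩ : BR θ R)}) = ⊤ := by
  rw [eq_top_iff]
  rintro ⟨x, hx⟩ -
  have key : ∀ (x : K') (hx : x ∈ BR θ R), (⟨x, hx⟩ : BR θ R) ∈
      Subring.closure (Set.range (iBR θ R) ∪ {(⟨θ, theta_mem θ R⟩ : BR θ R)}) := by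
    intro x hx
    induction hx using Subring.closure_induction with
    | mem x hx =>
      rcases hx with ⟨r, hr, rfl⟩ | hx
      · exact Subring.subset_closure (Or.inl ⟨⟨r, hr⟩, rfl⟩)
      · apply Subring.subset_closure
        right
        exact Subtype.ext (Set.mem_singleton_iff.1 hx)
    | zero => exact zero_mem _
    | one => exact one_mem _
    | add x y _ _ hx hy => exact add_mem hx hy
    | neg x _ hx => exact neg_mem hx
    | mul x y _ _ hx hy => exact mul_mem hx hy
  exact key x hx

omit [FiniteDimensional K K'] [IsGalois K K'] in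
theorem gen_ext (hθ : IntermediateField.adjoin K {θ} = ⊤) (g h : Gal(K'/K)) (hgh : g θ = h θ) :
    g = h := by
  have h1 : (g : K' →ₐ[K] K') = h := by
    have h2 : ∀ x ∈ IntermediateField.adjoin K {θ}, g x = h x := by
      intro x hx
      have h3 : IntermediateField.adjoin K {θ} ≤
          IntermediateField.fixedField (Subgroup.zpowers (h⁻¹ * g)) := by
        rw [IntermediateField.adjoin_le_iff]
        intro w hw
        rw [Set.mem_singleton_iff.1 hw]
        change θ ∈ IntermediateField.fixedField _
        rw [IntermediateField.mem_fixedField_iff]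
        intro ρ hρ
        have h4 : h⁻¹ * g ∈ MulAction.stabilizer Gal(K'/K) θ := by
          change h⁻¹ (g θ) = θ
          rw [hgh]
          exact h.symm_apply_apply θ
        exact (Subgroup.zpowers_le.2 h4) hρ
      have h5 := h3 hx
      rw [IntermediateField.mem_fixedField_iff] at h5
      have h6 := h5 _ (Subgroup.mem_zpowers _)
      have h7 : h (h⁻¹ (g x)) = g x := h.apply_symm_apply _
      rw [← h7]
      exact congrArg h h6
    ext x
    exact h2 x (by rw [hθ]; trivial)
  ext x
  exact congrArg (fun f => f x) h1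

omit [FiniteDimensional K K'] [IsGalois K K'] in
theorem iBR_unit (hR : Large θ R) (hθ : IntermediateField.adjoin K {θ} = ⊤)
    (g h : Gal(K'/K)) (hne : g ≠ h) :
    IsUnit ((bAct hR).smul g ⟨θ, theta_mem θ R⟩ - (bAct hR).smul h ⟨θ, theta_mem θ R⟩) := by
  have h0 : g θ - h θ ≠ 0 := by
    intro h0
    exact hne (gen_ext hθ g h (sub_eq_zero.1 h0))
  refine IsUnit.of_mul_eq_one ⟨_, hR.unit g h⟩ ?_
  apply Subtype.ext
  exact mul_inv_cancel₀ h0

end basic

section

variable {K : Type} [Field K] {F X : IntermediateField K (AlgebraicClosure K)}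

/-- The ring generated by `R` and `θ` in the algebraic closure. -/
noncomputable def BX (R : Subring F) (θ : AlgebraicClosure K) : Subring (AlgebraicClosure K) :=
  Subring.closure ((fun x : F => (x : AlgebraicClosure K)) '' (R : Set F) ∪ {θ})

/-- The ring of the elements of `E` in `B`. -/
noncomputable def AE (B : Subring (AlgebraicClosure K)) (E : IntermediateField K (AlgebraicClosure K)) :
    Subring E := B.comap (algebraMap E (AlgebraicClosure K))

theorem mem_AE (B : Subring (AlgebraicClosure K)) (E : IntermediateField K (AlgebraicClosure K))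
    (x : E) : x ∈ AE B E ↔ (x : AlgebraicClosure K) ∈ B := Iff.rfl

theorem mem_BR_iff (hFX : F ≤ X) (θ : ext hFX) (R : Subring F) (x : ext hFX) :
    x ∈ BR θ R ↔ (x : AlgebraicClosure K) ∈ BX R θ := by
  have h1 : (BR θ R).map (algebraMap (ext hFX) (AlgebraicClosure K)) = BX R θ := by
    unfold BR BX
    rw [RingHom.map_closure, Set.image_union, Set.image_image, Set.image_singleton]
    rfl
  rw [← h1]
  constructor
  · intro h
    exact ⟨x, h, rfl⟩
  · rintro ⟨y, hy, hxy⟩
    have h2 : y = x := Subtype.ext hxy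
    rw [← h2]
    exact hy

theorem coe_mem_BX {R : Subring F} (θ : AlgebraicClosure K) {x : F} (hx : x ∈ R) :
    (x : AlgebraicClosure K) ∈ BX R θ := Subring.subset_closure (Or.inl ⟨x, hx, rfl⟩)

theorem theta_mem_BX (R : Subring F) (θ : AlgebraicClosure K) : θ ∈ BX R θ :=
  Subring.subset_closure (Or.inr rfl)

theorem BX_AE {E : IntermediateField K (AlgebraicClosure K)} (hFE : F ≤ E) (R : Subring F)
    (θ : AlgebraicClosure K) : BX (AE (BX R θ) E) θ = BX R θ := by
  apply le_antisymm
  · change Subring.closure _ ≤ _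
    rw [Subring.closure_le]
    rintro _ (⟨x, hx, rfl⟩ | hx)
    · exact hx
    · rw [Set.mem_singleton_iff.1 hx]
      exact theta_mem_BX R θ
  · change Subring.closure _ ≤ _
    rw [Subring.closure_le]
    rintro _ (⟨x, hx, rfl⟩ | hx)
    · have h1 : (⟨(x : AlgebraicClosure K), hFE x.2⟩ : E) ∈ AE (BX R θ) E := coe_mem_BX θ hx
      exact coe_mem_BX (F := E) θ h1
    · rw [Set.mem_singleton_iff.1 hx]
      exact theta_mem_BX _ θ

/-- The map from the ring of `F` to the ring of `E`. -/
noncomputable def toAE {E : IntermediateField K (AlgebraicClosure K)} (hFE : F ≤ E) (R : Subring F)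
    (B : Subring (AlgebraicClosure K)) (hRB : ∀ x ∈ R, (x : AlgebraicClosure K) ∈ B) :
    R →+* AE B E where
  toFun r := ⟨⟨(r.1 : AlgebraicClosure K), hFE r.1.2⟩, hRB r.1 r.2⟩
  map_one' := rfl
  map_mul' _ _ := rfl
  map_zero' := rfl
  map_add' _ _ := rfl

theorem toAE_coe {E : IntermediateField K (AlgebraicClosure K)} (hFE : F ≤ E) (R : Subring F)
    (B : Subring (AlgebraicClosure K)) (hRB : ∀ x ∈ R, (x : AlgebraicClosure K) ∈ B) (r : R) :
    (((toAE hFE R B hRB r : AE B E) : E) : AlgebraicClosure K) = r.1 := rfl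

end

end Pool.Agent.MP_3d3918
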